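import Mathlib

set_option autoImplicit false
set_option linter.unusedSectionVars false
set_option linter.unusedVariables false

open Classical

namespace Pool.Agent.Lib.MP_5bb951_co

universe u

variable {P : Type u} [PartialOrder P] [Fintype P] [BoundedOrder P] [GradeOrder ℕ P]

/-- The rank of an element of a graded poset. -/
abbrev rk (x : P) : ℕ := grade ℕ x

theorem rk_lt {x y : P} (h : x < y) : rk x < rk y := grade_strictMono h

theorem rk_covBy {x y : P} (h : x ⋖ y) : rk y = rk x + 1 := by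
  have := CovBy.grade ℕ h
  rw [Order.covBy_iff_add_one_eq] at this
  exact this.symm

theorem exists_between {a b : P} {s : ℕ} (hab : a < b) (h1 : rk a < s) (h2 : s < rk b) :
    ∃ x : P, a < x ∧ x < b ∧ rk x = s := by
  have hne : ((Finset.univ : Finset P).filter (fun x => a ≤ x ∧ x < b ∧ rk x ≤ s)).Nonempty :=
    ⟨a, by simp [hab, h1.le]⟩
  obtain ⟨x, hx, hmax⟩ := Finset.exists_max_image _ (fun x : P => rk x) hne
  simp only [Finset.mem_filter, Finset.mem_univ, true_and] at hx hmax
  obtain ⟨hax, hxb, hxs⟩ := hx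
  have hs : rk x = s := by
    by_contra hne'
    have hlt : rk x < s := lt_of_le_of_ne hxs hne'
    obtain ⟨y, hxy, hyb⟩ := exists_covBy_le_of_lt hxb
    have hy := rk_covBy hxy
    have hyb' : y < b := by
      refine lt_of_le_of_ne hyb ?_
      rintro rfl
      omega
    have := hmax y ⟨hax.trans hxy.le, hyb', by omega⟩
    omega
  refine ⟨x, lt_of_le_of_ne hax ?_, hxb, hs⟩
  rintro rfl
  omega

/-- Chains contained in the open interval `(⊥, z)`. -/
def IsCh (z : P) (F : Finset P) : Prop :=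
  (∀ x ∈ F, ⊥ < x ∧ x < z) ∧ ∀ x ∈ F, ∀ y ∈ F, x ≤ y ∨ y ≤ x

/-- The interval of ranks strictly between `0` and the rank of `z`. -/
abbrev II (z : P) : Finset ℕ := Finset.Ioo 0 (rk z)

/-- The type of a finite set of elements: the set of its ranks. -/
noncomputable def ty (F : Finset P) : Finset ℕ := F.image (fun x => rk x)

theorem mem_ty {F : Finset P} {s : ℕ} : s ∈ ty F ↔ ∃ x ∈ F, rk x = s := by
  simp [ty]

theorem ty_mono {F G : Finset P} (h : F ⊆ G) : ty F ⊆ ty G := Finset.image_subset_image h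

theorem ty_insert (x : P) (F : Finset P) : ty (insert x F) = insert (rk x) (ty F) := by
  simp [ty, Finset.image_insert]

theorem ty_union (F G : Finset P) : ty (F ∪ G) = ty F ∪ ty G := by
  simp [ty, Finset.image_union]

@[simp] theorem ty_empty : ty (∅ : Finset P) = ∅ := by simp [ty]

theorem IsCh.mono {z : P} {F G : Finset P} (h : IsCh z F) (hG : G ⊆ F) : IsCh z G :=
  ⟨fun x hx => h.1 x (hG hx), fun x hx y hy => h.2 x (hG hx) y (hG hy)⟩

theorem isCh_empty (z : P) : IsCh z ∅ := ⟨by simp, by simp⟩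

theorem IsCh.lt_of_rk {z : P} {F : Finset P} (h : IsCh z F) {x y : P} (hx : x ∈ F) (hy : y ∈ F)
    (hr : rk x < rk y) : x < y := by
  rcases h.2 x hx y hy with h1 | h1
  · refine lt_of_le_of_ne h1 ?_
    rintro rfl
    omega
  · rcases h1.lt_or_eq with h2 | h2
    · have := rk_lt h2
      omega
    · subst h2
      omega

theorem IsCh.eq_of_rk {z : P} {F : Finset P} (h : IsCh z F) {x y : P} (hx : x ∈ F) (hy : y ∈ F)
    (hr : rk x = rk y) : x = y := by
  rcases h.2 x hx y hy with h1 | h1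
  · rcases h1.lt_or_eq with h2 | h2
    · have := rk_lt h2
      omega
    · exact h2
  · rcases h1.lt_or_eq with h2 | h2
    · have := rk_lt h2
      omega
    · exact h2.symm

theorem IsCh.rk_mem {z : P} {F : Finset P} (h : IsCh z F) {x : P} (hx : x ∈ F) : rk x ∈ II z := by
  have h1 := rk_lt (h.1 x hx).1
  have h2 := rk_lt (h.1 x hx).2
  simp only [II, Finset.mem_Ioo]
  omega

theorem IsCh.ty_subset {z : P} {F : Finset P} (h : IsCh z F) : ty F ⊆ II z := by
  intro s hs
  obtain ⟨x, hx, rfl⟩ := mem_ty.1 hs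
  exact h.rk_mem hx

theorem IsCh.card_ty {z : P} {F : Finset P} (h : IsCh z F) : (ty F).card = F.card :=
  Finset.card_image_of_injOn (fun _ hx _ hy hr => h.eq_of_rk hx hy hr)

/-- Inserting an element of a missing rank between its neighbours. -/
theorem IsCh.neighbours {z : P} {F : Finset P} (h : IsCh z F) (h0 : rk (⊥ : P) = 0) {s : ℕ}
    (hs : s ∈ II z) (hsF : s ∉ ty F) :
    ∃ a b : P, a ∈ insert ⊥ F ∧ b ∈ insert z F ∧ a < b ∧ rk a < s ∧ s < rk b ∧
      (∀ y ∈ insert ⊥ F, rk y < s → y ≤ a) ∧ (∀ y ∈ insert z F, s < rk y → b ≤ y) := by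
  simp only [II, Finset.mem_Ioo] at hs
  have hbz : (⊥ : P) < z := by
    refine lt_of_le_of_ne bot_le ?_
    intro hh
    rw [← hh] at hs
    omega
  have hcomp : ∀ x ∈ insert (⊥ : P) F, ∀ y ∈ insert z F, x ≤ y ∨ y ≤ x := by
    intro x hx y hy
    rcases Finset.mem_insert.1 hx with rfl | hx
    · exact Or.inl bot_le
    · rcases Finset.mem_insert.1 hy with rfl | hy
      · exact Or.inl (h.1 x hx).2.le
      · exact h.2 x hx y hy
  have hne1 : ((insert (⊥ : P) F).filter (fun x => rk x < s)).Nonempty :=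
    ⟨⊥, by simp [h0, hs.1]⟩
  obtain ⟨a, ha, hamax⟩ := Finset.exists_max_image _ (fun x : P => rk x) hne1
  have hne2 : ((insert z F).filter (fun x => s < rk x)).Nonempty :=
    ⟨z, by simp [hs.2]⟩
  obtain ⟨b, hb, hbmin⟩ := Finset.exists_min_image _ (fun x : P => rk x) hne2
  rw [Finset.mem_filter] at ha hb
  have hab : a < b := by
    rcases hcomp a ha.1 b hb.1 with h1 | h1
    · exact lt_of_le_of_ne h1 (by rintro rfl; omega)
    · rcases h1.lt_or_eq with h2 | h2
      · have := rk_lt h2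
        omega
      · subst h2
        omega
  refine ⟨a, b, ha.1, hb.1, hab, ha.2, hb.2, ?_, ?_⟩
  · intro y hy hys
    have hm := hamax y (Finset.mem_filter.2 ⟨hy, hys⟩)
    have hc : a ≤ y ∨ y ≤ a := by
      rcases Finset.mem_insert.1 ha.1 with h1 | h1
      · left; rw [h1]; exact bot_le
      · rcases Finset.mem_insert.1 hy with h2 | h2
        · right; rw [h2]; exact bot_le
        · exact h.2 a h1 y h2
    rcases hc with hc | hc
    · rcases hc.lt_or_eq with h2 | h2
      · have := rk_lt h2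
        omega
      · exact h2.symm.le
    · exact hc
  · intro y hy hys
    have hm := hbmin y (Finset.mem_filter.2 ⟨hy, hys⟩)
    have hc : b ≤ y ∨ y ≤ b := by
      rcases Finset.mem_insert.1 hb.1 with h1 | h1
      · rcases Finset.mem_insert.1 hy with h2 | h2
        · left; rw [h1, h2]
        · right; rw [h1]; exact (h.1 y h2).2.le
      · rcases Finset.mem_insert.1 hy with h2 | h2
        · left; rw [h2]; exact (h.1 b h1).2.le
        · exact h.2 b h1 y h2
    rcases hc with hc | hc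
    · exact hc
    · rcases hc.lt_or_eq with h2 | h2
      · have := rk_lt h2
        omega
      · exact h2.symm.le

theorem IsCh.insert_iff {z : P} {F : Finset P} (h : IsCh z F) {s : ℕ} (hsF : s ∉ ty F)
    {a b : P} (ha : a ∈ insert ⊥ F) (hb : b ∈ insert z F)
    (hra : rk a < s) (hrb : s < rk b)
    (h1 : ∀ y ∈ insert ⊥ F, rk y < s → y ≤ a) (h2 : ∀ y ∈ insert z F, s < rk y → b ≤ y)
    {x : P} (hx : rk x = s) : IsCh z (insert x F) ↔ (a < x ∧ x < b) := by
  constructor
  · intro hch
    have hxm : x ∈ insert x F := Finset.mem_insert_self _ _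
    constructor
    · rcases Finset.mem_insert.1 ha with hh | hh
      · rw [hh]; exact (hch.1 x hxm).1
      · exact hch.lt_of_rk (Finset.mem_insert_of_mem hh) hxm (by omega)
    · rcases Finset.mem_insert.1 hb with hh | hh
      · rw [hh]; exact (hch.1 x hxm).2
      · exact hch.lt_of_rk hxm (Finset.mem_insert_of_mem hh) (by omega)
  · rintro ⟨hax, hxb⟩
    have hbz : b ≤ z := by
      rcases Finset.mem_insert.1 hb with hh | hh
      · rw [hh]
      · exact (h.1 b hh).2.le
    have hcmp : ∀ y ∈ F, x ≤ y ∨ y ≤ x := by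
      intro y hy
      have hne : rk y ≠ s := fun hh => hsF (mem_ty.2 ⟨y, hy, hh⟩)
      rcases lt_or_gt_of_ne hne with hh | hh
      · right
        exact (h1 y (Finset.mem_insert_of_mem hy) hh).trans hax.le
      · left
        exact hxb.le.trans (h2 y (Finset.mem_insert_of_mem hy) hh)
    refine ⟨?_, ?_⟩
    · intro y hy
      rcases Finset.mem_insert.1 hy with rfl | hy
      · exact ⟨lt_of_le_of_lt bot_le hax, lt_of_lt_of_le hxb hbz⟩
      · exact h.1 y hy
    · intro y hy w hw
      rcases Finset.mem_insert.1 hy with hy | hy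
      · rcases Finset.mem_insert.1 hw with hw | hw
        · left; rw [hy, hw]
        · rw [hy]; exact hcmp w hw
      · rcases Finset.mem_insert.1 hw with hw | hw
        · rw [hw]; exact (hcmp y hy).symm
        · exact h.2 y hy w hw

theorem IsCh.exists_insert {z : P} {F : Finset P} (h : IsCh z F) (h0 : rk (⊥ : P) = 0) {s : ℕ}
    (hs : s ∈ II z) (hsF : s ∉ ty F) : ∃ x : P, rk x = s ∧ IsCh z (insert x F) := by
  obtain ⟨a, b, ha, hb, hab, hra, hrb, h1, h2⟩ := h.neighbours h0 hs hsF
  obtain ⟨x, hax, hxb, hx⟩ := exists_between hab hra hrb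
  exact ⟨x, hx, (h.insert_iff hsF ha hb hra hrb h1 h2 hx).2 ⟨hax, hxb⟩⟩

/-- Maximal chains of the open interval `(⊥, z)`. -/
def IsFlag (z : P) (Φ : Finset P) : Prop := IsCh z Φ ∧ ty Φ = II z

theorem IsCh.exists_flag {z : P} {F : Finset P} (h : IsCh z F) (h0 : rk (⊥ : P) = 0) :
    ∃ Φ : Finset P, IsFlag z Φ ∧ F ⊆ Φ := by
  induction hn : (II z \ ty F).card generalizing F with
  | zero =>
    refine ⟨F, ⟨h, ?_⟩, subset_rfl⟩
    rw [Finset.card_eq_zero, Finset.sdiff_eq_empty_iff_subset] at hn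
    exact Finset.Subset.antisymm h.ty_subset hn
  | succ n ih =>
    have hne : (II z \ ty F).Nonempty := by
      rw [← Finset.card_pos]; omega
    obtain ⟨s, hs⟩ := hne
    rw [Finset.mem_sdiff] at hs
    obtain ⟨x, hx, hch⟩ := h.exists_insert h0 hs.1 hs.2
    have hcard : (II z \ ty (insert x F)).card = n := by
      have : II z \ ty (insert x F) = (II z \ ty F).erase s := by
        rw [ty_insert, hx]
        ext y
        simp only [Finset.mem_sdiff, Finset.mem_insert, Finset.mem_erase]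
        tauto
      rw [this, Finset.card_erase_of_mem (Finset.mem_sdiff.2 hs), hn]
      rfl
    obtain ⟨Φ, hΦ, hsub⟩ := ih hch hcard
    exact ⟨Φ, hΦ, (Finset.subset_insert x F).trans hsub⟩

/-- Restriction of a set of elements to a set of ranks. -/
noncomputable def res (S : Finset ℕ) (F : Finset P) : Finset P := F.filter (fun x => rk x ∈ S)

theorem mem_res {S : Finset ℕ} {F : Finset P} {x : P} : x ∈ res S F ↔ x ∈ F ∧ rk x ∈ S := by
  simp [res]

theorem res_subset (S : Finset ℕ) (F : Finset P) : res S F ⊆ F := Finset.filter_subset _ _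

theorem res_res (S T : Finset ℕ) (F : Finset P) : res S (res T F) = res (S ∩ T) F := by
  ext x
  simp only [mem_res, Finset.mem_inter]
  tauto

theorem res_res_of_subset {S T : Finset ℕ} (h : S ⊆ T) (F : Finset P) :
    res S (res T F) = res S F := by
  rw [res_res, Finset.inter_eq_left.2 h]

theorem res_union (S : Finset ℕ) (F G : Finset P) : res S (F ∪ G) = res S F ∪ res S G := by
  ext x
  simp only [mem_res, Finset.mem_union]
  tauto

theorem res_union_left (S T : Finset ℕ) (F : Finset P) : res (S ∪ T) F = res S F ∪ res T F := by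
  ext x
  simp only [mem_res, Finset.mem_union]
  tauto

theorem res_self {z : P} {F : Finset P} (h : IsCh z F) : res (II z) F = F := by
  ext x
  simp only [mem_res]
  exact ⟨fun h => h.1, fun hx => ⟨hx, h.rk_mem hx⟩⟩

theorem ty_res (S : Finset ℕ) (F : Finset P) : ty (res S F) = S ∩ ty F := by
  ext s
  simp only [mem_ty, mem_res, Finset.mem_inter]
  constructor
  · rintro ⟨x, ⟨hx, hS⟩, rfl⟩
    exact ⟨hS, x, hx, rfl⟩
  · rintro ⟨hS, x, hx, rfl⟩
    exact ⟨x, ⟨hx, hS⟩, rfl⟩

theorem IsFlag.ty_res {z : P} {Φ : Finset P} (h : IsFlag z Φ) {S : Finset ℕ} (hS : S ⊆ II z) :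
    ty (res S Φ) = S := by
  rw [MP_5bb951_co.ty_res, h.2, Finset.inter_eq_left.2 hS]

theorem IsCh.eq_res {z : P} {F Φ : Finset P} (h : IsCh z Φ) (hF : F ⊆ Φ) : F = res (ty F) Φ := by
  ext x
  simp only [mem_res]
  constructor
  · intro hx
    exact ⟨hF hx, mem_ty.2 ⟨x, hx, rfl⟩⟩
  · rintro ⟨hx, hy⟩
    obtain ⟨y, hy1, hy2⟩ := mem_ty.1 hy
    rw [← h.eq_of_rk (hF hy1) hx hy2]
    exact hy1

theorem IsCh.sdiff_eq_res {z : P} {F Φ : Finset P} (h : IsCh z Φ) (hF : F ⊆ Φ) :
    Φ \ F = res (II z \ ty F) Φ := by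
  ext x
  simp only [mem_res, Finset.mem_sdiff]
  constructor
  · rintro ⟨hx, hxF⟩
    refine ⟨hx, h.rk_mem hx, ?_⟩
    intro hy
    obtain ⟨y, hy1, hy2⟩ := mem_ty.1 hy
    rw [← h.eq_of_rk (hF hy1) hx hy2] at hxF
    exact hxF hy1
  · rintro ⟨hx, _, hy⟩
    exact ⟨hx, fun hxF => hy (mem_ty.2 ⟨x, hxF, rfl⟩)⟩

/-- A poset is thin if its intervals of length two have exactly four elements. -/
def Thin (P : Type u) [PartialOrder P] [GradeOrder ℕ P] : Prop :=
  ∀ a b : P, a < b → rk b = rk a + 2 → ∃ u v : P, u ≠ v ∧ ∀ w, (a < w ∧ w < b) ↔ (w = u ∨ w = v)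

theorem IsFlag.flip {z : P} {Φ : Finset P} (h : IsFlag z Φ) (h0 : rk (⊥ : P) = 0)
    (ht : Thin P) {j : ℕ} (hj : j ∈ II z) :
    ∃ Ψ : Finset P, IsFlag z Ψ ∧ Ψ ≠ Φ ∧ res ((II z).erase j) Ψ = res ((II z).erase j) Φ ∧
      ∀ Ξ : Finset P, IsFlag z Ξ → res ((II z).erase j) Ξ = res ((II z).erase j) Φ →
        Ξ = Φ ∨ Ξ = Ψ := by
  set F := res ((II z).erase j) Φ with hF
  have hFch : IsCh z F := h.1.mono (res_subset _ _)
  have hFty : ty F = (II z).erase j := h.ty_res (Finset.erase_subset _ _)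
  have hjF : j ∉ ty F := by rw [hFty]; simp
  obtain ⟨a, b, ha, hb, hab, hra, hrb, h1, h2⟩ := hFch.neighbours h0 hj hjF
  have hj' := hj
  simp only [II, Finset.mem_Ioo] at hj'
  -- ranks of neighbours
  have hra' : rk a = j - 1 := by
    by_contra hne
    have hlt : rk a < j - 1 := by omega
    have hmem : j - 1 ∈ ty F := by
      rw [hFty, Finset.mem_erase, II, Finset.mem_Ioo]
      omega
    obtain ⟨y, hy, hyr⟩ := mem_ty.1 hmem
    have := h1 y (Finset.mem_insert_of_mem hy) (by omega)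
    rcases this.lt_or_eq with h3 | h3
    · have := rk_lt h3
      omega
    · subst h3
      omega
  have hrb' : rk b = j + 1 := by
    by_contra hne
    have hlt : j + 1 < rk b := by omega
    have hbz : rk b ≤ rk z := by
      rcases Finset.mem_insert.1 hb with hh | hh
      · rw [hh]
      · exact (rk_lt (hFch.1 b hh).2).le
    have hmem : j + 1 ∈ ty F := by
      rw [hFty, Finset.mem_erase, II, Finset.mem_Ioo]
      omega
    obtain ⟨y, hy, hyr⟩ := mem_ty.1 hmem
    have := h2 y (Finset.mem_insert_of_mem hy) (by omega)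
    rcases this.lt_or_eq with h3 | h3
    · have := rk_lt h3
      omega
    · subst h3
      omega
  obtain ⟨p, q, hpq, huv⟩ := ht a b hab (by omega)
  have hrank : ∀ w, a < w ∧ w < b → rk w = j := by
    rintro w ⟨hw1, hw2⟩
    have := rk_lt hw1
    have := rk_lt hw2
    omega
  have hflag : ∀ w, a < w ∧ w < b → IsFlag z (insert w F) ∧ res ((II z).erase j) (insert w F) = F := by
    intro w hw
    have hwr := hrank w hw
    refine ⟨⟨(hFch.insert_iff hjF ha hb hra hrb h1 h2 hwr).2 hw, ?_⟩, ?_⟩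
    · rw [ty_insert, hwr, hFty, Finset.insert_erase hj]
    · ext x
      simp only [mem_res, Finset.mem_insert, Finset.mem_erase]
      constructor
      · rintro ⟨rfl | hx, hx2⟩
        · exact absurd hwr hx2.1
        · exact hx
      · intro hx
        have := (mem_res.1 hx).2
        rw [Finset.mem_erase] at this
        exact ⟨Or.inr hx, this⟩
  have hrev : ∀ Ξ : Finset P, IsFlag z Ξ → res ((II z).erase j) Ξ = F →
      ∃ w, (a < w ∧ w < b) ∧ Ξ = insert w F := by
    intro Ξ hΞ hres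
    have hjΞ : j ∈ ty Ξ := by rw [hΞ.2]; exact hj
    obtain ⟨w, hw, hwr⟩ := mem_ty.1 hjΞ
    have hEq : Ξ = insert w F := by
      rw [← hres]
      ext x
      simp only [mem_res, Finset.mem_insert, Finset.mem_erase]
      constructor
      · intro hx
        by_cases hxj : rk x = j
        · left
          exact hΞ.1.eq_of_rk hx hw (by omega)
        · right
          exact ⟨hx, hxj, hΞ.1.rk_mem hx⟩
      · rintro (rfl | hx)
        · exact hw
        · exact hx.1
    refine ⟨w, ?_, hEq⟩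
    apply (hFch.insert_iff hjF ha hb hra hrb h1 h2 hwr).1
    rw [← hEq]
    exact hΞ.1
  obtain ⟨w, hw, hΦ⟩ := hrev Φ h rfl
  have key : ∀ w' w'' : P, (w = w' ∧ w'' ≠ w' ∧ ∀ x, (a < x ∧ x < b) ↔ (x = w' ∨ x = w'')) →
      ∃ Ψ : Finset P, IsFlag z Ψ ∧ Ψ ≠ Φ ∧ res ((II z).erase j) Ψ = F ∧
      ∀ Ξ : Finset P, IsFlag z Ξ → res ((II z).erase j) Ξ = F → Ξ = Φ ∨ Ξ = Ψ := by
    rintro w' w'' ⟨rfl, hne, hall⟩
    have hw'' : a < w'' ∧ w'' < b := (hall w'').2 (Or.inr rfl)
    refine ⟨insert w'' F, (hflag w'' hw'').1, ?_, (hflag w'' hw'').2, ?_⟩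
    · intro hEq
      rw [hΦ] at hEq
      have : w'' ∈ insert w F := by rw [← hEq]; exact Finset.mem_insert_self _ _
      rcases Finset.mem_insert.1 this with h3 | h3
      · exact hne h3
      · exact hjF (mem_ty.2 ⟨w'', h3, hrank w'' hw''⟩)
    · intro Ξ hΞ hres
      obtain ⟨x, hx, hΞx⟩ := hrev Ξ hΞ hres
      rcases (hall x).1 hx with rfl | rfl
      · left; rw [hΞx, ← hΦ]
      · right; exact hΞx
  rcases (huv w).1 hw with hh | hh
  · exact key p q ⟨hh, hpq.symm, huv⟩
  · exact key q p ⟨hh, hpq, fun x => (huv x).trans or_comm⟩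

end Pool.Agent.Lib.MP_5bb951_co
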