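import Pool.Agent.Lib.MP_5bb951_co.Dual

set_option autoImplicit false
set_option linter.unusedSectionVars false
set_option linter.unusedVariables false

open Classical

namespace Pool.Agent.Lib.MP_5bb951_co

universe u v

variable {P : Type u} [PartialOrder P] [Fintype P] [BoundedOrder P] [GradeOrder ℕ P]
variable {k : Type v} [Field k]

/-- Even ranks indexed by `K`. -/
def ev (K : Finset ℕ) : Finset ℕ := K.image (fun i => 2 * i + 2)

/-- Odd ranks indexed by `K`. -/
def od (K : Finset ℕ) : Finset ℕ := K.image (fun i => 2 * i + 1)

theorem mem_ev {K : Finset ℕ} {j : ℕ} : j ∈ ev K ↔ ∃ i ∈ K, 2 * i + 2 = j := by simp [ev]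

theorem mem_od {K : Finset ℕ} {j : ℕ} : j ∈ od K ↔ ∃ i ∈ K, 2 * i + 1 = j := by simp [od]

theorem ev_mono {K L : Finset ℕ} (h : K ⊆ L) : ev K ⊆ ev L := Finset.image_subset_image h

theorem od_mono {K L : Finset ℕ} (h : K ⊆ L) : od K ⊆ od L := Finset.image_subset_image h

theorem mem_ev_iff {K : Finset ℕ} {i : ℕ} : 2 * i + 2 ∈ ev K ↔ i ∈ K := by
  rw [mem_ev]
  constructor
  · rintro ⟨j, hj, h⟩
    have : j = i := by omega
    exact this ▸ hj
  · intro h
    exact ⟨i, h, rfl⟩

theorem mem_od_iff {K : Finset ℕ} {i : ℕ} : 2 * i + 1 ∈ od K ↔ i ∈ K := by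
  rw [mem_od]
  constructor
  · rintro ⟨j, hj, h⟩
    have : j = i := by omega
    exact this ▸ hj
  · intro h
    exact ⟨i, h, rfl⟩

theorem not_od_of_even {K : Finset ℕ} {i : ℕ} : 2 * i + 2 ∉ od K := by
  rw [mem_od]
  rintro ⟨j, _, h⟩
  omega

theorem not_ev_of_odd {K : Finset ℕ} {i : ℕ} : 2 * i + 1 ∉ ev K := by
  rw [mem_ev]
  rintro ⟨j, _, h⟩
  omega

/-- The value of the linear form on the element of rank `j` of a flag. -/
noncomputable def w (c : P → k) (z : P) (j : ℕ) : Fl z → k := fun Φ => ∏ x ∈ res {j} Φ.1, c x

theorem w_mem (c : P → k) (z : P) (j : ℕ) : w c z j ∈ C k z {j} := by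
  intro Φ Ψ h
  simp only [w, h]

/-- Products of the values on odd ranks. -/
noncomputable def W (c : P → k) (z : P) (L : Finset ℕ) : Fl z → k := ∏ i ∈ L, w c z (2 * i + 1)

theorem W_empty (c : P → k) (z : P) : W c z ∅ = 1 := by simp [W]

theorem W_insert (c : P → k) (z : P) {i : ℕ} {L : Finset ℕ} (h : i ∉ L) :
    W c z (insert i L) = w c z (2 * i + 1) * W c z L := by
  simp [W, Finset.prod_insert h]

theorem W_mem (c : P → k) (z : P) (L : Finset ℕ) : W c z L ∈ C k z (od L) := by
  induction L using Finset.induction_on with
  | empty =>
    rw [W_empty]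
    exact one_mem_C _
  | insert i L hi ih =>
    rw [W_insert c z hi]
    apply C_mul' (w_mem c z _) ih
    intro j hj
    rcases Finset.mem_union.1 hj with hj | hj
    · rw [Finset.mem_singleton] at hj
      rw [hj, mem_od_iff]
      exact Finset.mem_insert_self _ _
    · exact od_mono (Finset.subset_insert _ _) hj

/-- The sets of ranks of the zig-zag elements. -/
def EE (m : ℕ) (K : Finset ℕ) : Finset ℕ := ev (Finset.range m \ K) ∪ od K

/-- The sets of ranks of the zig-zag relations. -/
def DD (m : ℕ) (K : Finset ℕ) : Finset ℕ := ev (Finset.range m) ∪ od K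

theorem EE_subset_DD (m : ℕ) (K : Finset ℕ) : EE m K ⊆ DD m K :=
  Finset.union_subset_union (ev_mono Finset.sdiff_subset) subset_rfl

theorem DD_subset {m : ℕ} {K : Finset ℕ} (hK : K ⊆ Finset.range (m + 1)) {z : P}
    (hz : rk z = 2 * m + 2) : DD m K ⊆ II z := by
  intro j hj
  simp only [II, Finset.mem_Ioo]
  rcases Finset.mem_union.1 hj with hj | hj
  · obtain ⟨i, hi, rfl⟩ := mem_ev.1 hj
    rw [Finset.mem_range] at hi
    omega
  · obtain ⟨i, hi, rfl⟩ := mem_od.1 hj
    have := Finset.mem_range.1 (hK hi)
    omega

/-- The zig-zag sums. -/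
noncomputable def YY (c : P → k) (z : P) (e : Finset ℕ → Fl z → k) (K : Finset ℕ) : Fl z → k :=
  ∑ J ∈ K.powerset, W c z (K \ J) * e J

variable (k) in
/-- The space of zig-zag relations. -/
noncomputable def BB (z : P) (m : ℕ) (K : Finset ℕ) : Submodule k (Fl z → k) :=
  ⨆ j ∈ EE m K, C k z ((DD m K).erase j)

theorem mul_mem_of_iSup {z : P} {φ ψ : Fl z → k} {E : Finset ℕ} {U : ℕ → Submodule k (Fl z → k)}
    (V : Submodule k (Fl z → k)) (hψ : ψ ∈ ⨆ j ∈ E, U j)
    (h : ∀ j ∈ E, ∀ χ ∈ U j, φ * χ ∈ V) : φ * ψ ∈ V := by
  have : (⨆ j ∈ E, U j) ≤ V.comap (LinearMap.mulLeft k φ) := by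
    apply iSup₂_le
    intro j hj χ hχ
    exact h j hj χ hχ
  exact this hψ

theorem exists_e {z : P} {m : ℕ} (hz : rk z = 2 * m + 2) (hreg : RegProp k z) (c : P → k)
    (q : Fl z → k) (hq : q ∈ C k z (ev (Finset.range m)))
    (hcl : ∀ i ∈ Finset.range m, w c z (2 * i + 1) * q ∈
      ⨆ j ∈ DD m {i}, C k z ((DD m {i}).erase j)) (n : ℕ) :
    ∃ e : Finset ℕ → Fl z → k, e ∅ = q ∧ ∀ K : Finset ℕ, K ⊆ Finset.range m → K.card ≤ n →
      (e K ∈ C k z (EE m K) ∧ (K.Nonempty → YY c z e K ∈ BB k z m K)) := by
  induction n with
  | zero =>
    refine ⟨fun _ => q, rfl, ?_⟩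
    intro K hK hcard
    have hK0 : K = ∅ := Finset.card_eq_zero.1 (Nat.le_zero.1 hcard)
    subst hK0
    refine ⟨?_, fun hh => absurd hh (by simp)⟩
    simpa [EE, od] using hq
  | succ n ih =>
    obtain ⟨e, he0, he⟩ := ih
    have hstep : ∀ K : Finset ℕ, K ⊆ Finset.range m → K.card = n + 1 →
        ∃ a : Fl z → k, a ∈ C k z (EE m K) ∧
          (∑ J ∈ K.powerset.erase K, W c z (K \ J) * e J) - a ∈ BB k z m K := by
      intro K hK hcard
      set X := ∑ J ∈ K.powerset.erase K, W c z (K \ J) * e J with hX
      have hDI : DD m K ⊆ II z :=
        DD_subset (hK.trans (Finset.range_subset_range.2 (Nat.le_succ m))) hz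
      have hlt : ∀ J ∈ K.powerset.erase K, J ⊆ K ∧ J.card ≤ n := by
        intro J hJ
        rw [Finset.mem_erase, Finset.mem_powerset] at hJ
        refine ⟨hJ.2, ?_⟩
        have := Finset.card_lt_card (Finset.ssubset_iff_subset_ne.2 ⟨hJ.2, hJ.1⟩)
        omega
      have hXD : X ∈ C k z (DD m K) := by
        apply Submodule.sum_mem
        intro J hJ
        obtain ⟨hJK, hJn⟩ := hlt J hJ
        apply C_mul' (W_mem c z (K \ J)) (he J (hJK.trans hK) hJn).1
        apply Finset.union_subset
        · exact (od_mono Finset.sdiff_subset).trans Finset.subset_union_right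
        · exact Finset.union_subset
            ((ev_mono Finset.sdiff_subset).trans Finset.subset_union_left)
            ((od_mono hJK).trans Finset.subset_union_right)
      have hWd : DD m K \ ev K = EE m K := by
        ext j
        simp only [DD, EE, Finset.mem_sdiff, Finset.mem_union]
        constructor
        · rintro ⟨hj | hj, hjK⟩
          · left
            obtain ⟨i, hi, rfl⟩ := mem_ev.1 hj
            rw [mem_ev_iff] at hjK ⊢
            exact Finset.mem_sdiff.2 ⟨hi, hjK⟩
          · exact Or.inr hj
        · rintro (hj | hj)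
          · obtain ⟨i, hi, rfl⟩ := mem_ev.1 hj
            rw [Finset.mem_sdiff] at hi
            exact ⟨Or.inl (mem_ev_iff.2 hi.1), fun hh => hi.2 (mem_ev_iff.1 hh)⟩
          · refine ⟨Or.inr hj, fun hh => ?_⟩
            obtain ⟨i, hi, rfl⟩ := mem_od.1 hj
            exact not_ev_of_odd hh
      have hdist := distrib hreg (EE m K) (ev K) (DD m K) hDI (EE_subset_DD m K)
        ((ev_mono hK).trans Finset.subset_union_left) (by
          rw [Finset.disjoint_left]
          intro j hj hjK
          rw [← hWd, Finset.mem_sdiff] at hj
          exact hj.2 hjK) X hXD (by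
          intro t ht
          obtain ⟨i, hi, rfl⟩ := mem_ev.1 ht
          set K' := K.erase i with hK'
          have hiK' : i ∉ K' := Finset.notMem_erase i K
          have hKi : K = insert i K' := (Finset.insert_erase hi).symm
          have hK'K : K' ⊆ K := Finset.erase_subset _ _
          have hK'card : K'.card = n := by
            rw [hK', Finset.card_erase_of_mem hi, hcard]; rfl
          -- decomposition of X
          have hdec : X = w c z (2 * i + 1) * YY c z e K' +
              ∑ J ∈ K'.powerset.erase K', W c z (K' \ J) * e (insert i J) := by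
            have h1 : X + W c z (K \ K) * e K = ∑ J ∈ K.powerset, W c z (K \ J) * e J :=
              Finset.sum_erase_add _ _ (Finset.mem_powerset_self K)
            have h2 : (∑ J ∈ K'.powerset.erase K', W c z (K' \ J) * e (insert i J)) +
                W c z (K' \ K') * e (insert i K') =
                ∑ J ∈ K'.powerset, W c z (K' \ J) * e (insert i J) :=
              Finset.sum_erase_add _ _ (Finset.mem_powerset_self K')
            have h3 : ∑ J ∈ K.powerset, W c z (K \ J) * e J =
                ∑ J ∈ K'.powerset, W c z (K \ J) * e J +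
                ∑ J ∈ K'.powerset, W c z (K \ insert i J) * e (insert i J) := by
              rw [hKi, Finset.sum_powerset_insert hiK']
            have h4 : ∑ J ∈ K'.powerset, W c z (K \ J) * e J =
                w c z (2 * i + 1) * YY c z e K' := by
              rw [YY, Finset.mul_sum]
              apply Finset.sum_congr rfl
              intro J hJ
              rw [Finset.mem_powerset] at hJ
              have hiJ : i ∉ J := fun hh => hiK' (hJ hh)
              rw [hKi, Finset.insert_sdiff_of_notMem _ hiJ, W_insert c z, mul_assoc]
              intro hh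
              exact hiK' (Finset.mem_sdiff.1 hh).1
            have h5 : ∑ J ∈ K'.powerset, W c z (K \ insert i J) * e (insert i J) =
                ∑ J ∈ K'.powerset, W c z (K' \ J) * e (insert i J) := by
              apply Finset.sum_congr rfl
              intro J hJ
              have : K \ insert i J = K' \ J := by
                ext x
                simp only [hK', Finset.mem_sdiff, Finset.mem_insert, Finset.mem_erase]
                tauto
              rw [this]
            rw [h3, h4, h5, ← h2, ← hKi] at h1
            simp only [Finset.sdiff_self] at h1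
            rw [← add_assoc] at h1
            exact add_right_cancel h1
          rw [hdec]
          apply Submodule.add_mem
          · -- the product with YY
            by_cases hne : K'.Nonempty
            · have hY := (he K' (hK'K.trans hK) (by omega)).2 hne
              apply mul_mem_of_iSup _ hY
              intro j hj χ hχ
              have hji : j ≠ 2 * i + 1 := by
                rintro rfl
                rcases Finset.mem_union.1 hj with hj | hj
                · exact not_ev_of_odd hj
                · exact hiK' (mem_od_iff.1 hj)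
              have hmem : w c z (2 * i + 1) * χ ∈ C k z ((DD m K).erase j) := by
                apply C_mul' (w_mem c z _) hχ
                intro x hx
                rcases Finset.mem_union.1 hx with hx | hx
                · rw [Finset.mem_singleton] at hx
                  subst hx
                  exact Finset.mem_erase.2 ⟨hji.symm,
                    Finset.mem_union_right _ (mem_od_iff.2 hi)⟩
                · rw [Finset.mem_erase] at hx ⊢
                  exact ⟨hx.1, Finset.union_subset_union subset_rfl (od_mono hK'K) hx.2⟩
              by_cases hjt : j = 2 * i + 2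
              · subst hjt
                exact Submodule.mem_sup_left hmem
              · apply Submodule.mem_sup_right
                have hjE : j ∈ EE m K := by
                  rcases Finset.mem_union.1 hj with hj | hj
                  · obtain ⟨l, hl, rfl⟩ := mem_ev.1 hj
                    rw [Finset.mem_sdiff] at hl
                    apply Finset.mem_union_left
                    rw [mem_ev_iff, Finset.mem_sdiff]
                    refine ⟨hl.1, fun hh => ?_⟩
                    rw [hKi] at hh
                    rcases Finset.mem_insert.1 hh with h' | h'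
                    · exact hjt (by rw [h'])
                    · exact hl.2 h'
                  · exact Finset.mem_union_right _ (od_mono hK'K hj)
                exact Submodule.mem_iSup_of_mem j (Submodule.mem_iSup_of_mem hjE hmem)
            · rw [Finset.not_nonempty_iff_eq_empty] at hne
              have hKs : K = {i} := by rw [hKi, hne]; rfl
              have hY0 : YY c z e K' = q := by
                rw [hne, YY]
                simp [W_empty, he0]
              rw [hY0]
              have := hcl i (hK hi)
              rw [← hKs] at this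
              refine (iSup₂_le ?_ : (⨆ j ∈ DD m K, C k z ((DD m K).erase j)) ≤ _) this
              intro j hj
              by_cases hjt : j = 2 * i + 2
              · subst hjt
                exact le_sup_left
              · refine le_trans ?_ le_sup_right
                have hjE : j ∈ EE m K := by
                  rcases Finset.mem_union.1 hj with hj | hj
                  · obtain ⟨l, hl, rfl⟩ := mem_ev.1 hj
                    apply Finset.mem_union_left
                    rw [mem_ev_iff, Finset.mem_sdiff, hKs, Finset.mem_singleton]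
                    refine ⟨hl, fun hh => hjt (by rw [hh])⟩
                  · exact Finset.mem_union_right _ hj
                exact le_iSup₂_of_le j hjE le_rfl
          · apply Submodule.sum_mem
            intro J hJ
            rw [Finset.mem_erase, Finset.mem_powerset] at hJ
            have hJc := Finset.card_lt_card (Finset.ssubset_iff_subset_ne.2 ⟨hJ.2, hJ.1⟩)
            have hiJ : i ∉ J := fun hh => hiK' (hJ.2 hh)
            have hsub : insert i J ⊆ K := by
              rw [hKi]
              exact Finset.insert_subset_insert _ hJ.2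
            have he' := (he (insert i J) (hsub.trans hK)
              (by rw [Finset.card_insert_of_notMem hiJ]; omega)).1
            apply Submodule.mem_sup_left
            apply C_mul' (W_mem c z _) he'
            intro x hx
            rw [Finset.mem_erase]
            rcases Finset.mem_union.1 hx with hx | hx
            · refine ⟨?_, Finset.mem_union_right _
                (od_mono (Finset.sdiff_subset.trans hK'K) hx)⟩
              rintro rfl
              exact not_od_of_even hx
            · rcases Finset.mem_union.1 hx with hx | hx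
              · refine ⟨?_, Finset.mem_union_left _ (ev_mono Finset.sdiff_subset hx)⟩
                rintro rfl
                rw [mem_ev_iff, Finset.mem_sdiff] at hx
                exact hx.2 (Finset.mem_insert_self _ _)
              · refine ⟨?_, Finset.mem_union_right _ (od_mono hsub hx)⟩
                rintro rfl
                exact not_od_of_even hx)
      rw [hWd] at hdist
      obtain ⟨a, ha, b, hb, hab⟩ := Submodule.mem_sup.1 hdist
      refine ⟨a, ha, ?_⟩
      rw [← hab, add_sub_cancel_left]
      exact hb
    choose! a ha1 ha2 using hstep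
    refine ⟨fun K => if K.card ≤ n then e K else - a K, ?_, ?_⟩
    · simp [he0]
    · intro K hK hcard
      by_cases hKn : K.card ≤ n
      · have := he K hK hKn
        simp only [hKn, if_true]
        refine ⟨this.1, fun hne => ?_⟩
        have hYY : YY c z (fun K => if K.card ≤ n then e K else - a K) K = YY c z e K := by
          simp only [YY]
          apply Finset.sum_congr rfl
          intro J hJ
          have : J.card ≤ n := (Finset.card_le_card (Finset.mem_powerset.1 hJ)).trans hKn
          rw [if_pos this]
        rw [hYY]
        exact this.2 hne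
      · have hKn' : K.card = n + 1 := by omega
        simp only [hKn, if_false]
        refine ⟨Submodule.neg_mem _ (ha1 K hK hKn'), fun hne => ?_⟩
        have hYY : YY c z (fun K => if K.card ≤ n then e K else - a K) K =
            (∑ J ∈ K.powerset.erase K, W c z (K \ J) * e J) - a K := by
          rw [YY, ← Finset.sum_erase_add _ _ (Finset.mem_powerset_self K), sub_eq_add_neg]
          congr 1
          · apply Finset.sum_congr rfl
            intro J hJ
            rw [Finset.mem_erase, Finset.mem_powerset] at hJ
            have := Finset.card_lt_card (Finset.ssubset_iff_subset_ne.2 ⟨hJ.2, hJ.1⟩)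
            rw [if_pos (by omega)]
          · rw [if_neg hKn, Finset.sdiff_self, W_empty, one_mul]
        rw [hYY]
        exact ha2 K hK hKn'

theorem core_id [CharP k 2] {z : P} {m : ℕ} (hz : rk z = 2 * m + 2) (h0 : rk (⊥ : P) = 0)
    (ht : Thin P) (hreg : RegProp k z) (c : P → k)
    (q : Fl z → k) (hq : q ∈ C k z (ev (Finset.range m)))
    (hcl : ∀ i ∈ Finset.range (m + 1), w c z (2 * i + 1) * q ∈
      ⨆ j ∈ DD m {i}, C k z ((DD m {i}).erase j)) :
    ∑ Φ, W c z (Finset.range (m + 1)) Φ * q Φ ^ 2 = 0 := by
  obtain ⟨e, he0, he⟩ := exists_e hz hreg c q hq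
    (fun i hi => hcl i (Finset.mem_range.2 (by have := Finset.mem_range.1 hi; omega))) m
  have he' : ∀ K : Finset ℕ, K ⊆ Finset.range m →
      (e K ∈ C k z (EE m K) ∧ (K.Nonempty → YY c z e K ∈ BB k z m K)) := by
    intro K hK
    apply he K hK
    have := Finset.card_le_card hK
    rwa [Finset.card_range] at this
  set w0 := w c z (2 * m + 1) with hw0
  have hm1 : 2 * m + 1 ∈ II z := by
    simp only [II, Finset.mem_Ioo]
    omega
  -- vanishing of the partial sums
  have hvan : ∀ J' ∈ (Finset.range m).powerset,
      ∑ Φ, (w0 * e J' * YY c z e (Finset.range m \ J')) Φ = 0 := by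
    intro J' hJ'
    rw [Finset.mem_powerset] at hJ'
    set K := Finset.range m \ J' with hK
    have hKm : K ⊆ Finset.range m := Finset.sdiff_subset
    have hKJ : Finset.range m \ K = J' := Finset.sdiff_sdiff_eq_self hJ'
    have hDI : DD m K ⊆ II z :=
      DD_subset (hKm.trans (Finset.range_subset_range.2 (Nat.le_succ m))) hz
    set V : Submodule k (Fl z → k) :=
      LinearMap.ker (∑ Φ : Fl z, (LinearMap.proj Φ : (Fl z → k) →ₗ[k] k)) with hV
    have hmemV : ∀ φ : Fl z → k, φ ∈ V ↔ ∑ Φ, φ Φ = 0 := by
      intro φ
      simp [hV, LinearMap.mem_ker]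
    rw [← hmemV]
    by_cases hne : K.Nonempty
    · have hY := (he' K hKm).2 hne
      apply mul_mem_of_iSup _ hY
      intro j hj χ hχ
      rw [hmemV]
      have hjI : j ∈ II z := hDI (EE_subset_DD m K hj)
      apply sum_eq_zero_of_mem h0 ht hjI
      have h1 : w0 * e J' ∈ C k z ({2 * m + 1} ∪ EE m J') :=
        C_mul (w_mem c z _) (he' J' hJ').1
      apply C_mul' h1 hχ
      have hDJ : DD m J' ⊆ II z :=
        DD_subset (hJ'.trans (Finset.range_subset_range.2 (Nat.le_succ m))) hz
      have hjm : j ≠ 2 * m + 1 := by
        rintro rfl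
        rcases Finset.mem_union.1 hj with hj | hj
        · exact not_ev_of_odd hj
        · rw [mem_od_iff] at hj
          have := Finset.mem_range.1 (hKm hj)
          omega
      have hjJ : j ∉ EE m J' := by
        intro hjJ
        rcases Finset.mem_union.1 hj with hj | hj
        · obtain ⟨l, hl, rfl⟩ := mem_ev.1 hj
          rcases Finset.mem_union.1 hjJ with hjJ | hjJ
          · rw [mem_ev_iff, Finset.mem_sdiff] at hjJ
            rw [hKJ] at hl
            exact hjJ.2 hl
          · exact not_od_of_even hjJ
        · obtain ⟨l, hl, rfl⟩ := mem_od.1 hj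
          rcases Finset.mem_union.1 hjJ with hjJ | hjJ
          · exact not_ev_of_odd hjJ
          · rw [mem_od_iff] at hjJ
            exact (Finset.mem_sdiff.1 hl).2 hjJ
      intro x hx
      rw [Finset.mem_erase]
      rcases Finset.mem_union.1 hx with hx | hx
      · rcases Finset.mem_union.1 hx with hx | hx
        · rw [Finset.mem_singleton] at hx
          subst hx
          exact ⟨hjm.symm, hm1⟩
        · exact ⟨fun hh => hjJ (hh ▸ hx), hDJ (EE_subset_DD m J' hx)⟩
      · rw [Finset.mem_erase] at hx
        exact ⟨hx.1, hDI hx.2⟩
    · rw [Finset.not_nonempty_iff_eq_empty] at hne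
      have hJm : J' = Finset.range m := by rw [← hKJ, hne, Finset.sdiff_empty]
      have hY0 : YY c z e K = q := by
        rw [hne, YY]
        simp [W_empty, he0]
      rw [hY0, mul_comm w0, mul_assoc]
      have hqq := hcl m (Finset.mem_range.2 (Nat.lt_succ_self m))
      rw [← hw0] at hqq
      apply mul_mem_of_iSup _ hqq
      intro j hj χ hχ
      rw [hmemV]
      have hDm : DD m {m} ⊆ II z := DD_subset (by
        intro x hx
        rw [Finset.mem_singleton] at hx
        rw [hx]
        exact Finset.mem_range.2 (Nat.lt_succ_self m)) hz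
      have hjI : j ∈ II z := hDm hj
      apply sum_eq_zero_of_mem h0 ht hjI
      apply C_mul' (he' J' hJ').1 hχ
      have hEJ : EE m J' = od (Finset.range m) := by
        rw [hJm, EE, Finset.sdiff_self]
        simp [ev]
      have hDJ : DD m J' ⊆ II z :=
        DD_subset (hJ'.trans (Finset.range_subset_range.2 (Nat.le_succ m))) hz
      intro x hx
      rw [Finset.mem_erase]
      rcases Finset.mem_union.1 hx with hx' | hx'
      · refine ⟨?_, hDJ (EE_subset_DD m J' hx')⟩
        intro hxj
        rw [hEJ] at hx'
        obtain ⟨l, hl, hlx⟩ := mem_od.1 hx'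
        rw [Finset.mem_range] at hl
        rw [← hxj, ← hlx] at hj
        rcases Finset.mem_union.1 hj with hj | hj
        · exact not_ev_of_odd hj
        · rw [mem_od_iff, Finset.mem_singleton] at hj
          omega
      · rw [Finset.mem_erase] at hx'
        exact ⟨hx'.1, hDm hx'.2⟩
  -- the symmetric function
  set G : (Σ _ : Finset ℕ, Finset ℕ) → k := fun p =>
    ∑ Φ, (w0 * W c z (Finset.range m \ (p.1 ∪ p.2)) * (e p.1 * e p.2)) Φ with hG
  set S : Finset (Σ _ : Finset ℕ, Finset ℕ) :=
    (Finset.range m).powerset.sigma (fun J' => (Finset.range m \ J').powerset) with hS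
  have hsum0 : ∑ p ∈ S, G p = 0 := by
    rw [hS, Finset.sum_sigma]
    apply Finset.sum_eq_zero
    intro J' hJ'
    rw [← hvan J' hJ']
    simp only [hG]
    rw [Finset.sum_comm]
    apply Finset.sum_congr rfl
    intro Φ _
    rw [YY, Finset.mul_sum, Finset.sum_apply]
    apply Finset.sum_congr rfl
    intro J hJ
    have : (Finset.range m \ J') \ J = Finset.range m \ (J' ∪ J) := by
      ext x
      simp only [Finset.mem_sdiff, Finset.mem_union]
      tauto
    rw [this]
    simp only [Pi.mul_apply]
    ring
  have hmemS : (⟨∅, ∅⟩ : Σ _ : Finset ℕ, Finset ℕ) ∈ S := by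
    simp [hS]
  have hinv : ∑ p ∈ S.erase ⟨∅, ∅⟩, G p = 0 := by
    refine Finset.sum_involution (fun p _ => ⟨p.2, p.1⟩) ?_ ?_ ?_ ?_
    · intro p hp
      have : G ⟨p.2, p.1⟩ = G p := by
        simp only [hG]
        rw [Finset.union_comm p.2 p.1, mul_comm (e p.2) (e p.1)]
      rw [this]
      exact CharTwo.add_self_eq_zero _
    · rintro ⟨a, b⟩ hp _ heq
      simp only [Sigma.mk.injEq, heq_eq_eq] at heq
      obtain ⟨rfl, _⟩ := heq
      simp only [hS, Finset.mem_erase, Finset.mem_sigma, Finset.mem_powerset] at hp
      obtain ⟨hne, _, hb⟩ := hp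
      apply hne
      have : b = ∅ := by
        rw [Finset.eq_empty_iff_forall_notMem]
        intro x hx
        exact (Finset.mem_sdiff.1 (hb hx)).2 hx
      rw [this]
    · rintro ⟨a, b⟩ hp
      simp only [hS, Finset.mem_erase, Finset.mem_sigma, Finset.mem_powerset] at hp ⊢
      obtain ⟨hne, ha, hb⟩ := hp
      refine ⟨?_, hb.trans Finset.sdiff_subset, ?_⟩
      · intro hh
        apply hne
        simp only [Sigma.mk.injEq, heq_eq_eq] at hh ⊢
        exact ⟨hh.2, hh.1⟩
      · intro x hx
        rw [Finset.mem_sdiff]
        exact ⟨ha hx, fun hxb => (Finset.mem_sdiff.1 (hb hxb)).2 hx⟩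
    · intro p hp
      rfl
  have hfin : G ⟨∅, ∅⟩ = 0 := by
    rw [← Finset.sum_erase_add _ _ hmemS, hinv, zero_add] at hsum0
    exact hsum0
  simp only [hG, he0, Finset.union_empty, Finset.sdiff_empty] at hfin
  rw [← hfin]
  apply Finset.sum_congr rfl
  intro Φ _
  simp only [Pi.mul_apply]
  have : W c z (Finset.range (m + 1)) = w0 * W c z (Finset.range m) := by
    rw [Finset.range_add_one, W_insert c z (by simp)]
  rw [this, Pi.mul_apply, sq]

end Pool.Agent.Lib.MP_5bb951_co
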