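import Pool.Agent.Lib.MP_5bb951_co.Core

set_option autoImplicit false
set_option linter.unusedSectionVars false
set_option linter.unusedVariables false

open Classical

namespace Pool.Agent.Lib.MP_5bb951_co

universe u v

variable {P : Type u} [PartialOrder P] [Fintype P] [BoundedOrder P] [GradeOrder ℕ P]
variable {k : Type v} [Field k]

theorem II_sdiff_od {z : P} {m : ℕ} (hz : rk z = 2 * m + 2) :
    II z \ od (Finset.range (m + 1)) = ev (Finset.range m) := by
  ext j
  simp only [II, Finset.mem_sdiff, Finset.mem_Ioo, mem_od, mem_ev, Finset.mem_range, hz]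
  constructor
  · rintro ⟨⟨h1, h2⟩, h3⟩
    refine ⟨j / 2 - 1, ?_⟩
    have : ¬ j % 2 = 1 := by
      intro hj
      apply h3
      refine ⟨j / 2, ?_, ?_⟩ <;> omega
    omega
  · rintro ⟨i, hi, rfl⟩
    refine ⟨by omega, ?_⟩
    rintro ⟨l, hl, hh⟩
    omega

theorem II_sdiff_DD {z : P} {m : ℕ} (hz : rk z = 2 * m + 2) (i : ℕ) :
    II z \ DD m {i} = (od (Finset.range (m + 1))).erase (2 * i + 1) := by
  ext j
  simp only [II, DD, Finset.mem_sdiff, Finset.mem_union, Finset.mem_erase, Finset.mem_Ioo, mem_od,
    mem_ev, Finset.mem_range, Finset.mem_singleton, exists_eq_left, hz]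
  constructor
  · rintro ⟨⟨h1, h2⟩, h3⟩
    push Not at h3
    refine ⟨fun hh => h3.2 hh.symm, j / 2, ?_, ?_⟩
    · omega
    · by_contra h4
      exact h3.1 (j / 2 - 1) (by omega) (by omega)
  · rintro ⟨h1, l, hl, rfl⟩
    refine ⟨by omega, ?_⟩
    rintro (⟨i', _, hh⟩ | hh)
    · omega
    · exact h1 hh.symm

theorem od_subset_II {z : P} {m : ℕ} (hz : rk z = 2 * m + 2) :
    od (Finset.range (m + 1)) ⊆ II z := by
  intro x hx
  obtain ⟨l, hl, rfl⟩ := mem_od.1 hx
  rw [Finset.mem_range] at hl
  simp only [II, Finset.mem_Ioo]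
  omega

theorem w_apply {z : P} (c : P → k) {j : ℕ} {Φ : Fl z} {x : P} (hx : x ∈ Φ.1) (hr : rk x = j) :
    w c z j Φ = c x := by
  rw [w]
  have : res {j} Φ.1 = {x} := by
    ext y
    simp only [mem_res, Finset.mem_singleton]
    constructor
    · rintro ⟨h1, h2⟩
      exact Φ.2.1.eq_of_rk h1 hx (by omega)
    · rintro rfl
      exact ⟨hx, hr⟩
  rw [this, Finset.prod_singleton]

theorem W_apply {z : P} (c : P → k) (L : Finset ℕ) {Φ : Fl z} :
    W c z L Φ = ∏ x ∈ res (od L) Φ.1, c x := by
  induction L using Finset.induction_on with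
  | empty => simp [W_empty, od, res]
  | insert i L hi ih =>
    rw [W_insert c z hi, Pi.mul_apply, ih, w]
    have : res (od (insert i L)) Φ.1 = res {2 * i + 1} Φ.1 ∪ res (od L) Φ.1 := by
      rw [← res_union_left, od, Finset.image_insert, Finset.insert_eq]
      rfl
    rw [this, Finset.prod_union]
    rw [Finset.disjoint_left]
    intro x hx hx'
    rw [mem_res, Finset.mem_singleton] at hx
    rw [mem_res, hx.2, mem_od_iff] at hx'
    exact hi hx'.2

theorem core_sum [CharP k 2] {z : P} {m : ℕ} (hz : rk z = 2 * m + 2) (h0 : rk (⊥ : P) = 0)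
    (ht : Thin P) (hreg : RegProp k z) (c : P → k) {f : Finset P → k} (hf : f ∈ ZZ k z)
    (hsupp : ∀ F, f F ≠ 0 → ty F = od (Finset.range (m + 1))) (hdd : dd c f = 0) :
    ∑ G : Finset P, (∏ x ∈ G, c x) * f G ^ 2 = 0 := by
  obtain ⟨q1, hq1⟩ := ZZ_le_range h0 ht hreg hf
  set q : Fl z → k := fun Φ => q1 (res (ev (Finset.range m)) Φ.1) with hq
  have hqC : q ∈ C k z (ev (Finset.range m)) := by
    intro Φ Ψ hr
    simp only [hq, hr]
  have hod := od_subset_II (m := m) hz
  -- value of f
  have hval : ∀ G : Finset P, ty G = od (Finset.range (m + 1)) →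
      f G = ∑ Φ ∈ Finset.univ.filter (fun Φ : Fl z => G ⊆ Φ.1), q Φ := by
    intro G hG
    rw [← hq1, nu_apply]
    apply Finset.sum_congr rfl
    intro Φ hΦ
    simp only [Finset.mem_filter, Finset.mem_univ, true_and] at hΦ
    simp only [hq]
    rw [Φ.2.1.sdiff_eq_res hΦ, hG, II_sdiff_od hz]
  have hcl : ∀ i ∈ Finset.range (m + 1), w c z (2 * i + 1) * q ∈
      ⨆ j ∈ DD m {i}, C k z ((DD m {i}).erase j) := by
    intro i hi
    have hDI : DD m {i} ⊆ II z := DD_subset (by simpa using hi) hz
    apply dual_flag h0 ht hreg hDI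
    · apply C_mul' (w_mem c z _) hqC
      intro x hx
      rcases Finset.mem_union.1 hx with hx | hx
      · rw [Finset.mem_singleton] at hx
        subst hx
        exact Finset.mem_union_right _ (mem_od_iff.2 (Finset.mem_singleton_self i))
      · exact Finset.mem_union_left _ hx
    · intro Ψ
      set G := res (II z \ DD m {i}) Ψ.1 with hG
      have hGch : IsCh z G := Ψ.2.1.mono (res_subset _ _)
      have hGty : ty G = (od (Finset.range (m + 1))).erase (2 * i + 1) := by
        rw [hG, Ψ.2.ty_res Finset.sdiff_subset, II_sdiff_DD hz]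
      have hiod : 2 * i + 1 ∈ od (Finset.range (m + 1)) := mem_od_iff.2 hi
      have h1 : dd c f G = 0 := by rw [hdd]; rfl
      rw [dd_apply] at h1
      have h2 : ∀ x ∈ Finset.univ.filter (fun x : P => x ∉ G), c x * f (insert x G) =
          ∑ Φ ∈ Finset.univ.filter (fun Φ : Fl z => G ⊆ Φ.1),
            if x ∈ Φ.1 ∧ rk x = 2 * i + 1 then c x * q Φ else 0 := by
        intro x hx
        by_cases hxr : rk x = 2 * i + 1
        · have hty : ty (insert x G) = od (Finset.range (m + 1)) := by
            rw [ty_insert, hxr, hGty, Finset.insert_erase hiod]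
          rw [hval _ hty, Finset.mul_sum, ← Finset.sum_filter, Finset.filter_filter]
          apply Finset.sum_congr
          · ext Φ
            simp only [Finset.mem_filter, Finset.mem_univ, true_and, Finset.insert_subset_iff]
            tauto
          · intro _ _
            rfl
        · have : f (insert x G) = 0 := by
            by_contra hne
            have := hsupp _ hne
            have hmem : rk x ∈ ty (insert x G) := mem_ty.2 ⟨x, Finset.mem_insert_self _ _, rfl⟩
            rw [this] at hmem
            have hmem' : rk x ∈ ty G := by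
              rw [hGty, Finset.mem_erase]
              exact ⟨hxr, hmem⟩
            have hmem2 : 2 * i + 1 ∈ ty (insert x G) := by rw [this]; exact hiod
            rw [ty_insert, Finset.mem_insert, hGty] at hmem2
            rcases hmem2 with hh | hh
            · exact hxr hh.symm
            · exact (Finset.notMem_erase _ _ hh)
          rw [this, mul_zero]
          symm
          apply Finset.sum_eq_zero
          intro Φ _
          rw [if_neg (fun hh => hxr hh.2)]
      rw [Finset.sum_congr rfl h2, Finset.sum_comm] at h1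
      rw [← h1]
      have hset : ∀ Φ : Fl z, (res (II z \ DD m {i}) Φ.1 = G ↔ G ⊆ Φ.1) := by
        intro Φ
        constructor
        · intro hh
          rw [← hh]
          exact res_subset _ _
        · intro hh
          have := Φ.2.1.eq_res hh
          rw [hG, Ψ.2.ty_res Finset.sdiff_subset] at this
          exact this.symm
      simp only [hset]
      apply Finset.sum_congr rfl
      intro Φ hΦ
      simp only [Finset.mem_filter, Finset.mem_univ, true_and] at hΦ
      obtain ⟨x, hx, hxr, huniq⟩ := Φ.2.filter_rk (hod hiod)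
      rw [Finset.sum_eq_single x]
      · rw [if_pos ⟨hx, hxr⟩, Pi.mul_apply, w_apply c hx hxr]
      · intro y hy hyx
        rw [if_neg]
        rintro ⟨g1, g2⟩
        exact hyx (huniq y g1 g2)
      · intro hx'
        exfalso
        apply hx'
        simp only [Finset.mem_filter, Finset.mem_univ, true_and]
        intro hxG
        have : rk x ∈ ty G := mem_ty.2 ⟨x, hxG, rfl⟩
        rw [hGty, hxr] at this
        exact Finset.notMem_erase _ _ this
  have hid := core_id hz h0 ht hreg c q hqC hcl
  rw [← hid]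
  have h3 : ∀ G : Finset P, (∏ x ∈ G, c x) * f G ^ 2 =
      ∑ Φ ∈ Finset.univ.filter (fun Φ : Fl z => res (od (Finset.range (m + 1))) Φ.1 = G),
        W c z (Finset.range (m + 1)) Φ * q Φ ^ 2 := by
    intro G
    by_cases hG : ty G = od (Finset.range (m + 1))
    · rw [hval G hG, CharTwo.sum_sq, Finset.mul_sum]
      apply Finset.sum_congr
      · ext Φ
        simp only [Finset.mem_filter, Finset.mem_univ, true_and]
        constructor
        · intro hh
          rw [← hG]
          exact (Φ.2.1.eq_res hh).symm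
        · intro hh
          rw [← hh]
          exact res_subset _ _
      · intro Φ hΦ
        simp only [Finset.mem_filter, Finset.mem_univ, true_and] at hΦ
        rw [W_apply, hΦ]
    · have hf0 : f G = 0 := by
        by_contra hne
        exact hG (hsupp G hne)
      rw [hf0]
      symm
      rw [Finset.filter_eq_empty_iff.2, Finset.sum_empty]
      · ring
      · intro Φ _ hh
        apply hG
        rw [← hh]
        exact Φ.2.ty_res hod
  rw [Finset.sum_congr rfl (fun G _ => h3 G), Finset.sum_fiberwise]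

/-- The exponent of a squarefree monomial. -/
noncomputable def mon (G : Finset P) : P →₀ ℕ := ∑ x ∈ G, Finsupp.single x 1

theorem mon_apply (G : Finset P) (x : P) : mon G x = if x ∈ G then 1 else 0 := by
  rw [mon, Finsupp.finsetSum_apply]
  simp only [Finsupp.single_apply]
  rw [Finset.sum_ite_eq']

theorem prod_X_eq {R : Type*} [CommSemiring R] (G : Finset P) :
    ∏ x ∈ G, (MvPolynomial.X x : MvPolynomial P R) = MvPolynomial.monomial (mon G) 1 := by
  rw [mon, MvPolynomial.monomial_sum_one]
  rfl

theorem sq_indep (p : Finset P → MvPolynomial P (ZMod 2))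
    (h : ∑ G : Finset P, (∏ x ∈ G, (MvPolynomial.X x : MvPolynomial P (ZMod 2))) * p G ^ 2 = 0)
    (G₀ : Finset P) : p G₀ = 0 := by
  have : Fact (Nat.Prime 2) := ⟨Nat.prime_two⟩
  ext e
  rw [MvPolynomial.coeff_zero]
  have h1 := congrArg (MvPolynomial.coeff (mon G₀ + 2 • e)) h
  rw [MvPolynomial.coeff_sum, MvPolynomial.coeff_zero, Finset.sum_eq_single G₀] at h1
  · rw [prod_X_eq, ← MvPolynomial.expand_zmod, MvPolynomial.coeff_monomial_mul, one_mul,
      MvPolynomial.coeff_expand_smul 2 two_ne_zero] at h1
    exact h1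
  · intro G _ hG
    rw [prod_X_eq, ← MvPolynomial.expand_zmod, MvPolynomial.coeff_monomial_mul']
    split_ifs with hle
    · rw [one_mul]
      have hex : ∃ x, ¬ (x ∈ G ↔ x ∈ G₀) := by
        by_contra hh
        push Not at hh
        exact hG (Finset.ext hh)
      obtain ⟨x, hx⟩ := hex
      apply MvPolynomial.coeff_expand_of_not_dvd (i := x)
      have hlex := hle x
      simp only [Finsupp.coe_tsub, Finsupp.coe_add, Finsupp.coe_smul, Pi.sub_apply, Pi.add_apply,
        Pi.smul_apply, smul_eq_mul, mon_apply] at hlex ⊢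
      by_cases h2 : x ∈ G
      · have h3 : x ∉ G₀ := fun h3 => hx ⟨fun _ => h3, fun _ => h2⟩
        rw [if_pos h2, if_neg h3] at hlex ⊢
        omega
      · have h3 : x ∈ G₀ := by
          by_contra h3
          exact hx ⟨fun h4 => absurd h4 h2, fun h4 => absurd h4 h3⟩
        rw [if_neg h2, if_pos h3] at hlex ⊢
        omega
    · rfl
  · intro hh
    exact absurd (Finset.mem_univ _) hh

theorem sq_indep_frac (a : Finset P → FractionRing (MvPolynomial P (ZMod 2)))
    (h : ∑ G : Finset P, (∏ x ∈ G, algebraMap (MvPolynomial P (ZMod 2))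
      (FractionRing (MvPolynomial P (ZMod 2))) (MvPolynomial.X x)) * a G ^ 2 = 0)
    (G₀ : Finset P) : a G₀ = 0 := by
  have : Fact (Nat.Prime 2) := ⟨Nat.prime_two⟩
  obtain ⟨b, hb⟩ := IsLocalization.exist_integer_multiples
    (nonZeroDivisors (MvPolynomial P (ZMod 2))) (Finset.univ : Finset (Finset P)) a
  have hb' : ∀ G : Finset P, ∃ p : MvPolynomial P (ZMod 2),
      algebraMap _ (FractionRing (MvPolynomial P (ZMod 2))) p =
      (b : MvPolynomial P (ZMod 2)) • a G := fun G => hb G (Finset.mem_univ _)
  choose p hp using hb'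
  have hb0 : algebraMap _ (FractionRing (MvPolynomial P (ZMod 2)))
      (b : MvPolynomial P (ZMod 2)) ≠ 0 := by
    intro hh
    have := (IsFractionRing.injective (MvPolynomial P (ZMod 2))
      (FractionRing (MvPolynomial P (ZMod 2)))) (hh.trans (map_zero _).symm)
    exact nonZeroDivisors.coe_ne_zero b this
  have h1 : ∑ G : Finset P, (∏ x ∈ G, (MvPolynomial.X x : MvPolynomial P (ZMod 2))) * p G ^ 2
      = 0 := by
    apply IsFractionRing.injective (MvPolynomial P (ZMod 2))
      (FractionRing (MvPolynomial P (ZMod 2)))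
    rw [map_zero, map_sum]
    have : ∀ G : Finset P, algebraMap _ (FractionRing (MvPolynomial P (ZMod 2)))
        ((∏ x ∈ G, (MvPolynomial.X x : MvPolynomial P (ZMod 2))) * p G ^ 2) =
        (algebraMap _ (FractionRing (MvPolynomial P (ZMod 2)))
          (b : MvPolynomial P (ZMod 2))) ^ 2 * ((∏ x ∈ G, algebraMap (MvPolynomial P (ZMod 2))
      (FractionRing (MvPolynomial P (ZMod 2))) (MvPolynomial.X x)) * a G ^ 2) := by
      intro G
      rw [map_mul, map_pow, hp, map_prod, Algebra.smul_def]
      ring
    rw [Finset.sum_congr rfl (fun G _ => this G), ← Finset.mul_sum, h, mul_zero]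
  have h2 := sq_indep p h1 G₀
  have h3 := hp G₀
  rw [h2, map_zero, Algebra.smul_def] at h3
  rcases mul_eq_zero.1 h3.symm with h4 | h4
  · exact absurd h4 hb0
  · exact h4

theorem core_zero [Algebra (ZMod 2) k] {z : P} {m : ℕ} (hz : rk z = 2 * m + 2)
    (h0 : rk (⊥ : P) = 0) (ht : Thin P) (hreg : RegProp k z) (c : P → k)
    (hc : AlgebraicIndependent (ZMod 2) c) {f : Finset P → k} (hf : f ∈ ZZ k z)
    (hsupp : ∀ F, f F ≠ 0 → ty F = od (Finset.range (m + 1))) (hdd : dd c f = 0) : f = 0 := by
  have : Fact (Nat.Prime 2) := ⟨Nat.prime_two⟩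
  have : CharP k 2 := charP_of_injective_algebraMap (algebraMap (ZMod 2) k).injective 2
  have hinj : Function.Injective ((MvPolynomial.aeval c : MvPolynomial P (ZMod 2) →ₐ[ZMod 2] k) :
      MvPolynomial P (ZMod 2) →+* k) := hc
  set φ : FractionRing (MvPolynomial P (ZMod 2)) →+* k := IsFractionRing.lift hinj with hφ
  have hφX : ∀ x : P, φ (algebraMap (MvPolynomial P (ZMod 2))
      (FractionRing (MvPolynomial P (ZMod 2))) (MvPolynomial.X x)) = c x := by
    intro x
    rw [hφ, IsFractionRing.lift_algebraMap]
    simp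
  let _ : Algebra (FractionRing (MvPolynomial P (ZMod 2))) k := φ.toAlgebra
  have hsm : ∀ (a : FractionRing (MvPolynomial P (ZMod 2))) (b : k), a • b = φ a * b := by
    intro a b
    rfl
  ext F
  rw [Pi.zero_apply, ← Module.forall_dual_apply_eq_zero_iff
    (FractionRing (MvPolynomial P (ZMod 2)))]
  intro τ
  set g : Finset P → k := fun G => φ (τ (f G)) with hg
  have hgZ : g ∈ ZZ k z := by
    refine ⟨?_, ?_⟩
    · intro G hG
      simp only [hg]
      rw [hf.1 G hG, map_zero, map_zero]
    · intro G s hs
      simp only [hg]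
      rw [← map_sum, ← map_sum, hf.2 G s hs, map_zero, map_zero]
  have hgs : ∀ F, g F ≠ 0 → ty F = od (Finset.range (m + 1)) := by
    intro G hG
    apply hsupp
    intro hh
    apply hG
    simp only [hg]
    rw [hh, map_zero, map_zero]
  have hgd : dd c g = 0 := by
    ext G
    rw [dd_apply]
    simp only [hg]
    have h1 : dd c f G = 0 := by rw [hdd]; rfl
    rw [dd_apply] at h1
    have h2 : ∀ x ∈ Finset.univ.filter (fun x : P => x ∉ G), c x * φ (τ (f (insert x G))) =
        φ (τ (c x * f (insert x G))) := by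
      intro x _
      rw [← hφX x, ← hsm _ (f (insert x G)), map_smul, smul_eq_mul, map_mul]
    rw [Finset.sum_congr rfl h2, ← map_sum, ← map_sum, h1, map_zero, map_zero]
    rfl
  have hsum := core_sum hz h0 ht hreg c hgZ hgs hgd
  have hsum' : ∑ G : Finset P, (∏ x ∈ G, algebraMap (MvPolynomial P (ZMod 2))
      (FractionRing (MvPolynomial P (ZMod 2))) (MvPolynomial.X x)) * (τ (f G)) ^ 2 = 0 := by
    apply φ.injective
    rw [map_zero, map_sum, ← hsum]
    apply Finset.sum_congr rfl
    intro G _
    rw [map_mul, map_pow, map_prod]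
    simp only [hφX, hg]
  exact sq_indep_frac (fun G => τ (f G)) hsum' F

end Pool.Agent.Lib.MP_5bb951_co
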