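import Pool.Agent.Lib.MP_5bb951_co.Link

set_option autoImplicit false
set_option linter.unusedSectionVars false
set_option linter.unusedVariables false

open Classical

namespace Pool.Agent.Lib.MP_5bb951_co

universe u v

variable {P : Type u} [PartialOrder P] [Fintype P] [BoundedOrder P] [GradeOrder ℕ P]
variable {k : Type v} [Field k]

/-- The link part of `f` at `y`. -/
noncomputable def lk (y : P) (f : Finset P → k) : Finset P → k :=
  fun F => if y ∈ F then 0 else f (insert y F)

/-- Joining with `y`. -/
noncomputable def jn (y : P) (f : Finset P → k) : Finset P → k :=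
  fun F => if y ∈ F then f (F.erase y) else 0

/-- Truncation to sets avoiding the ranks in `T`. -/
noncomputable def tv (T : ℕ → Prop) (f : Finset P → k) : Finset P → k :=
  fun F => if ∀ x ∈ F, ¬ T (rk x) then f F else 0

theorem Av_tv (T : ℕ → Prop) (f : Finset P → k) : Av T (tv T f) := by
  intro F x hx hT
  simp only [tv]
  rw [if_neg]
  intro hh
  exact hh x hx hT

theorem Lk.tv {y : P} {f : Finset P → k} (hf : Lk y f) (T : ℕ → Prop) : Lk y (tv T f) := by
  intro F x hx hT
  simp only [MP_5bb951_co.tv]
  rw [hf F x hx hT, ite_self]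

theorem tv_mem {z : P} {f : Finset P → k} (hf : f ∈ ZZ k z) (T : ℕ → Prop) :
    tv T f ∈ ZZ k z := by
  refine ⟨?_, ?_⟩
  · intro F hF
    simp only [tv]
    rw [hf.1 F hF, ite_self]
  · intro F s hs
    simp only [tv]
    by_cases hc : (∀ x ∈ F, ¬ T (rk x)) ∧ ¬ T s
    · rw [← hf.2 F s hs]
      apply Finset.sum_congr rfl
      intro x hx
      simp only [Finset.mem_filter, Finset.mem_univ, true_and] at hx
      rw [if_pos]
      intro w hw
      rcases Finset.mem_insert.1 hw with rfl | hw
      · rw [hx]
        exact hc.2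
      · exact hc.1 w hw
    · apply Finset.sum_eq_zero
      intro x hx
      simp only [Finset.mem_filter, Finset.mem_univ, true_and] at hx
      rw [if_neg]
      intro hh
      apply hc
      refine ⟨fun w hw => hh w (Finset.mem_insert_of_mem hw), ?_⟩
      rw [← hx]
      exact hh x (Finset.mem_insert_self _ _)

theorem lk_mem {z : P} {f : Finset P → k} (hf : f ∈ ZZ k z) (y : P) : lk y f ∈ ZZ k z := by
  refine ⟨?_, ?_⟩
  · intro F hF
    simp only [lk]
    split_ifs
    · rfl
    · apply hf.1
      intro hc
      exact hF (hc.mono (Finset.subset_insert _ _))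
  · intro F s hs
    simp only [lk]
    by_cases hy : y ∈ F
    · apply Finset.sum_eq_zero
      intro x _
      rw [if_pos (Finset.mem_insert_of_mem hy)]
    · by_cases hsy : s = rk y
      · apply Finset.sum_eq_zero
        intro x hx
        simp only [Finset.mem_filter, Finset.mem_univ, true_and] at hx
        split_ifs with h1
        · rfl
        · apply hf.1
          intro hc
          have hxy : x ≠ y := by
            rintro rfl
            exact h1 (Finset.mem_insert_self _ _)
          exact hxy (hc.eq_of_rk (Finset.mem_insert_of_mem (Finset.mem_insert_self _ _))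
            (Finset.mem_insert_self _ _) (by omega))
      · have hs' : s ∉ ty (insert y F) := by
          rw [ty_insert, Finset.mem_insert, not_or]
          exact ⟨hsy, hs⟩
        rw [← hf.2 (insert y F) s hs']
        apply Finset.sum_congr rfl
        intro x hx
        simp only [Finset.mem_filter, Finset.mem_univ, true_and] at hx
        rw [if_neg, Finset.insert_comm]
        rw [Finset.mem_insert, not_or]
        refine ⟨?_, hy⟩
        rintro rfl
        exact hsy hx.symm

theorem Lk_lk {z : P} {f : Finset P → k} (hf : f ∈ ZZ k z) (y : P) : Lk y (lk y f) := by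
  intro F x hx hn
  simp only [lk]
  split_ifs with h1
  · rfl
  · apply hf.1
    intro hc
    apply hn
    have hxy : x ≠ y := by
      rintro rfl
      exact h1 hx
    rcases hc.2 x (Finset.mem_insert_of_mem hx) y (Finset.mem_insert_self _ _) with h2 | h2
    · exact Or.inl (lt_of_le_of_ne h2 hxy)
    · exact Or.inr (lt_of_le_of_ne h2 hxy.symm)

theorem Av_lk {T : ℕ → Prop} {f : Finset P → k} (hf : Av T f) (y : P) : Av T (lk y f) := by
  intro F x hx hT
  simp only [lk]
  split_ifs with h1
  · rfl
  · exact hf _ x (Finset.mem_insert_of_mem hx) hT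

theorem Ge_lk {N : ℕ} {f : Finset P → k} (hf : Ge (N + 1) f) (y : P) : Ge N (lk y f) := by
  intro F hF
  simp only [lk]
  split_ifs with h1
  · rfl
  · apply hf
    rw [Finset.card_insert_of_notMem h1]
    omega

theorem dd_lk (c : P → k) (y : P) (f : Finset P → k) : dd c (lk y f) = lk y (dd c f) := by
  ext F
  simp only [lk]
  by_cases hy : y ∈ F
  · rw [if_pos hy, dd_apply]
    apply Finset.sum_eq_zero
    intro x _
    simp only [lk]
    rw [if_pos (Finset.mem_insert_of_mem hy), mul_zero]
  · rw [if_neg hy, dd_apply, dd_apply]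
    symm
    rw [← Finset.sum_subset (s₁ := Finset.univ.filter (fun x : P => x ∉ insert y F))
      (s₂ := Finset.univ.filter (fun x : P => x ∉ F))]
    · apply Finset.sum_congr rfl
      intro x hx
      simp only [Finset.mem_filter, Finset.mem_univ, true_and, Finset.mem_insert, not_or] at hx
      simp only [lk]
      rw [if_neg, Finset.insert_comm]
      rw [Finset.mem_insert, not_or]
      exact ⟨fun hh => hx.1 hh.symm, hy⟩
    · intro x hx
      simp only [Finset.mem_filter, Finset.mem_univ, true_and, Finset.mem_insert, not_or] at hx ⊢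
      exact hx.2
    · intro x hx hx2
      simp only [Finset.mem_filter, Finset.mem_univ, true_and, Finset.mem_insert] at hx hx2
      have : x = y := by tauto
      subst this
      simp only [lk]
      rw [if_pos (Finset.mem_insert_self _ _), mul_zero]

theorem dd_jn {c : P → k} {y : P} {f : Finset P → k} (hf : Lk y f) :
    dd c (jn y f) = jn y (dd c f) + c y • f := by
  ext F
  rw [Pi.add_apply, Pi.smul_apply, smul_eq_mul]
  by_cases hy : y ∈ F
  · have h1 : f F = 0 := hf F y hy (by simp)
    rw [h1, mul_zero, add_zero]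
    simp only [jn]
    rw [if_pos hy, dd_apply, dd_apply]
    apply Finset.sum_subset_zero_on_sdiff
    · intro x hx
      simp only [Finset.mem_filter, Finset.mem_univ, true_and, Finset.mem_erase, not_and] at hx ⊢
      exact fun _ => hx
    · intro x hx
      simp only [Finset.mem_sdiff, Finset.mem_filter, Finset.mem_univ, true_and,
        Finset.mem_erase, not_and, not_not] at hx
      have hxy : x = y := by
        by_contra hne
        exact hx.1 hne hx.2
      subst hxy
      rw [hf _ x (Finset.mem_insert_self _ _) (by simp), mul_zero]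
    · intro x hx
      simp only [Finset.mem_filter, Finset.mem_univ, true_and] at hx
      simp only [jn]
      rw [if_pos (Finset.mem_insert_of_mem hy), Finset.erase_insert_of_ne]
      rintro rfl
      exact hx hy
  · simp only [jn]
    rw [if_neg hy, zero_add, dd_apply, Finset.sum_eq_single y]
    · simp only [jn]
      rw [if_pos (Finset.mem_insert_self _ _), Finset.erase_insert hy]
    · intro x hx hxy
      simp only [jn]
      rw [if_neg, mul_zero]
      rw [Finset.mem_insert, not_or]
      exact ⟨fun hh => hxy hh.symm, hy⟩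
    · intro hh
      exfalso
      apply hh
      simp [hy]

theorem Av_jn {T : ℕ → Prop} {f : Finset P → k} (hf : Av T f) {y : P} (hy : ¬ T (rk y)) :
    Av T (jn y f) := by
  intro F x hx hT
  simp only [jn]
  split_ifs with h1
  · apply hf _ x _ hT
    rw [Finset.mem_erase]
    refine ⟨?_, hx⟩
    rintro rfl
    exact hy hT
  · rfl

theorem Ge_jn {N : ℕ} {f : Finset P → k} (hf : Ge N f) (y : P) : Ge (N + 1) (jn y f) := by
  intro F hF
  simp only [jn]
  split_ifs with h1
  · apply hf
    rw [Finset.card_erase_of_mem h1]
    have := Finset.card_pos.2 ⟨y, h1⟩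
    omega
  · rfl

theorem jn_lk {y : P} {f : Finset P → k} {F : Finset P} (hy : y ∈ F) :
    jn y (lk y f) F = f F := by
  simp only [jn, lk]
  rw [if_pos hy, if_neg (Finset.notMem_erase _ _), Finset.insert_erase hy]

/-- The elements of rank `t` below `z`. -/
noncomputable def St (z : P) (t : ℕ) : Finset P :=
  Finset.univ.filter (fun y : P => rk y = t ∧ y < z)

theorem mem_St {z : P} {t : ℕ} {y : P} : y ∈ St z t ↔ rk y = t ∧ y < z := by simp [St]

theorem sum_jn_mem {z : P} {t : ℕ} (h0 : rk (⊥ : P) = 0) (ht0 : 0 < t)
    {f : P → Finset P → k} (hf : ∀ y ∈ St z t, f y ∈ ZZ k z) (hL : ∀ y ∈ St z t, Lk y (f y))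
    (hs : ∑ y ∈ St z t, f y = 0) : ∑ y ∈ St z t, jn y (f y) ∈ ZZ k z := by
  refine ⟨?_, ?_⟩
  · intro F hF
    rw [Finset.sum_apply]
    apply Finset.sum_eq_zero
    intro y hy
    simp only [jn]
    split_ifs with h1
    · by_contra hne
      apply hF
      have hch : IsCh z (F.erase y) := by
        by_contra hc
        exact hne ((hf y hy).1 _ hc)
      have hcmp : ∀ x ∈ F.erase y, x < y ∨ y < x := by
        intro x hx
        by_contra hc
        exact hne (hL y hy _ x hx hc)
      have hyz := (mem_St.1 hy).2
      have hyb : ⊥ < y := by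
        rw [bot_lt_iff_ne_bot]
        rintro rfl
        have := (mem_St.1 hy).1
        omega
      refine ⟨?_, ?_⟩
      · intro x hx
        by_cases hxy : x = y
        · rw [hxy]
          exact ⟨hyb, hyz⟩
        · exact hch.1 x (Finset.mem_erase.2 ⟨hxy, hx⟩)
      · intro x hx w hw
        by_cases hxy : x = y
        · by_cases hwy : w = y
          · left
            rw [hxy, hwy]
          · rw [hxy]
            rcases hcmp w (Finset.mem_erase.2 ⟨hwy, hw⟩) with h2 | h2
            · exact Or.inr h2.le
            · exact Or.inl h2.le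
        · by_cases hwy : w = y
          · rw [hwy]
            rcases hcmp x (Finset.mem_erase.2 ⟨hxy, hx⟩) with h2 | h2
            · exact Or.inl h2.le
            · exact Or.inr h2.le
          · exact hch.2 x (Finset.mem_erase.2 ⟨hxy, hx⟩) w (Finset.mem_erase.2 ⟨hwy, hw⟩)
    · rfl
  · intro F s hsF
    simp only [Finset.sum_apply]
    rw [Finset.sum_comm]
    by_cases hst : s = t
    · have h1 : ∀ y ∈ St z t, ∑ x ∈ Finset.univ.filter (fun x : P => rk x = s),
          jn y (f y) (insert x F) = f y F := by
        intro y hy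
        have hyt := (mem_St.1 hy).1
        have hyF : y ∉ F := fun hh => hsF (mem_ty.2 ⟨y, hh, by omega⟩)
        rw [Finset.sum_eq_single y]
        · simp only [jn]
          rw [if_pos (Finset.mem_insert_self _ _), Finset.erase_insert hyF]
        · intro x hx hxy
          simp only [jn]
          rw [if_neg]
          rw [Finset.mem_insert, not_or]
          exact ⟨fun hh => hxy hh.symm, hyF⟩
        · intro hh
          exfalso
          apply hh
          simp only [Finset.mem_filter, Finset.mem_univ, true_and]
          omega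
      rw [Finset.sum_congr rfl h1, ← Finset.sum_apply, hs]
      rfl
    · apply Finset.sum_eq_zero
      intro y hy
      have hyt := (mem_St.1 hy).1
      by_cases hyF : y ∈ F
      · have hs' : s ∉ ty (F.erase y) := fun hh => hsF (ty_mono (Finset.erase_subset _ _) hh)
        rw [← (hf y hy).2 (F.erase y) s hs']
        apply Finset.sum_congr rfl
        intro x hx
        simp only [Finset.mem_filter, Finset.mem_univ, true_and] at hx
        simp only [jn]
        rw [if_pos (Finset.mem_insert_of_mem hyF), Finset.erase_insert_of_ne]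
        rintro rfl
        omega
      · apply Finset.sum_eq_zero
        intro x hx
        simp only [Finset.mem_filter, Finset.mem_univ, true_and] at hx
        simp only [jn]
        rw [if_neg]
        rw [Finset.mem_insert, not_or]
        refine ⟨?_, hyF⟩
        rintro rfl
        omega

/-- Splitting an element avoiding rank `t` along the elements of rank `t`. -/
theorem exists_split [CharP k 2] {z : P} (h0 : rk (⊥ : P) = 0) (ht : Thin P)
    (hreg : RegProp k z) {t : ℕ} (htI : t ∈ II z) {T : ℕ → Prop} {g : Finset P → k}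
    (hg : g ∈ ZZ k z) (hA : Av (fun s => s = t ∨ T s) g) :
    ∃ s : P → Finset P → k, (∀ y ∈ St z t, s y ∈ ZZ k z ∧ Lk y (s y) ∧ Av T (s y)) ∧
      ∑ y ∈ St z t, s y = g := by
  obtain ⟨q, hq⟩ := ZZ_le_range h0 ht hreg hg
  set qy : P → Finset P → k := fun y G => if y ∈ G then q G else 0 with hqy
  have hLk : ∀ y, Lk y (nu z (qy y)) := by
    intro y F x hx hn
    rw [nu_apply]
    apply Finset.sum_eq_zero
    intro Φ hΦ
    simp only [Finset.mem_filter, Finset.mem_univ, true_and] at hΦ
    simp only [hqy]
    rw [if_neg]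
    intro hy
    rw [Finset.mem_sdiff] at hy
    apply hn
    have hxy : x ≠ y := by
      rintro rfl
      exact hy.2 hx
    rcases Φ.2.1.2 x (hΦ hx) y hy.1 with h2 | h2
    · exact Or.inl (lt_of_le_of_ne h2 hxy)
    · exact Or.inr (lt_of_le_of_ne h2 hxy.symm)
  refine ⟨fun y => tv T (nu z (qy y)), ?_, ?_⟩
  · intro y hy
    exact ⟨tv_mem (nu_mem h0 ht _) T, (hLk y).tv T, Av_tv T _⟩
  · ext F
    rw [Finset.sum_apply]
    by_cases hF : ∃ x ∈ F, rk x = t ∨ T (rk x)
    · obtain ⟨x, hx, hxT⟩ := hF
      rw [hA F x hx hxT]
      apply Finset.sum_eq_zero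
      intro y hy
      rcases hxT with h1 | h1
      · apply (hLk y).tv T F x hx
        rintro (h2 | h2)
        · have := rk_lt h2
          have := (mem_St.1 hy).1
          omega
        · have := rk_lt h2
          have := (mem_St.1 hy).1
          omega
      · exact Av_tv T _ F x hx h1
    · push Not at hF
      have h1 : ∀ y ∈ St z t, tv T (nu z (qy y)) F = nu z (qy y) F := by
        intro y hy
        simp only [tv]
        rw [if_pos (fun x hx => (hF x hx).2)]
      rw [Finset.sum_congr rfl h1, ← hq]
      simp only [nu_apply]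
      rw [Finset.sum_comm]
      apply Finset.sum_congr rfl
      intro Φ hΦ
      obtain ⟨y, hy, hyr, huniq⟩ := Φ.2.filter_rk htI
      rw [Finset.sum_eq_single y]
      · simp only [hqy]
        rw [if_pos]
        rw [Finset.mem_sdiff]
        exact ⟨hy, fun hh => (hF y hh).1 hyr⟩
      · intro w hw hwy
        simp only [hqy]
        rw [if_neg]
        intro hh
        rw [Finset.mem_sdiff] at hh
        exact hwy (huniq w hh.1 (mem_St.1 hw).1)
      · intro hh
        exfalso
        apply hh
        rw [mem_St]
        exact ⟨hyr, (Φ.2.1.1 y hy).2⟩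

theorem add_self_fun [CharP k 2] (f : Finset P → k) : f + f = 0 := by
  ext F
  exact CharTwo.add_self_eq_zero _

/-- The descent step. -/
theorem PP.step [CharP k 2] {c : P → k} {z : P} {N t : ℕ} {T : ℕ → Prop}
    (h0 : rk (⊥ : P) = 0) (ht : Thin P) (hreg : RegProp k z)
    (hTt : ∀ s, T s → t < s) (ht0 : 0 < t)
    (hEx : ∀ y, y < z → rk y = t → Ex c y ∧ RegProp k y)
    (hP : PP c z (N + 1) (fun s => s = t ∨ T s)) : PP c z (N + 1) T := by
  intro f hf hA hG hdd
  by_cases htI : t ∈ II z
  · have h1 : ∀ y ∈ St z t, ∃ g : Finset P → k, g ∈ ZZ k z ∧ Lk y g ∧ Av T g ∧ Ge (N + 1) g ∧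
        dd c g = lk y f := by
      intro y hy
      obtain ⟨hyt, hyz⟩ := mem_St.1 hy
      obtain ⟨hE, hR⟩ := hEx y hyz hyt
      obtain ⟨g, g1, g2, g3, g4⟩ := hE.link hyz h0 ht hR (T := T)
        (fun s hs => by rw [hyt]; exact hTt s hs) (lk_mem hf y) (Lk_lk hf y) (Av_lk hA y)
        (by
          rw [dd_lk, hdd]
          ext F
          simp [lk])
      refine ⟨tr (N + 1) g, tr_mem g1, g2.tr _, g3.tr _, Ge_tr _ _, ?_⟩
      rw [dd_tr, g4, tr_of_Ge (Ge_lk hG y)]
    choose! g1 g1Z g1L g1A g1G g1d using h1
    -- the sum of the primitives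
    have hAvt : ∀ y ∈ St z t, ∀ u : Finset P → k, Lk y u → Av T u →
        Av (fun s => s = t ∨ T s) u := by
      intro y hy u hu1 hu2 F x hx hxT
      rcases hxT with h2 | h2
      · apply hu1 F x hx
        rintro (h3 | h3)
        · have := rk_lt h3
          have := (mem_St.1 hy).1
          omega
        · have := rk_lt h3
          have := (mem_St.1 hy).1
          omega
      · exact hu2 F x hx h2
    have hsumlk : ∑ y ∈ St z t, lk y f = 0 := by
      ext F
      rw [Finset.sum_apply, Pi.zero_apply]
      by_cases htF : t ∈ ty F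
      · apply Finset.sum_eq_zero
        intro y hy
        obtain ⟨x, hx, hxt⟩ := mem_ty.1 htF
        apply Lk_lk hf y F x hx
        rintro (h3 | h3)
        · have := rk_lt h3
          have := (mem_St.1 hy).1
          omega
        · have := rk_lt h3
          have := (mem_St.1 hy).1
          omega
      · have h4 := hf.2 F t htF
        rw [← h4]
        apply Finset.sum_subset_zero_on_sdiff
        · intro y hy
          simp only [Finset.mem_filter, Finset.mem_univ, true_and]
          exact (mem_St.1 hy).1
        · intro y hy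
          rw [Finset.mem_sdiff, mem_St] at hy
          simp only [Finset.mem_filter, Finset.mem_univ, true_and] at hy
          apply hf.1
          intro hc
          exact hy.2 ⟨hy.1, (hc.1 y (Finset.mem_insert_self _ _)).2⟩
        · intro y hy
          simp only [lk]
          rw [if_neg]
          intro hyF
          exact htF (mem_ty.2 ⟨y, hyF, (mem_St.1 hy).1⟩)
    obtain ⟨g', g'Z, g'A, g'd⟩ := hP (∑ y ∈ St z t, g1 y)
      (Submodule.sum_mem _ (fun y hy => g1Z y hy))
      (Av.sum (fun y hy => hAvt y hy _ (g1L y hy) (g1A y hy)))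
      (Ge.sum (fun y hy => g1G y hy)) (by
        rw [map_sum, Finset.sum_congr rfl (fun y hy => g1d y hy), hsumlk])
    have hGs : Ge (N + 1) (∑ y ∈ St z t, g1 y) := Ge.sum (fun y hy => g1G y hy)
    obtain ⟨s, hs1, hs2⟩ := exists_split h0 ht hreg htI g'Z g'A
    -- the corrected primitives
    set kk : P → Finset P → k := fun y => g1 y + dd c (tr (N + 2) (s y)) with hkk
    have kZ : ∀ y ∈ St z t, kk y ∈ ZZ k z := fun y hy =>
      Submodule.add_mem _ (g1Z y hy) (dd_mem h0 ht hreg c (tr_mem (hs1 y hy).1))
    have kL : ∀ y ∈ St z t, Lk y (kk y) := fun y hy =>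
      (g1L y hy).add (((hs1 y hy).2.1.tr _).dd c)
    have kA : ∀ y ∈ St z t, Av T (kk y) := fun y hy =>
      (g1A y hy).add (((hs1 y hy).2.2.tr _).dd c)
    have kG : ∀ y ∈ St z t, Ge (N + 1) (kk y) := fun y hy =>
      (g1G y hy).add ((Ge_tr _ _).dd c)
    have kd : ∀ y ∈ St z t, dd c (kk y) = lk y f := by
      intro y hy
      simp only [hkk]
      rw [map_add, dd_dd, add_zero, g1d y hy]
    have ksum : ∑ y ∈ St z t, kk y = 0 := by
      have h5 : ∑ y ∈ St z t, dd c (tr (N + 2) (s y)) = ∑ y ∈ St z t, g1 y := by
        rw [← tr_of_Ge hGs, ← g'd, ← hs2, map_sum]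
        simp only [dd_tr]
        ext F
        simp only [Finset.sum_apply, tr]
        split_ifs with h6
        · rfl
        · simp
      simp only [hkk]
      rw [Finset.sum_add_distrib, h5]
      exact add_self_fun _
    set h := ∑ y ∈ St z t, jn y (kk y) with hh
    have hZ : h ∈ ZZ k z := sum_jn_mem h0 ht0 kZ kL ksum
    have hhA : Av T h := by
      apply Av.sum
      intro y hy
      apply Av_jn (kA y hy)
      intro hTy
      have := hTt _ hTy
      have := (mem_St.1 hy).1
      omega
    have hhG : Ge (N + 2) h := Ge.sum (fun y hy => Ge_jn (kG y hy) y)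
    have hhd : dd c h = ∑ y ∈ St z t, jn y (lk y f) + ∑ y ∈ St z t, c y • kk y := by
      rw [hh, map_sum, ← Finset.sum_add_distrib]
      apply Finset.sum_congr rfl
      intro y hy
      rw [dd_jn (kL y hy), kd y hy]
    have hfA : Av (fun s => s = t ∨ T s) (f + dd c h) := by
      intro F x hx hxT
      rcases hxT with h6 | h6
      · by_cases hc : IsCh z F
        · rw [hhd, Pi.add_apply, Pi.add_apply, Finset.sum_apply, Finset.sum_apply]
          have h7 : ∑ y ∈ St z t, (c y • kk y) F = 0 := by
            apply Finset.sum_eq_zero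
            intro y hy
            rw [Pi.smul_apply, kL y hy F x hx, smul_zero]
            rintro (h3 | h3)
            · have := rk_lt h3
              have := (mem_St.1 hy).1
              omega
            · have := rk_lt h3
              have := (mem_St.1 hy).1
              omega
          have h8 : ∑ y ∈ St z t, jn y (lk y f) F = f F := by
            rw [Finset.sum_eq_single x]
            · exact jn_lk hx
            · intro y hy hyx
              simp only [jn]
              rw [if_neg]
              intro hyF
              exact hyx (hc.eq_of_rk hyF hx (by rw [h6]; exact (mem_St.1 hy).1))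
            · intro hn
              exact absurd (mem_St.2 ⟨h6, (hc.1 x hx).2⟩) hn
          rw [h7, h8, add_zero]
          exact CharTwo.add_self_eq_zero _
        · exact (Submodule.add_mem _ hf (dd_mem h0 ht hreg c hZ)).1 F hc
      · exact (hA.add (hhA.dd c)) F x hx h6
    obtain ⟨g3, g3Z, g3A, g3d⟩ := hP (f + dd c h)
      (Submodule.add_mem _ hf (dd_mem h0 ht hreg c hZ)) hfA (hG.add (hhG.dd c)) (by
        rw [map_add, hdd, dd_dd, add_zero])
    refine ⟨g3 + h, Submodule.add_mem _ g3Z hZ, ?_, ?_⟩
    · apply Av.add _ hhA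
      intro F x hx hxT
      exact g3A F x hx (Or.inr hxT)
    · rw [map_add, g3d, add_assoc, add_self_fun, add_zero]
  · obtain ⟨g, g1, g2, g3⟩ := hP f hf (by
      intro F x hx hxT
      rcases hxT with h6 | h6
      · apply hf.1
        intro hc
        exact htI (h6 ▸ hc.rk_mem hx)
      · exact hA F x hx h6) hG hdd
    exact ⟨g, g1, fun F x hx hxT => g2 F x hx (Or.inr hxT), g3⟩

/-- The upper half of the complex is exact, provided that it is exact on sets of odd ranks. -/
theorem PP.all [CharP k 2] {c : P → k} {z : P} {N : ℕ}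
    (h0 : rk (⊥ : P) = 0) (ht : Thin P) (hreg : RegProp k z)
    (hEx : ∀ y, y < z → 0 < rk y → Even (rk y) → Ex c y ∧ RegProp k y)
    (hP : PP c z (N + 1) (fun s => Even s ∧ 2 ≤ s)) :
    ∀ f ∈ ZZ k z, Ge (N + 1) f → dd c f = 0 → ∃ g ∈ ZZ k z, dd c g = f := by
  have key : ∀ l : ℕ, PP c z (N + 1) (fun s => Even s ∧ 2 * (l + 1) ≤ s) := by
    intro l
    induction l with
    | zero => exact hP
    | succ l ih =>
      apply PP.step (t := 2 * (l + 1)) h0 ht hreg
      · rintro s ⟨h1, h2⟩
        omega
      · omega
      · intro y hy hyr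
        exact hEx y hy (by omega) (by rw [hyr]; exact even_two_mul _)
      · have : (fun s => s = 2 * (l + 1) ∨ Even s ∧ 2 * (l + 1 + 1) ≤ s) =
            (fun s => Even s ∧ 2 * (l + 1) ≤ s) := by
          ext s
          constructor
          · rintro (rfl | ⟨h1, h2⟩)
            · exact ⟨even_two_mul _, le_refl _⟩
            · exact ⟨h1, by omega⟩
          · rintro ⟨⟨r, h1⟩, h2⟩
            by_cases h3 : s = 2 * (l + 1)
            · exact Or.inl h3
            · exact Or.inr ⟨⟨r, h1⟩, by omega⟩
        rw [this]
        exact ih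
  intro f hf hG hdd
  obtain ⟨g, g1, _, g2⟩ := key (rk z) f hf (by
    intro F x hx hxT
    apply hf.1
    intro hc
    have h1 := hc.rk_mem hx
    simp only [II, Finset.mem_Ioo] at h1
    omega) hG hdd
  exact ⟨g, g1, g2⟩

/-- Halving the cardinality of sets of odd ranks. -/
theorem card_le_of_odd {z : P} {M : ℕ} (hz : rk z ≤ 2 * M + 1) {F : Finset P} (hF : IsCh z F)
    (hodd : ∀ x ∈ F, ¬ (Even (rk x) ∧ 2 ≤ rk x)) : ty F ⊆ od (Finset.range M) := by
  intro s hs
  obtain ⟨x, hx, rfl⟩ := mem_ty.1 hs
  have h1 := hF.rk_mem hx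
  simp only [II, Finset.mem_Ioo] at h1
  have h2 := hodd x hx
  have h3 : ¬ Even (rk x) := by
    intro hh
    apply h2
    refine ⟨hh, ?_⟩
    obtain ⟨r, hr⟩ := hh
    omega
  rw [Nat.not_even_iff_odd] at h3
  obtain ⟨r, hr⟩ := h3
  rw [mem_od]
  exact ⟨r, by rw [Finset.mem_range]; omega, by omega⟩

theorem card_od (M : ℕ) : (od (Finset.range M)).card = M := by
  rw [od, Finset.card_image_of_injective, Finset.card_range]
  intro a b hab
  simpa using hab

/-- The upper half of the complex for `z` of even rank. -/
theorem upper_even [Algebra (ZMod 2) k] [CharP k 2] {c : P → k}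
    (hc : AlgebraicIndependent (ZMod 2) c) {z : P} {m : ℕ} (hz : rk z = 2 * m + 2)
    (h0 : rk (⊥ : P) = 0) (ht : Thin P) (hreg : RegProp k z)
    (hEx : ∀ y, y < z → 0 < rk y → Even (rk y) → Ex c y ∧ RegProp k y) :
    ∀ f ∈ ZZ k z, Ge (m + 1) f → dd c f = 0 → ∃ g ∈ ZZ k z, dd c g = f := by
  apply PP.all h0 ht hreg hEx
  intro f hf hA hG hdd
  refine ⟨0, Submodule.zero_mem _, fun _ _ _ _ => rfl, ?_⟩
  rw [map_zero]
  symm
  apply core_zero hz h0 ht hreg c hc hf _ hdd
  intro F hF
  have hch : IsCh z F := by
    by_contra hh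
    exact hF (hf.1 F hh)
  have h1 : ty F ⊆ od (Finset.range (m + 1)) := by
    apply card_le_of_odd (by omega) hch
    intro x hx hT
    exact hF (hA F x hx hT)
  apply Finset.eq_of_subset_of_card_le h1
  rw [card_od, hch.card_ty]
  by_contra hlt
  exact hF (hG F (by omega))

/-- The upper half of the complex for `z` of odd rank. -/
theorem upper_odd [CharP k 2] {c : P → k} {z : P} {m : ℕ} (hz : rk z = 2 * m + 1)
    (h0 : rk (⊥ : P) = 0) (ht : Thin P) (hreg : RegProp k z)
    (hEx : ∀ y, y < z → 0 < rk y → Even (rk y) → Ex c y ∧ RegProp k y) :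
    ∀ f ∈ ZZ k z, Ge (m + 1) f → dd c f = 0 → ∃ g ∈ ZZ k z, dd c g = f := by
  apply PP.all h0 ht hreg hEx
  intro f hf hA hG hdd
  refine ⟨0, Submodule.zero_mem _, fun _ _ _ _ => rfl, ?_⟩
  rw [map_zero]
  symm
  ext F
  rw [Pi.zero_apply]
  by_contra hF
  have hch : IsCh z F := by
    by_contra hh
    exact hF (hf.1 F hh)
  have h1 : ty F ⊆ od (Finset.range m) := by
    apply card_le_of_odd (by omega) hch
    intro x hx hT
    exact hF (hA F x hx hT)
  have h2 := Finset.card_le_card h1
  rw [card_od, hch.card_ty] at h2
  exact hF (hG F (by omega))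

end Pool.Agent.Lib.MP_5bb951_co
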