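import Pool.Agent.Lib.MP_5bb951_co.Flag

set_option autoImplicit false
set_option linter.unusedSectionVars false
set_option linter.unusedVariables false

open Classical

namespace Pool.Agent.Lib.MP_5bb951_co

universe u v

variable {P : Type u} [PartialOrder P] [Fintype P] [BoundedOrder P] [GradeOrder ℕ P]
variable (k : Type v) [Field k]

/-- The space of functions on chains of `(⊥, z)` all of whose partial sums over one rank vanish
(dual of the Artinian reduction of the face ring of the interval). -/
noncomputable def ZZ (z : P) : Submodule k (Finset P → k) where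
  carrier := {f | (∀ F, ¬ IsCh z F → f F = 0) ∧ ∀ (F : Finset P) (s : ℕ), s ∉ ty F →
    ∑ x ∈ Finset.univ.filter (fun x : P => rk x = s), f (insert x F) = 0}
  add_mem' := by
    rintro a b ⟨ha1, ha2⟩ ⟨hb1, hb2⟩
    refine ⟨?_, ?_⟩
    · intro F hF
      simp only [Pi.add_apply]
      rw [ha1 F hF, hb1 F hF, add_zero]
    · intro F s hs
      simp only [Pi.add_apply]
      rw [Finset.sum_add_distrib, ha2 F s hs, hb2 F s hs, add_zero]
  zero_mem' := by
    refine ⟨fun _ _ => rfl, ?_⟩
    intro F s hs
    simp
  smul_mem' := by
    rintro c a ⟨ha1, ha2⟩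
    refine ⟨?_, ?_⟩
    · intro F hF
      simp only [Pi.smul_apply]
      rw [ha1 F hF, smul_zero]
    · intro F s hs
      simp only [Pi.smul_apply]
      rw [← Finset.smul_sum, ha2 F s hs, smul_zero]

variable {k}

theorem mem_ZZ {z : P} {f : Finset P → k} :
    f ∈ ZZ k z ↔ (∀ F, ¬ IsCh z F → f F = 0) ∧ ∀ (F : Finset P) (s : ℕ), s ∉ ty F →
    ∑ x ∈ Finset.univ.filter (fun x : P => rk x = s), f (insert x F) = 0 := Iff.rfl

/-- The dual differential. -/
noncomputable def dd (c : P → k) : (Finset P → k) →ₗ[k] (Finset P → k) where
  toFun f := fun F => ∑ x ∈ Finset.univ.filter (fun x : P => x ∉ F), c x * f (insert x F)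
  map_add' := by
    intro f g
    ext F
    simp only [Pi.add_apply, mul_add, Finset.sum_add_distrib]
  map_smul' := by
    intro a f
    ext F
    simp only [Pi.smul_apply, smul_eq_mul, RingHom.id_apply, Finset.mul_sum]
    apply Finset.sum_congr rfl
    intro x _
    ring

theorem dd_apply (c : P → k) (f : Finset P → k) (F : Finset P) :
    dd c f F = ∑ x ∈ Finset.univ.filter (fun x : P => x ∉ F), c x * f (insert x F) := rfl

/-- Multiplication by the linear form. -/
noncomputable def om (c : P → k) : (Finset P → k) →ₗ[k] (Finset P → k) where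
  toFun q := fun F => ∑ x ∈ F, c x * q (F.erase x)
  map_add' := by
    intro f g
    ext F
    simp only [Pi.add_apply, mul_add, Finset.sum_add_distrib]
  map_smul' := by
    intro a f
    ext F
    simp only [Pi.smul_apply, smul_eq_mul, RingHom.id_apply, Finset.mul_sum]
    apply Finset.sum_congr rfl
    intro x _
    ring

theorem om_apply (c : P → k) (q : Finset P → k) (F : Finset P) :
    om c q F = ∑ x ∈ F, c x * q (F.erase x) := rfl

/-- The duality map. -/
noncomputable def nu (z : P) : (Finset P → k) →ₗ[k] (Finset P → k) where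
  toFun q := fun G => ∑ Φ ∈ Finset.univ.filter (fun Φ : Fl z => G ⊆ Φ.1), q (Φ.1 \ G)
  map_add' := by
    intro f g
    ext F
    simp only [Pi.add_apply, Finset.sum_add_distrib]
  map_smul' := by
    intro a f
    ext F
    simp only [Pi.smul_apply, smul_eq_mul, RingHom.id_apply, Finset.mul_sum]

theorem nu_apply (z : P) (q : Finset P → k) (G : Finset P) :
    nu z q G = ∑ Φ ∈ Finset.univ.filter (fun Φ : Fl z => G ⊆ Φ.1), q (Φ.1 \ G) := rfl

/-- The standard bilinear form. -/
noncomputable def dp (q f : Finset P → k) : k := ∑ F, q F * f F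

theorem dp_comm (q f : Finset P → k) : dp q f = dp f q := by
  simp only [dp, mul_comm]

theorem dp_om_dd (c : P → k) (q f : Finset P → k) : dp (om c q) f = dp q (dd c f) := by
  simp only [dp, om_apply, dd_apply, Finset.sum_mul, Finset.mul_sum]
  rw [Finset.sum_comm' (t' := Finset.univ)
    (s' := fun x : P => Finset.univ.filter (fun F : Finset P => x ∈ F))
    (by intro F x; simp)]
  rw [Finset.sum_comm' (s := Finset.univ) (t' := Finset.univ)
    (s' := fun x : P => Finset.univ.filter (fun F : Finset P => x ∉ F))
    (by intro F x; simp)]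
  apply Finset.sum_congr rfl
  intro x _
  refine Finset.sum_bij' (fun F _ => F.erase x) (fun F _ => insert x F) ?_ ?_ ?_ ?_ ?_
  · intro F hF
    simp
  · intro F hF
    simp
  · intro F hF
    simp only [Finset.mem_filter] at hF
    exact Finset.insert_erase hF.2
  · intro F hF
    simp only [Finset.mem_filter] at hF
    exact Finset.erase_insert hF.2
  · intro F hF
    simp only [Finset.mem_filter] at hF
    rw [Finset.insert_erase hF.2]
    ring

theorem dp_nu (z : P) (q f : Finset P → k) : dp (nu z q) f = dp q (nu z f) := by
  simp only [dp, nu_apply, Finset.sum_mul, Finset.mul_sum]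
  rw [Finset.sum_comm' (s := Finset.univ) (t' := Finset.univ)
    (s' := fun Φ : Fl z => Finset.univ.filter (fun F : Finset P => F ⊆ Φ.1))
    (by intro F x; simp)]
  rw [Finset.sum_comm' (s := Finset.univ) (t' := Finset.univ)
    (s' := fun Φ : Fl z => Finset.univ.filter (fun F : Finset P => F ⊆ Φ.1))
    (by intro F x; simp)]
  apply Finset.sum_congr rfl
  intro Φ _
  refine Finset.sum_bij' (fun F _ => Φ.1 \ F) (fun F _ => Φ.1 \ F) ?_ ?_ ?_ ?_ ?_
  · intro F hF
    simp
  · intro F hF
    simp
  · intro F hF
    simp only [Finset.mem_filter] at hF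
    exact Finset.sdiff_sdiff_eq_self hF.2
  · intro F hF
    simp only [Finset.mem_filter] at hF
    exact Finset.sdiff_sdiff_eq_self hF.2
  · intro F hF
    simp only [Finset.mem_filter] at hF
    rw [Finset.sdiff_sdiff_eq_self hF.2]

theorem nu_om (z : P) (c : P → k) (q : Finset P → k) : nu z (om c q) = dd c (nu z q) := by
  ext G
  simp only [nu_apply, om_apply, dd_apply, Finset.mul_sum]
  rw [Finset.sum_comm' (t' := Finset.univ.filter (fun x : P => x ∉ G))
    (s' := fun x : P => Finset.univ.filter (fun Φ : Fl z => insert x G ⊆ Φ.1))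
    (by
      intro Φ x
      simp only [Finset.mem_filter, Finset.mem_univ, true_and, Finset.mem_sdiff,
        Finset.insert_subset_iff]
      tauto)]
  apply Finset.sum_congr rfl
  intro x hx
  apply Finset.sum_congr rfl
  intro Φ hΦ
  congr 2
  ext y
  simp only [Finset.mem_erase, Finset.mem_sdiff, Finset.mem_insert]
  tauto

theorem IsFlag.isCh_of_subset {z : P} {Φ G : Finset P} (h : IsFlag z Φ) (hG : G ⊆ Φ) :
    IsCh z G := h.1.mono hG

/-- A set of elements of rank `s` in a flag is a singleton. -/
theorem IsFlag.filter_rk {z : P} {Φ : Finset P} (h : IsFlag z Φ) {s : ℕ} (hs : s ∈ II z) :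
    ∃ x : P, x ∈ Φ ∧ rk x = s ∧ ∀ y ∈ Φ, rk y = s → y = x := by
  have : s ∈ ty Φ := by rw [h.2]; exact hs
  obtain ⟨x, hx, hr⟩ := mem_ty.1 this
  exact ⟨x, hx, hr, fun y hy hyr => h.1.eq_of_rk hy hx (hyr.trans hr.symm)⟩

theorem nu_mem [CharP k 2] {z : P} (h0 : rk (⊥ : P) = 0) (ht : Thin P) (q : Finset P → k) :
    nu z q ∈ ZZ k z := by
  refine ⟨?_, ?_⟩
  · intro G hG
    rw [nu_apply, Finset.filter_eq_empty_iff.2, Finset.sum_empty]
    intro Φ _ hΦ
    exact hG (Φ.2.isCh_of_subset hΦ)
  · intro F s hs
    simp only [nu_apply]
    rw [Finset.sum_comm' (t' := Finset.univ.filter (fun Φ : Fl z => F ⊆ Φ.1))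
      (s' := fun Φ : Fl z => Finset.univ.filter (fun x : P => x ∈ Φ.1 ∧ rk x = s))
      (by
        intro x Φ
        simp only [Finset.mem_filter, Finset.mem_univ, true_and, Finset.insert_subset_iff]
        tauto)]
    by_cases hsI : s ∈ II z
    · rw [Finset.sum_filter]
      set φ : Fl z → k := fun Φ => if F ⊆ Φ.1 then q (res ((II z).erase s) Φ.1 \ F) else 0 with hφ
      have hφC : φ ∈ C k z ((II z).erase s) := by
        intro Φ Ψ hr
        have hiff : ∀ Θ : Fl z, F ⊆ Θ.1 ↔ F ⊆ res ((II z).erase s) Θ.1 := by
          intro Θ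
          constructor
          · intro hh x hx
            rw [mem_res, Finset.mem_erase]
            exact ⟨hh hx, fun hxs => hs (mem_ty.2 ⟨x, hx, hxs⟩), Θ.2.1.rk_mem (hh hx)⟩
          · intro hh
            exact hh.trans (res_subset _ _)
        simp only [hφ, hiff, hr]
      refine Eq.trans ?_ (sum_eq_zero_of_mem h0 ht hsI hφC)
      apply Finset.sum_congr rfl
      intro Φ _
      simp only [hφ]
      by_cases hF : F ⊆ Φ.1
      · rw [if_pos hF, if_pos hF]
        obtain ⟨x, hx, hr, huniq⟩ := Φ.2.filter_rk hsI
        have : Finset.univ.filter (fun x : P => x ∈ Φ.1 ∧ rk x = s) = {x} := by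
          ext y
          simp only [Finset.mem_filter, Finset.mem_univ, true_and, Finset.mem_singleton]
          constructor
          · rintro ⟨h1, h2⟩
            exact huniq y h1 h2
          · rintro rfl
            exact ⟨hx, hr⟩
        rw [this, Finset.sum_singleton]
        congr 1
        ext y
        simp only [Finset.mem_sdiff, Finset.mem_insert, mem_res, Finset.mem_erase]
        constructor
        · rintro ⟨h1, h2⟩
          refine ⟨⟨h1, ?_, Φ.2.1.rk_mem h1⟩, fun hh => h2 (Or.inr hh)⟩
          intro hys
          exact h2 (Or.inl (huniq y h1 hys))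
        · rintro ⟨⟨h1, h2, h3⟩, h4⟩
          refine ⟨h1, ?_⟩
          rintro (rfl | hh)
          · exact h2 hr
          · exact h4 hh
      · rw [if_neg hF, if_neg hF]
    · apply Finset.sum_eq_zero
      intro Φ _
      apply Finset.sum_eq_zero
      intro x hx
      simp only [Finset.mem_filter, Finset.mem_univ, true_and] at hx
      exact absurd (hx.2 ▸ Φ.2.1.rk_mem hx.1) hsI

theorem ZZ_le_range [CharP k 2] {z : P} (h0 : rk (⊥ : P) = 0) (ht : Thin P)
    (hreg : RegProp k z) {f : Finset P → k} (hf : f ∈ ZZ k z) :
    ∃ q : Finset P → k, nu z q = f := by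
  have hmem : f ∈ LinearMap.range (nu (k := k) z) := by
    rw [← Subspace.forall_mem_dualAnnihilator_apply_eq_zero_iff]
    intro ℓ hℓ
    set q : Finset P → k := fun F => ℓ (Pi.single F 1) with hq
    have hℓq : ∀ g : Finset P → k, ℓ g = dp q g := by
      intro g
      conv_lhs => rw [← Finset.univ_sum_single g]
      rw [map_sum]
      apply Finset.sum_congr rfl
      intro Φ _
      have : (Pi.single Φ (g Φ) : Finset P → k) = g Φ • Pi.single Φ 1 := by
        rw [← Pi.single_smul, smul_eq_mul, mul_one]
      rw [this, map_smul, smul_eq_mul, mul_comm]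
    have hnuq : nu z q = 0 := by
      ext F
      have h1 : ℓ (nu z (Pi.single F 1)) = 0 :=
        (Submodule.mem_dualAnnihilator ℓ).1 hℓ _ ⟨_, rfl⟩
      rw [hℓq, ← dp_nu, dp] at h1
      simpa [Pi.single_apply] using h1
    rw [hℓq]
    -- choose extensions of chains to flags
    obtain ⟨Φ₀, hΦ₀, _⟩ := (isCh_empty z).exists_flag h0
    have hext : ∀ F : Finset P, ∃ Φ : Fl z, IsCh z F → F ⊆ Φ.1 := by
      intro F
      by_cases hF : IsCh z F
      · obtain ⟨Φ, hΦ, hsub⟩ := hF.exists_flag h0
        exact ⟨⟨Φ, hΦ⟩, fun _ => hsub⟩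
      · exact ⟨⟨Φ₀, hΦ₀⟩, fun hh => absurd hh hF⟩
    choose ext hext using hext
    have hext' : ∀ F : Finset P, IsCh z F → res (ty F) (ext F).1 = F := by
      intro F hF
      exact ((ext F).2.1.eq_res (hext F hF)).symm
    -- group by type
    have hdp : dp q f = ∑ F ∈ Finset.univ.filter (fun F : Finset P => IsCh z F), q F * f F := by
      rw [dp, Finset.sum_filter]
      apply Finset.sum_congr rfl
      intro F _
      by_cases hF : IsCh z F
      · rw [if_pos hF]
      · rw [if_neg hF, hf.1 F hF, mul_zero]
    rw [hdp, ← Finset.sum_fiberwise_of_maps_to (t := (II z).powerset) (g := fun F => ty F)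
      (by
        intro F hF
        exact Finset.mem_powerset.2 (Finset.mem_filter.1 hF).2.ty_subset)]
    apply Finset.sum_eq_zero
    intro A hA
    rw [Finset.mem_powerset] at hA
    rw [Finset.filter_filter]
    -- the function on flags
    set φ : Fl z → k := fun Φ => q (res A Φ.1) with hφ
    have hφA : φ ∈ C k z A := by
      intro Φ Ψ hr
      simp only [hφ, hr]
    have hφ' : φ ∈ ⨆ a ∈ A, C k z (A.erase a) := by
      apply dual_flag h0 ht hreg hA hφA
      intro Ψ
      have h1 : nu z q (res (II z \ A) Ψ.1) = 0 := by rw [hnuq]; rfl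
      rw [nu_apply] at h1
      rw [← h1]
      have hset : ∀ Φ : Fl z, (res (II z \ A) Φ.1 = res (II z \ A) Ψ.1 ↔
          res (II z \ A) Ψ.1 ⊆ Φ.1) := by
        intro Φ
        constructor
        · intro hh
          rw [← hh]
          exact res_subset _ _
        · intro hh
          have := Φ.2.1.eq_res hh
          rw [Ψ.2.ty_res Finset.sdiff_subset] at this
          exact this.symm
      simp only [hset]
      apply Finset.sum_congr rfl
      intro Φ hΦ
      simp only [Finset.mem_filter, Finset.mem_univ, true_and] at hΦ
      simp only [hφ]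
      rw [Φ.2.1.sdiff_eq_res hΦ, Ψ.2.ty_res Finset.sdiff_subset, Finset.sdiff_sdiff_eq_self hA]
    -- the linear functional
    set Λ : (Fl z → k) →ₗ[k] k :=
      { toFun := fun φ => ∑ F ∈ Finset.univ.filter (fun F : Finset P => IsCh z F ∧ ty F = A),
          φ (ext F) * f F
        map_add' := by
          intro a b
          simp only [Pi.add_apply, add_mul, Finset.sum_add_distrib]
        map_smul' := by
          intro a b
          simp only [Pi.smul_apply, smul_eq_mul, RingHom.id_apply, Finset.mul_sum, mul_assoc] }
      with hΛ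
    have hker : (⨆ a ∈ A, C k z (A.erase a)) ≤ LinearMap.ker Λ := by
      apply iSup₂_le
      intro a ha φ hφ
      rw [LinearMap.mem_ker, hΛ, LinearMap.coe_mk, AddHom.coe_mk]
      rw [← Finset.sum_fiberwise (g := fun F => res (A.erase a) F)]
      apply Finset.sum_eq_zero
      intro G _
      rw [Finset.filter_filter]
      by_cases hG : ∃ F₀, (IsCh z F₀ ∧ ty F₀ = A) ∧ res (A.erase a) F₀ = G
      · obtain ⟨F₀, ⟨h1, h2⟩, h3⟩ := hG
        have haG : a ∉ ty G := by
          rw [← h3, ty_res]
          simp
        have hGF : G ⊆ F₀ := h3 ▸ res_subset _ _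
        have hval : ∀ F ∈ Finset.univ.filter (fun F : Finset P => (IsCh z F ∧ ty F = A) ∧
            res (A.erase a) F = G), φ (ext F) * f F = φ (ext F₀) * f F := by
          intro F hF
          simp only [Finset.mem_filter, Finset.mem_univ, true_and] at hF
          obtain ⟨⟨g1, g2⟩, g3⟩ := hF
          congr 1
          apply hφ
          have e1 := hext' F g1
          have e2 := hext' F₀ h1
          rw [g2] at e1
          rw [h2] at e2
          rw [← res_res_of_subset (Finset.erase_subset a A) (ext F).1, e1, g3,
            ← res_res_of_subset (Finset.erase_subset a A) (ext F₀).1, e2, h3]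
        rw [Finset.sum_congr rfl hval, ← Finset.mul_sum]
        have hz := hf.2 G a haG
        have hsum : ∑ F ∈ Finset.univ.filter (fun F : Finset P => (IsCh z F ∧ ty F = A) ∧
            res (A.erase a) F = G), f F =
            ∑ x ∈ Finset.univ.filter (fun x : P => rk x = a), f (insert x G) := by
          rw [← Finset.sum_filter_add_sum_filter_not (Finset.univ.filter (fun x : P => rk x = a))
            (fun x => IsCh z (insert x G))]
          rw [Finset.sum_eq_zero (s := (Finset.univ.filter (fun x : P => rk x = a)).filter
            (fun x => ¬ IsCh z (insert x G))) (fun x hx => hf.1 _ (Finset.mem_filter.1 hx).2),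
            add_zero]
          symm
          refine Finset.sum_bij (fun x _ => insert x G) ?_ ?_ ?_ ?_
          · intro x hx
            simp only [Finset.mem_filter, Finset.mem_univ, true_and] at hx ⊢
            obtain ⟨hxa, hch⟩ := hx
            have htG : ty G = A.erase a := by
              rw [← h3, ty_res, h2]
              exact Finset.inter_eq_left.2 (Finset.erase_subset _ _)
            refine ⟨⟨hch, ?_⟩, ?_⟩
            · rw [ty_insert, hxa, htG, Finset.insert_erase ha]
            · ext y
              simp only [mem_res, Finset.mem_insert, Finset.mem_erase]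
              constructor
              · rintro ⟨rfl | hy, hy2, hy3⟩
                · exact absurd hxa hy2
                · exact hy
              · intro hy
                have hyt : rk y ∈ A.erase a := htG ▸ mem_ty.2 ⟨y, hy, rfl⟩
                exact ⟨Or.inr hy, Finset.mem_erase.1 hyt⟩
          · intro x hx y hy hxy
            simp only [Finset.mem_filter, Finset.mem_univ, true_and] at hx hy
            have : x ∈ insert y G := hxy ▸ Finset.mem_insert_self x G
            rcases Finset.mem_insert.1 this with hh | hh
            · exact hh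
            · exact absurd (mem_ty.2 ⟨x, hh, hx.1⟩) haG
          · intro F hF
            simp only [Finset.mem_filter, Finset.mem_univ, true_and] at hF
            obtain ⟨⟨g1, g2⟩, g3⟩ := hF
            have : a ∈ ty F := g2 ▸ ha
            obtain ⟨x, hx, hxr⟩ := mem_ty.1 this
            have hFx : insert x G = F := by
              rw [← g3]
              ext y
              simp only [mem_res, Finset.mem_insert, Finset.mem_erase]
              constructor
              · rintro (rfl | hy)
                · exact hx
                · exact hy.1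
              · intro hy
                by_cases hya : rk y = a
                · left
                  exact g1.eq_of_rk hy hx (hya.trans hxr.symm)
                · right
                  exact ⟨hy, hya, g2 ▸ mem_ty.2 ⟨y, hy, rfl⟩⟩
            refine ⟨x, ?_, hFx⟩
            simp only [Finset.mem_filter, Finset.mem_univ, true_and]
            exact ⟨hxr, hFx ▸ g1⟩
          · intro x hx
            rfl
        rw [hsum, hz, mul_zero]
      · rw [Finset.filter_eq_empty_iff.2 (fun F _ hF => hG ⟨F, hF⟩), Finset.sum_empty]
    have := hker hφ'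
    rw [LinearMap.mem_ker, hΛ, LinearMap.coe_mk, AddHom.coe_mk] at this
    rw [← this]
    apply Finset.sum_congr rfl
    intro F hF
    simp only [Finset.mem_filter, Finset.mem_univ, true_and] at hF
    simp only [hφ]
    have e := hext' F hF.1
    rw [hF.2] at e
    rw [e]
  obtain ⟨q, hq⟩ := hmem
  exact ⟨q, hq⟩

end Pool.Agent.Lib.MP_5bb951_co
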