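import Pool.Agent.Lib.MP_5bb951_co.Descent

set_option autoImplicit false
set_option linter.unusedSectionVars false
set_option linter.unusedVariables false

open Classical

namespace Pool.Agent.Lib.MP_5bb951_co

universe u v

variable {P : Type u} [PartialOrder P] [Fintype P] [BoundedOrder P] [GradeOrder ℕ P]
variable {k : Type v} [Field k]

theorem IsFlag.card {z : P} {Φ : Finset P} (h : IsFlag z Φ) : Φ.card = rk z - 1 := by
  rw [← h.1.card_ty, h.2, II, Nat.card_Ioo]
  omega

/-- Functionals on functions are given by the standard form. -/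
theorem exists_dp (ℓ : Module.Dual k (Finset P → k)) : ∃ q : Finset P → k, ∀ g, ℓ g = dp q g := by
  refine ⟨fun F => ℓ (Pi.single F 1), ?_⟩
  intro g
  conv_lhs => rw [← Finset.univ_sum_single g]
  rw [map_sum]
  apply Finset.sum_congr rfl
  intro Φ _
  have : (Pi.single Φ (g Φ) : Finset P → k) = g Φ • Pi.single Φ 1 := by
    rw [← Pi.single_smul, smul_eq_mul, mul_one]
  rw [this, map_smul, smul_eq_mul, mul_comm]

theorem eq_zero_of_dp {f : Finset P → k} (h : ∀ p, dp p f = 0) : f = 0 := by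
  ext F
  have := h (Pi.single F 1)
  simpa [dp, Pi.single_apply] using this

/-- Truncation to small sets. -/
noncomputable def tl (N : ℕ) (f : Finset P → k) : Finset P → k :=
  fun F => if F.card ≤ N then f F else 0

theorem nu_tl {z : P} {N M : ℕ} (hz : rk z = N + M + 2) (q : Finset P → k) :
    nu z (tl N q) = tr (M + 1) (nu z q) := by
  ext G
  simp only [tr, nu_apply, tl]
  have h1 : ∀ Φ ∈ Finset.univ.filter (fun Φ : Fl z => G ⊆ Φ.1),
      (if (Φ.1 \ G).card ≤ N then q (Φ.1 \ G) else 0) =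
      if M + 1 ≤ G.card then q (Φ.1 \ G) else 0 := by
    intro Φ hΦ
    simp only [Finset.mem_filter, Finset.mem_univ, true_and] at hΦ
    have h2 := Φ.2.card
    have h3 := Finset.card_le_card hΦ
    have h4 := Finset.card_sdiff_of_subset hΦ
    by_cases h5 : M + 1 ≤ G.card
    · rw [if_pos h5, if_pos (by omega)]
    · rw [if_neg h5, if_neg (by omega)]
  rw [Finset.sum_congr rfl h1]
  split_ifs
  · rfl
  · simp

theorem dp_tl {N : ℕ} {q f : Finset P → k} (hf : ∀ F, N < F.card → f F = 0) :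
    dp (tl N q) f = dp q f := by
  simp only [dp, tl]
  apply Finset.sum_congr rfl
  intro F _
  split_ifs with h1
  · rfl
  · rw [hf F (by omega), mul_zero, mul_zero]

theorem Ex_even [Algebra (ZMod 2) k] [CharP k 2] {c : P → k}
    (hc : AlgebraicIndependent (ZMod 2) c) {z : P} {m : ℕ} (hz : rk z = 2 * m + 2)
    (h0 : rk (⊥ : P) = 0) (ht : Thin P) (hreg : RegProp k z)
    (hEx : ∀ y, y < z → 0 < rk y → Even (rk y) → Ex c y ∧ RegProp k y) : Ex c z := by
  have hup := upper_even hc hz h0 ht hreg hEx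
  intro f hf hdd
  obtain ⟨g1, g1Z, g1d⟩ := hup (tr (m + 1) f) (tr_mem hf) (Ge_tr _ _) (by
    rw [dd_tr, hdd]
    ext F
    simp [tr])
  set f' := f - tr (m + 1) f with hf'
  have hf'Z : f' ∈ ZZ k z := Submodule.sub_mem _ hf (tr_mem hf)
  have hf'd : dd c f' = 0 := by
    rw [hf', map_sub, hdd, dd_tr, hdd]
    ext F
    simp [tr]
  have hf's : ∀ F, m < F.card → f' F = 0 := by
    intro F hF
    rw [hf', Pi.sub_apply]
    simp only [tr]
    rw [if_pos (by omega), sub_self]
  have hmem : f' ∈ (ZZ k z).map (dd c) := by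
    rw [← Subspace.forall_mem_dualAnnihilator_apply_eq_zero_iff]
    intro ℓ hℓ
    obtain ⟨q, hq⟩ := exists_dp ℓ
    rw [hq, ← dp_tl (N := m) hf's]
    have h1 : nu z (om c q) = 0 := by
      apply eq_zero_of_dp
      intro p
      rw [← dp_nu, dp_comm, dp_om_dd, ← hq]
      exact (Submodule.mem_dualAnnihilator ℓ).1 hℓ _
        (Submodule.mem_map_of_mem (nu_mem h0 ht p))
    have h2 : nu z (tl m q) = tr (m + 1) (nu z q) := nu_tl (by omega) q
    obtain ⟨g, gZ, gd⟩ := hup (nu z (tl m q)) (nu_mem h0 ht _) (by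
      rw [h2]
      exact Ge_tr _ _) (by
      rw [h2, dd_tr, ← nu_om, h1]
      ext F
      simp [tr])
    obtain ⟨q'', hq''⟩ := ZZ_le_range h0 ht hreg gZ
    obtain ⟨p, hp⟩ := ZZ_le_range h0 ht hreg hf'Z
    rw [← hp, ← dp_nu, ← gd, ← hq'', ← nu_om, dp_nu, hp, dp_om_dd, hf'd]
    simp [dp]
  obtain ⟨g2, g2Z, g2d⟩ := hmem
  refine ⟨g2 + g1, Submodule.add_mem _ g2Z g1Z, ?_⟩
  rw [map_add, g2d, g1d, hf', sub_add_cancel]

theorem Ex_all [Algebra (ZMod 2) k] [CharP k 2] {c : P → k}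
    (hc : AlgebraicIndependent (ZMod 2) c) (h0 : rk (⊥ : P) = 0) (ht : Thin P)
    (hreg : ∀ z : P, RegProp k z) (n : ℕ) : ∀ z : P, rk z ≤ n → 0 < rk z → Even (rk z) →
      Ex c z := by
  induction n with
  | zero =>
    intro z h1 h2
    omega
  | succ n ih =>
    intro z h1 h2 h3
    obtain ⟨r, hr⟩ := h3
    apply Ex_even (m := r - 1) hc (by omega) h0 ht (hreg z)
    intro y hy hy0 hy1
    have := rk_lt hy
    exact ⟨ih y (by omega) hy0 hy1, hreg y⟩

/-- The exactness of the upper half of the complex of a poset of odd rank. -/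
theorem upper_top [Algebra (ZMod 2) k] [CharP k 2] {c : P → k}
    (hc : AlgebraicIndependent (ZMod 2) c) (h0 : rk (⊥ : P) = 0) (ht : Thin P)
    (hreg : ∀ z : P, RegProp k z) {m : ℕ} (hm : rk (⊤ : P) = 2 * m + 1) :
    ∀ f ∈ ZZ k (⊤ : P), Ge (m + 1) f → dd c f = 0 → ∃ g ∈ ZZ k (⊤ : P), dd c g = f := by
  apply upper_odd hm h0 ht (hreg ⊤)
  intro y hy hy0 hy1
  exact ⟨Ex_all hc h0 ht hreg (rk y) y le_rfl hy0 hy1, hreg y⟩

end Pool.Agent.Lib.MP_5bb951_co
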