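import Pool.Agent.Lib.MP_5bb951_co.RegP

set_option autoImplicit false
set_option linter.unusedSectionVars false
set_option linter.unusedVariables false

open Classical MvPolynomial

namespace Pool.Agent.Lib.MP_5bb951_co

universe u v

variable {P : Type u} [PartialOrder P] [Fintype P] [BoundedOrder P] [GradeOrder ℕ P]
variable {k : Type v} [Field k]

theorem thin_of_eulerian
    (hE : ∀ x y : P, x < y →
      Nat.card {z : P // x ≤ z ∧ z ≤ y ∧ Even (grade ℕ z)} =
        Nat.card {z : P // x ≤ z ∧ z ≤ y ∧ ¬ Even (grade ℕ z)}) : Thin P := by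
  intro a b hab hr
  have h1 := hE a b hab
  rw [Nat.card_eq_fintype_card, Nat.card_eq_fintype_card, Fintype.card_subtype,
    Fintype.card_subtype] at h1
  set M : Finset P := Finset.univ.filter (fun w : P => a < w ∧ w < b) with hM
  have hMr : ∀ w ∈ M, rk w = rk a + 1 := by
    intro w hw
    simp only [hM, Finset.mem_filter, Finset.mem_univ, true_and] at hw
    have := rk_lt hw.1
    have := rk_lt hw.2
    omega
  have hsame : (Finset.univ.filter (fun w : P => a ≤ w ∧ w ≤ b ∧ (Even (rk w) ↔ Even (rk a)))) =
      {a, b} := by
    ext w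
    simp only [Finset.mem_filter, Finset.mem_univ, true_and, Finset.mem_insert,
      Finset.mem_singleton]
    constructor
    · rintro ⟨h2, h3, h4⟩
      rcases h2.lt_or_eq with h5 | h5
      · rcases h3.lt_or_eq with h6 | h6
        · exfalso
          have h7 : rk w = rk a + 1 := hMr w (by simp [hM, h5, h6])
          rw [h7, Nat.even_add_one] at h4
          tauto
        · exact Or.inr h6
      · exact Or.inl h5.symm
    · rintro (rfl | rfl)
      · exact ⟨le_rfl, hab.le, Iff.rfl⟩
      · refine ⟨hab.le, le_rfl, ?_⟩
        rw [hr, Nat.even_add]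
        simp
  have hdiff : (Finset.univ.filter (fun w : P => a ≤ w ∧ w ≤ b ∧ ¬ (Even (rk w) ↔ Even (rk a)))) =
      M := by
    ext w
    simp only [hM, Finset.mem_filter, Finset.mem_univ, true_and]
    constructor
    · rintro ⟨h2, h3, h4⟩
      refine ⟨lt_of_le_of_ne h2 ?_, lt_of_le_of_ne h3 ?_⟩
      · rintro rfl
        exact h4 Iff.rfl
      · rintro rfl
        apply h4
        rw [hr, Nat.even_add]
        simp
    · rintro ⟨h2, h3⟩
      refine ⟨h2.le, h3.le, ?_⟩
      have h7 : rk w = rk a + 1 := hMr w (by simp [hM, h2, h3])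
      rw [h7, Nat.even_add_one]
      tauto
  have hcard2 : ({a, b} : Finset P).card = 2 := Finset.card_pair hab.ne
  have hMcard : M.card = 2 := by
    rw [← hdiff, ← hcard2, ← hsame]
    by_cases ha : Even (rk a)
    · simp only [ha, iff_true] at *
      exact h1.symm
    · simp only [ha, iff_false, not_not] at *
      exact h1
  obtain ⟨u, v, huv, hMuv⟩ := Finset.card_eq_two.1 hMcard
  refine ⟨u, v, huv, ?_⟩
  intro w
  have : w ∈ M ↔ w ∈ ({u, v} : Finset P) := by rw [hMuv]
  simpa [hM] using this

/-- The ideal of the problem. -/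
theorem JJ_range_eq (N : ℕ) :
    Ideal.span {f : MvPolynomial P k | ∃ x y : P, ¬ x ≤ y ∧ ¬ y ≤ x ∧ f = X x * X y} ⊔
      Ideal.span (Set.range (fun j : Fin N =>
        ∑ x : P, if grade ℕ x = (j : ℕ) then (X x : MvPolynomial P k) else 0)) =
    JJ P k (Finset.range N) := by
  rw [JJ, Ideal.span_union]
  congr 2
  ext f
  simp only [Set.mem_range, Set.mem_image, Finset.coe_range, Set.mem_Iio]
  constructor
  · rintro ⟨j, rfl⟩
    exact ⟨j, j.2, rfl⟩
  · rintro ⟨j, hj, rfl⟩
    exact ⟨⟨j, hj⟩, rfl⟩

theorem NZ_of_regular {N : ℕ}
    (hW : RingTheory.Sequence.IsWeaklyRegular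
      (MvPolynomial P k ⧸ Ideal.span {f : MvPolynomial P k |
        ∃ x y : P, ¬ x ≤ y ∧ ¬ y ≤ x ∧ f = X x * X y})
      ((List.range N).map (fun i : ℕ =>
        Ideal.Quotient.mk (Ideal.span {f : MvPolynomial P k |
          ∃ x y : P, ¬ x ≤ y ∧ ¬ y ≤ x ∧ f = X x * X y})
          (∑ x : P, if grade ℕ x = i then (X x : MvPolynomial P k) else 0)))) :
    ∀ t < N, NZ P k (Finset.range t) t := by
  intro t ht f hf
  set I : Ideal (MvPolynomial P k) := Ideal.span {f : MvPolynomial P k |
        ∃ x y : P, ¬ x ≤ y ∧ ¬ y ≤ x ∧ f = X x * X y} with hI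
  have h1 := hW.regular_mod_prev t (by simpa using ht)
  have hK : Ideal.ofList ((((List.range N).map (fun i : ℕ =>
        Ideal.Quotient.mk I
          (∑ x : P, if grade ℕ x = i then (X x : MvPolynomial P k) else 0)))).take t) =
      Ideal.map (Ideal.Quotient.mk I) (JJ P k (Finset.range t)) := by
    rw [JJ, Ideal.map_span, Set.image_union, Ideal.span_union]
    have h2 : Ideal.span (Ideal.Quotient.mk I '' SRg P k) = ⊥ := by
      rw [Ideal.span_eq_bot]
      rintro x ⟨y, hy, rfl⟩
      rw [Ideal.Quotient.eq_zero_iff_mem]
      exact Ideal.subset_span hy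
    rw [h2, bot_sup_eq, Ideal.ofList]
    congr 1
    ext x
    simp only [Set.mem_ofPred_eq, Set.mem_image, Finset.coe_range, Set.mem_Iio]
    rw [← List.map_take, List.take_range, List.mem_map, Nat.min_eq_left ht.le]
    simp only [List.mem_range]
    constructor
    · rintro ⟨a, ha, rfl⟩
      exact ⟨_, ⟨a, ha, rfl⟩, rfl⟩
    · rintro ⟨_, ⟨a, ha, rfl⟩, rfl⟩
      exact ⟨a, ha, rfl⟩
  have hIJ : I ≤ JJ P k (Finset.range t) := Ideal.span_mono Set.subset_union_left
  have hmem : ∀ g : MvPolynomial P k, Ideal.Quotient.mk I g ∈
      (Ideal.ofList ((((List.range N).map (fun i : ℕ =>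
        Ideal.Quotient.mk I
          (∑ x : P, if grade ℕ x = i then (X x : MvPolynomial P k) else 0)))).take t) •
          (⊤ : Submodule (MvPolynomial P k ⧸ I) (MvPolynomial P k ⧸ I))) ↔
      g ∈ JJ P k (Finset.range t) := by
    intro g
    rw [hK, smul_eq_mul, Ideal.mul_top]
    exact Ideal.mem_quotient_iff_mem hIJ
  have h3 : ((List.range N).map (fun i : ℕ =>
        Ideal.Quotient.mk I
          (∑ x : P, if grade ℕ x = i then (X x : MvPolynomial P k) else 0)))[t]'(by simpa using ht)
      = Ideal.Quotient.mk I (th P k t) := by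
    simp [th]
  rw [h3] at h1
  rw [← hmem f, ← Submodule.Quotient.mk_eq_zero]
  apply h1
  simp only [smul_zero]
  have h4 : Ideal.Quotient.mk I (th P k t) • Ideal.Quotient.mk I f =
      Ideal.Quotient.mk I (th P k t * f) := by
    rw [smul_eq_mul, map_mul]
  rw [← Submodule.Quotient.mk_smul, Submodule.Quotient.mk_eq_zero, h4, hmem]
  exact hf

/-- The coefficients of squarefree monomials. -/
noncomputable def hat (p : MvPolynomial P k) : Finset P → k := fun F => coeff (mon F) p

theorem hat_sub (p q : MvPolynomial P k) : hat (p - q) = hat p - hat q := by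
  ext F
  simp [hat]

theorem mon_support {F : Finset P} {x : P} : x ∈ (mon F).support ↔ x ∈ F := by
  rw [Finsupp.mem_support_iff, mon_apply]
  by_cases h : x ∈ F
  · simp [h]
  · simp [h]

theorem mon_sub {F : Finset P} {x : P} (hx : x ∈ F) :
    mon F - Finsupp.single x 1 = mon (F.erase x) := by
  have : mon F = Finsupp.single x 1 + mon (F.erase x) := by
    rw [mon, mon]
    exact (Finset.add_sum_erase F (fun x => Finsupp.single x 1) hx).symm
  rw [this, add_tsub_cancel_left]

theorem mon_inj {F G : Finset P} (h : mon F = mon G) : F = G := by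
  ext x
  rw [← mon_support, h, mon_support]

theorem hat_om (c : P → k) (p : MvPolynomial P k) :
    hat ((∑ x : P, MvPolynomial.C (c x) * X x) * p) = om c (hat p) := by
  ext F
  simp only [hat, om_apply]
  rw [Finset.sum_mul, coeff_sum, ← Finset.sum_subset (Finset.subset_univ F)]
  · apply Finset.sum_congr rfl
    intro x hx
    have : MvPolynomial.C (c x) * X x * p = MvPolynomial.C (c x) * (p * X x) := by ring
    rw [this, coeff_C_mul, coeff_mul_X', if_pos (mon_support.2 hx), mon_sub hx]
  · intro x _ hx
    have : MvPolynomial.C (c x) * X x * p = MvPolynomial.C (c x) * (p * X x) := by ring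
    rw [this, coeff_C_mul, coeff_mul_X', if_neg (fun h => hx (mon_support.1 h)), mul_zero]

theorem dp_hat_JJ {A : Finset ℕ} {p : MvPolynomial P k} (hp : p ∈ JJ P k A)
    {f : Finset P → k} {z : P} (hf : f ∈ ZZ k z) : dp (hat p) f = 0 := by
  have hadd : ∀ a b : MvPolynomial P k, dp (hat (a + b)) f = dp (hat a) f + dp (hat b) f := by
    intro a b
    simp only [dp, hat, coeff_add, add_mul, Finset.sum_add_distrib]
  have key : ∀ r : MvPolynomial P k, dp (hat (r * p)) f = 0 := by
    refine Submodule.span_induction (p := fun x _ => ∀ r : MvPolynomial P k,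
      dp (hat (r * x)) f = 0) ?_ ?_ ?_ ?_ hp
    · rintro x (⟨i, j, hij, hji, rfl⟩ | ⟨a, ha, rfl⟩) r
      · rw [dp]
        apply Finset.sum_eq_zero
        intro F _
        by_cases hFi : i ∈ F ∧ j ∈ F
        · rw [hf.1 F, mul_zero]
          intro hc
          rcases hc.2 i hFi.1 j hFi.2 with h2 | h2
          · exact hij h2
          · exact hji h2
        · simp only [hat]
          have h1 : (X i * X j : MvPolynomial P k) =
              monomial (Finsupp.single i 1 + Finsupp.single j 1) 1 := by
            rw [X, X, monomial_mul, one_mul]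
          rw [h1, coeff_mul_monomial', if_neg, zero_mul]
          intro hle
          apply hFi
          refine ⟨mon_support.1 ?_, mon_support.1 ?_⟩
          · rw [Finsupp.mem_support_iff]
            have := hle i
            simp only [Finsupp.coe_add, Pi.add_apply, Finsupp.single_eq_same] at this
            omega
          · rw [Finsupp.mem_support_iff]
            have := hle j
            simp only [Finsupp.coe_add, Pi.add_apply, Finsupp.single_eq_same] at this
            omega
      · rw [th_eq, Finset.mul_sum]
        have h1 : ∀ F : Finset P, hat (∑ x ∈ Finset.univ.filter (fun x : P => rk x = a),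
            r * X x) F = ∑ x ∈ F, if rk x = a then hat r (F.erase x) else 0 := by
          intro F
          simp only [hat]
          rw [coeff_sum, Finset.sum_filter, ← Finset.sum_subset (Finset.subset_univ F)]
          · apply Finset.sum_congr rfl
            intro x hx
            split_ifs with h2
            · rw [coeff_mul_X', if_pos (mon_support.2 hx), mon_sub hx]
            · rfl
          · intro x _ hx
            split_ifs with h2
            · rw [coeff_mul_X', if_neg (fun h => hx (mon_support.1 h))]
            · rfl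
        rw [dp]
        simp only [h1, Finset.sum_mul]
        rw [Finset.sum_comm' (t' := Finset.univ)
          (s' := fun x : P => Finset.univ.filter (fun F : Finset P => x ∈ F))
          (by intro F x; simp)]
        have h3 : ∀ x : P, ∑ F ∈ Finset.univ.filter (fun F : Finset P => x ∈ F),
            (if rk x = a then hat r (F.erase x) else 0) * f F =
            ∑ F ∈ Finset.univ.filter (fun F : Finset P => x ∉ F),
            (if rk x = a then hat r F * f (insert x F) else 0) := by
          intro x
          refine Finset.sum_bij' (fun F _ => F.erase x) (fun F _ => insert x F) ?_ ?_ ?_ ?_ ?_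
          · intro F hF
            simp
          · intro F hF
            simp
          · intro F hF
            simp only [Finset.mem_filter] at hF
            exact Finset.insert_erase hF.2
          · intro F hF
            simp only [Finset.mem_filter] at hF
            exact Finset.erase_insert hF.2
          · intro F hF
            simp only [Finset.mem_filter] at hF
            rw [Finset.insert_erase hF.2]
            split_ifs
            · rfl
            · rw [zero_mul]
        simp only [h3]
        rw [Finset.sum_comm' (t' := Finset.univ)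
          (s' := fun F : Finset P => Finset.univ.filter (fun x : P => x ∉ F))
          (by intro x F; simp)]
        apply Finset.sum_eq_zero
        intro F _
        rw [← Finset.sum_filter, ← Finset.mul_sum, Finset.filter_filter]
        by_cases haF : a ∈ ty F
        · rw [Finset.sum_eq_zero, mul_zero]
          intro x hx
          simp only [Finset.mem_filter, Finset.mem_univ, true_and] at hx
          apply hf.1
          intro hc
          obtain ⟨y, hy, hya⟩ := mem_ty.1 haF
          have : x = y := hc.eq_of_rk (Finset.mem_insert_self _ _)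
            (Finset.mem_insert_of_mem hy) (by rw [hx.2, hya])
          rw [this] at hx
          exact hx.1 hy
        · have h4 : Finset.univ.filter (fun x : P => x ∉ F ∧ rk x = a) =
              Finset.univ.filter (fun x : P => rk x = a) := by
            ext x
            simp only [Finset.mem_filter, Finset.mem_univ, true_and]
            constructor
            · exact fun h => h.2
            · intro h
              exact ⟨fun hx => haF (mem_ty.2 ⟨x, hx, h⟩), h⟩
          rw [h4, hf.2 F a haF, mul_zero]
    · intro r
      rw [mul_zero]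
      simp [dp, hat]
    · intro x y _ _ hx hy r
      rw [mul_add, hadd, hx r, hy r, add_zero]
    · intro s x _ hx r
      rw [smul_eq_mul, ← mul_assoc]
      exact hx (r * s)
  have := key 1
  rwa [one_mul] at this

theorem X_sq_mem {N : ℕ} {x : P} (hx : rk x < N) :
    (X x * X x : MvPolynomial P k) ∈ JJ P k (Finset.range N) := by
  have h1 : (X x * th P k (rk x) : MvPolynomial P k) ∈ JJ P k (Finset.range N) :=
    Ideal.mul_mem_left _ _ (th_mem (Finset.mem_range.2 hx))
  have h2 : (X x * th P k (rk x) : MvPolynomial P k) = X x * X x +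
      ∑ y ∈ (Finset.univ.filter (fun y : P => rk y = rk x)).erase x, X x * X y := by
    rw [th_eq, Finset.mul_sum]
    exact (Finset.add_sum_erase (Finset.univ.filter (fun y : P => rk y = rk x))
      (fun y => (X x * X y : MvPolynomial P k)) (by simp)).symm
  have h3 : ∑ y ∈ (Finset.univ.filter (fun y : P => rk y = rk x)).erase x,
      (X x * X y : MvPolynomial P k) ∈ JJ P k (Finset.range N) := by
    apply Submodule.sum_mem
    intro y hy
    rw [Finset.mem_erase, Finset.mem_filter] at hy
    apply SRg_mem
    refine ⟨x, y, ?_, ?_, rfl⟩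
    · intro hh
      rcases hh.lt_or_eq with h4 | h4
      · have := rk_lt h4
        omega
      · exact hy.1 h4.symm
    · intro hh
      rcases hh.lt_or_eq with h4 | h4
      · have := rk_lt h4
        omega
      · exact hy.1 h4
  rw [h2] at h1
  have h5 := Submodule.sub_mem _ h1 h3
  rwa [add_sub_cancel_right] at h5

theorem prod_mem_JJ {N : ℕ} (h0 : rk (⊥ : P) = 0) (hN : rk (⊤ : P) + 1 = N) {F : Finset P}
    (hF : ¬ IsCh (⊤ : P) F) :
    (∏ x ∈ F, X x : MvPolynomial P k) ∈ JJ P k (Finset.range N) := by
  have hbot : (X ⊥ : MvPolynomial P k) ∈ JJ P k (Finset.range N) := by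
    have h1 : th P k 0 = X ⊥ := by
      rw [th_eq]
      have : Finset.univ.filter (fun x : P => rk x = 0) = {⊥} := by
        ext x
        simp only [Finset.mem_filter, Finset.mem_univ, true_and, Finset.mem_singleton]
        constructor
        · intro hx
          by_contra hne
          have := rk_lt (bot_lt_iff_ne_bot.2 hne)
          omega
        · rintro rfl
          exact h0
      rw [this, Finset.sum_singleton]
    rw [← h1]
    exact th_mem (Finset.mem_range.2 (by omega))
  have htop : (X ⊤ : MvPolynomial P k) ∈ JJ P k (Finset.range N) := by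
    have h1 : th P k (rk (⊤ : P)) = X ⊤ := by
      rw [th_eq]
      have : Finset.univ.filter (fun x : P => rk x = rk (⊤ : P)) = {⊤} := by
        ext x
        simp only [Finset.mem_filter, Finset.mem_univ, true_and, Finset.mem_singleton]
        constructor
        · intro hx
          by_contra hne
          have := rk_lt (lt_top_iff_ne_top.2 hne)
          omega
        · rintro rfl
          rfl
      rw [this, Finset.sum_singleton]
    rw [← h1]
    exact th_mem (Finset.mem_range.2 (by omega))
  by_cases hb : ⊥ ∈ F
  · rw [← Finset.mul_prod_erase F _ hb]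
    exact Ideal.mul_mem_right _ _ hbot
  · by_cases ht : ⊤ ∈ F
    · rw [← Finset.mul_prod_erase F _ ht]
      exact Ideal.mul_mem_right _ _ htop
    · have hex : ∃ x ∈ F, ∃ y ∈ F, ¬ x ≤ y ∧ ¬ y ≤ x := by
        by_contra hc
        push Not at hc
        apply hF
        refine ⟨?_, ?_⟩
        · intro x hx
          refine ⟨bot_lt_iff_ne_bot.2 ?_, lt_top_iff_ne_top.2 ?_⟩
          · rintro rfl
            exact hb hx
          · rintro rfl
            exact ht hx
        · intro x hx y hy
          by_cases h1 : x ≤ y
          · exact Or.inl h1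
          · exact Or.inr (hc x hx y hy h1)
      obtain ⟨x, hx, y, hy, h1, h2⟩ := hex
      have hne : y ≠ x := by
        rintro rfl
        exact h1 le_rfl
      rw [← Finset.mul_prod_erase F _ hx,
        ← Finset.mul_prod_erase (F.erase x) _ (Finset.mem_erase.2 ⟨hne, hy⟩), ← mul_assoc]
      exact Ideal.mul_mem_right _ _ (SRg_mem _ ⟨x, y, h1, h2, rfl⟩)

theorem mem_JJ_of_dp {N : ℕ} (h0 : rk (⊥ : P) = 0) (hN : rk (⊤ : P) + 1 = N)
    {r : MvPolynomial P k} (hr : ∀ f ∈ ZZ k (⊤ : P), dp (hat r) f = 0) :
    r ∈ JJ P k (Finset.range N) := by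
  by_contra hn
  have hrkN : ∀ x : P, rk x < N := by
    intro x
    rcases (le_top : x ≤ ⊤).lt_or_eq with h1 | h1
    · have := rk_lt h1
      omega
    · rw [h1]
      omega
  have hn' : r ∉ (JJ P k (Finset.range N)).restrictScalars k := hn
  obtain ⟨ℓ, hℓr, hℓ⟩ := Submodule.exists_le_ker_of_notMem hn'
  have hℓJ : ∀ p ∈ JJ P k (Finset.range N), ℓ p = 0 := fun p hp => hℓ hp
  apply hℓr
  set f : Finset P → k := fun F => ℓ (∏ x ∈ F, X x) with hf
  have hfZ : f ∈ ZZ k (⊤ : P) := by
    refine ⟨?_, ?_⟩
    · intro F hF
      exact hℓJ _ (prod_mem_JJ h0 hN hF)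
    · intro F s hs
      have h1 : ∀ x ∈ Finset.univ.filter (fun x : P => rk x = s), f (insert x F) =
          ℓ (X x * ∏ y ∈ F, X y) := by
        intro x hx
        simp only [Finset.mem_filter, Finset.mem_univ, true_and] at hx
        simp only [hf]
        rw [Finset.prod_insert]
        intro hh
        exact hs (mem_ty.2 ⟨x, hh, hx⟩)
      rw [Finset.sum_congr rfl h1, ← map_sum, ← Finset.sum_mul, ← th_eq]
      by_cases hsN : s < N
      · exact hℓJ _ (Ideal.mul_mem_right _ _ (th_mem (Finset.mem_range.2 hsN)))
      · have : th P k s = 0 := by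
          rw [th_eq]
          apply Finset.sum_eq_zero
          intro x hx
          simp only [Finset.mem_filter, Finset.mem_univ, true_and] at hx
          have := hrkN x
          omega
        rw [this, zero_mul, map_zero]
  rw [← hr f hfZ]
  -- the value of the functional on monomials
  have hmono : ∀ d : P →₀ ℕ, (∀ F : Finset P, d ≠ mon F) → ℓ (monomial d 1) = 0 := by
    intro d hd
    apply hℓJ
    have hex : ∃ x, 2 ≤ d x := by
      by_contra hc
      push Not at hc
      apply hd d.support
      ext x
      rw [mon_apply]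
      have h1 := hc x
      split_ifs with h2
      · rw [Finsupp.mem_support_iff] at h2
        omega
      · rw [Finsupp.notMem_support_iff] at h2
        exact h2
    obtain ⟨x, hx⟩ := hex
    have h1 : (monomial d 1 : MvPolynomial P k) =
        (X x * X x) * monomial (d - Finsupp.single x 2) 1 := by
      rw [X, monomial_mul, monomial_mul, one_mul, one_mul, ← Finsupp.single_add]
      congr 1
      rw [add_tsub_cancel_of_le]
      rw [Finsupp.single_le_iff]
      exact hx
    rw [h1]
    exact Ideal.mul_mem_right _ _ (X_sq_mem (hrkN x))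
  have h2 : ℓ r = ∑ d ∈ r.support, coeff d r * ℓ (monomial d 1) := by
    conv_lhs => rw [r.as_sum, map_sum]
    apply Finset.sum_congr rfl
    intro d _
    have : (monomial d (coeff d r) : MvPolynomial P k) = coeff d r • monomial d 1 := by
      rw [smul_monomial, smul_eq_mul, mul_one]
    rw [this, map_smul, smul_eq_mul]
  rw [h2, dp]
  have h3 : ∀ F : Finset P, hat r F * f F = coeff (mon F) r * ℓ (monomial (mon F) 1) := by
    intro F
    simp only [hat, hf]
    rw [prod_X_eq]
  simp only [h3]
  rw [← Finset.sum_image (s := Finset.univ) (g := fun F : Finset P => mon F)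
    (f := fun d => coeff d r * ℓ (monomial d 1)) (fun F _ G _ h => mon_inj h)]
  rw [Finset.sum_subset (Finset.subset_union_left (s₂ := Finset.univ.image
      (fun F : Finset P => mon F))) (fun d _ hd => by
        rw [notMem_support_iff.1 hd, zero_mul])]
  symm
  apply Finset.sum_subset Finset.subset_union_right
  intro d _ hd
  rw [hmono d, mul_zero]
  rintro F rfl
  exact hd (Finset.mem_image_of_mem _ (Finset.mem_univ F))

theorem degree_mon (F : Finset P) : (mon F).degree = F.card := by
  rw [mon, map_sum]
  simp

/-- The lower half of the kernel of multiplication by the generic linear form. -/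
theorem main_poly [Algebra (ZMod 2) k] [CharP k 2] {c : P → k}
    (hc : AlgebraicIndependent (ZMod 2) c) (h0 : rk (⊥ : P) = 0) (ht : Thin P) {m : ℕ}
    (hm : rk (⊤ : P) = 2 * m + 1) (hreg : ∀ z : P, RegProp k z)
    {i : ℕ} (hi : i < m) {p : MvPolynomial P k} (hp : p.IsHomogeneous i)
    (hmem : (∑ x : P, MvPolynomial.C (c x) * X x) * p ∈ JJ P k (Finset.range (2 * m + 2))) :
    (i = 0 ∧ p ∈ JJ P k (Finset.range (2 * m + 2))) ∨
    (0 < i ∧ ∃ q : MvPolynomial P k, q.IsHomogeneous (i - 1) ∧
      p - (∑ x : P, MvPolynomial.C (c x) * X x) * q ∈ JJ P k (Finset.range (2 * m + 2))) := by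
  have hp0 : ∀ F : Finset P, F.card ≠ i → hat p F = 0 := by
    intro F hF
    simp only [hat]
    apply hp.coeff_eq_zero
    rw [degree_mon]
    exact hF
  have hflag : ∀ Φ : Fl (⊤ : P), Φ.1.card = 2 * m := by
    intro Φ
    have := Φ.2.card
    omega
  -- the dual element is closed
  have h1 : nu (⊤ : P) (om c (hat p)) = 0 := by
    apply eq_zero_of_dp
    intro p'
    rw [← dp_nu, dp_comm, ← hat_om]
    exact dp_hat_JJ hmem (nu_mem h0 ht p')
  have h2 : Ge (m + 1) (nu (⊤ : P) (hat p)) := by
    intro G hG
    rw [nu_apply]
    apply Finset.sum_eq_zero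
    intro Φ hΦ
    simp only [Finset.mem_filter, Finset.mem_univ, true_and] at hΦ
    apply hp0
    rw [Finset.card_sdiff_of_subset hΦ, hflag]
    omega
  obtain ⟨g, gZ, gd⟩ := upper_top hc h0 ht hreg hm (nu (⊤ : P) (hat p)) (nu_mem h0 ht _) h2
    (by rw [← nu_om, h1])
  obtain ⟨q2, hq2⟩ := ZZ_le_range h0 ht (hreg ⊤) gZ
  set S : Finset (Finset P) := Finset.univ.filter (fun F : Finset P => F.card + 1 = i) with hS
  set q : MvPolynomial P k := ∑ F ∈ S, q2 F • ∏ x ∈ F, X x with hq
  have hhat : ∀ F : Finset P, hat q F = if F.card + 1 = i then q2 F else 0 := by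
    intro F
    simp only [hat, hq]
    rw [coeff_sum]
    have h3 : ∀ G ∈ S, coeff (mon F) (q2 G • ∏ x ∈ G, (X x : MvPolynomial P k)) =
        if G = F then q2 F else 0 := by
      intro G _
      rw [coeff_smul, prod_X_eq, coeff_monomial, smul_eq_mul]
      by_cases h4 : G = F
      · rw [if_pos h4, if_pos (by rw [h4]), h4, mul_one]
      · rw [if_neg h4, if_neg (fun h => h4 (mon_inj h)), mul_zero]
    rw [Finset.sum_congr rfl h3, Finset.sum_ite_eq']
    simp only [hS, Finset.mem_filter, Finset.mem_univ, true_and]
  have hqh : q.IsHomogeneous (i - 1) := by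
    apply IsHomogeneous.sum
    intro F hF
    simp only [hS, Finset.mem_filter, Finset.mem_univ, true_and] at hF
    rw [smul_eq_C_mul]
    apply IsHomogeneous.C_mul
    rw [prod_X_eq]
    apply isHomogeneous_monomial
    rw [degree_mon]
    omega
  have hkey : p - (∑ x : P, MvPolynomial.C (c x) * X x) * q ∈
      JJ P k (Finset.range (2 * m + 2)) := by
    apply mem_JJ_of_dp h0 (by omega)
    intro f hf
    obtain ⟨f', hf'⟩ := ZZ_le_range h0 ht (hreg ⊤) hf
    rw [← hf', ← dp_nu]
    have h5 : nu (⊤ : P) (hat (p - (∑ x : P, MvPolynomial.C (c x) * X x) * q)) = 0 := by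
      rw [hat_sub, hat_om, map_sub, sub_eq_zero, ← gd, ← hq2, ← nu_om]
      have h6 : nu (⊤ : P) (hat p) = nu (⊤ : P) (om c q2) := by
        rw [nu_om, hq2, gd]
      ext G
      rw [nu_apply, nu_apply]
      by_cases hG : G.card + i = 2 * m
      · apply Finset.sum_congr rfl
        intro Φ hΦ
        simp only [Finset.mem_filter, Finset.mem_univ, true_and] at hΦ
        rw [om_apply, om_apply]
        apply Finset.sum_congr rfl
        intro x hx
        rw [hhat, if_pos]
        rw [Finset.card_erase_of_mem hx, Finset.card_sdiff_of_subset hΦ, hflag]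
        have := Finset.card_pos.2 ⟨x, hx⟩
        rw [Finset.card_sdiff_of_subset hΦ, hflag] at this
        omega
      · have h7 := congrFun h6 G
        rw [nu_apply, nu_apply] at h7
        rw [← h7]
        apply Finset.sum_congr rfl
        intro Φ hΦ
        simp only [Finset.mem_filter, Finset.mem_univ, true_and] at hΦ
        have h8 := Finset.card_sdiff_of_subset hΦ
        rw [hflag] at h8
        have h9 := Finset.card_le_card hΦ
        rw [hflag] at h9
        rw [hp0 _ (by omega), om_apply]
        symm
        apply Finset.sum_eq_zero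
        intro x hx
        have h10 := Finset.card_pos.2 ⟨x, hx⟩
        rw [hhat, if_neg, mul_zero]
        rw [Finset.card_erase_of_mem hx]
        omega
    rw [h5]
    simp [dp]
  rcases Nat.eq_zero_or_pos i with hi0 | hi0
  · left
    refine ⟨hi0, ?_⟩
    have hq0 : q = 0 := by
      rw [hq]
      apply Finset.sum_eq_zero
      intro F hF
      simp only [hS, Finset.mem_filter, Finset.mem_univ, true_and] at hF
      omega
    rw [hq0, mul_zero, sub_zero] at hkey
    exact hkey
  · right
    exact ⟨hi0, q, hqh, hkey⟩

end Pool.Agent.Lib.MP_5bb951_co
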