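import Pool.Agent.Lib.MP_5bb951_co.Basic

set_option autoImplicit false
set_option linter.unusedSectionVars false
set_option linter.unusedVariables false

open Classical

namespace Pool.Agent.Lib.MP_5bb951_co

universe u v

variable {P : Type u} [PartialOrder P] [Fintype P] [BoundedOrder P] [GradeOrder ℕ P]

/-- The type of flags (maximal chains) of `(⊥, z)`. -/
def Fl (z : P) : Type u := {Φ : Finset P // IsFlag z Φ}

noncomputable instance (z : P) : Fintype (Fl z) := by
  unfold Fl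
  infer_instance

variable (k : Type v) [Field k]

/-- Functions on flags which depend only on the elements whose rank lies in `S`. -/
def C (z : P) (S : Finset ℕ) : Submodule k (Fl z → k) where
  carrier := {φ | ∀ Φ Ψ : Fl z, res S Φ.1 = res S Ψ.1 → φ Φ = φ Ψ}
  add_mem' := by
    intro a b ha hb Φ Ψ h
    simp only [Pi.add_apply]
    rw [ha Φ Ψ h, hb Φ Ψ h]
  zero_mem' := by
    intro Φ Ψ _
    rfl
  smul_mem' := by
    intro c a ha Φ Ψ h
    simp only [Pi.smul_apply]
    rw [ha Φ Ψ h]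

variable {k}

theorem mem_C {z : P} {S : Finset ℕ} {φ : Fl z → k} :
    φ ∈ C k z S ↔ ∀ Φ Ψ : Fl z, res S Φ.1 = res S Ψ.1 → φ Φ = φ Ψ := Iff.rfl

theorem C_mono {z : P} {S T : Finset ℕ} (h : S ⊆ T) : C k z S ≤ C k z T := by
  intro φ hφ Φ Ψ hr
  apply hφ
  rw [← res_res_of_subset h, hr, res_res_of_subset h]

theorem C_mul {z : P} {S T : Finset ℕ} {φ ψ : Fl z → k} (hφ : φ ∈ C k z S) (hψ : ψ ∈ C k z T) :
    φ * ψ ∈ C k z (S ∪ T) := by
  intro Φ Ψ hr
  simp only [Pi.mul_apply]
  rw [C_mono Finset.subset_union_left hφ Φ Ψ hr, C_mono Finset.subset_union_right hψ Φ Ψ hr]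

theorem C_mul' {z : P} {S T U : Finset ℕ} {φ ψ : Fl z → k} (hφ : φ ∈ C k z S)
    (hψ : ψ ∈ C k z T) (hU : S ∪ T ⊆ U) : φ * ψ ∈ C k z U :=
  C_mono hU (C_mul hφ hψ)

theorem mem_C_top {z : P} (φ : Fl z → k) : φ ∈ C k z (II z) := by
  intro Φ Ψ hr
  rw [res_self Φ.2.1, res_self Ψ.2.1] at hr
  rw [Subtype.ext hr]

theorem one_mem_C {z : P} (S : Finset ℕ) : (1 : Fl z → k) ∈ C k z S := by
  intro Φ Ψ _
  rfl

variable (k) in
/-- The regularity property: a distributivity property of the spaces `C k z S`. -/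
def RegProp (z : P) : Prop :=
  ∀ D : Finset ℕ, D ⊆ II z → ∀ t ∈ D, ∀ A : Finset ℕ, A ⊆ D.erase t →
    C k z (D.erase t) ⊓ (⨆ a ∈ A, C k z (D.erase a)) ≤ ⨆ a ∈ A, C k z ((D.erase a).erase t)

theorem distrib {z : P} (hreg : RegProp k z) (A W : Finset ℕ) :
    ∀ D : Finset ℕ, D ⊆ II z → A ⊆ D → W ⊆ D → Disjoint A W → ∀ X : Fl z → k, X ∈ C k z D →
      (∀ i ∈ W, X ∈ C k z (D.erase i) ⊔ ⨆ j ∈ A, C k z (D.erase j)) →
      X ∈ C k z (D \ W) ⊔ ⨆ j ∈ A, C k z (D.erase j) := by
  induction W using Finset.induction_on with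
  | empty =>
    intro D hD hA hW hAW X hX h
    rw [Finset.sdiff_empty]
    exact Submodule.mem_sup_left hX
  | insert w W' hw ih =>
    intro D hD hA hW hAW X hX h
    obtain ⟨c, hc, b, hb, hcb⟩ := Submodule.mem_sup.1 (h w (Finset.mem_insert_self _ _))
    have hwD : w ∈ D := hW (Finset.mem_insert_self _ _)
    have hwA : w ∉ A := fun hh => Finset.disjoint_left.1 hAW hh (Finset.mem_insert_self _ _)
    have hAD' : A ⊆ D.erase w := fun a ha =>
      Finset.mem_erase.2 ⟨fun hh => hwA (hh ▸ ha), hA ha⟩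
    have hWD' : W' ⊆ D.erase w := fun a ha =>
      Finset.mem_erase.2 ⟨fun hh => hw (hh ▸ ha), hW (Finset.mem_insert_of_mem ha)⟩
    have key := ih (D.erase w) ((Finset.erase_subset _ _).trans hD) hAD' hWD'
      (Finset.disjoint_of_subset_right (Finset.subset_insert _ _) hAW) c hc ?_
    · have h1 : C k z (D.erase w \ W') ≤ C k z (D \ insert w W') := by
        apply C_mono
        intro x hx
        simp only [Finset.mem_sdiff, Finset.mem_erase, Finset.mem_insert] at hx ⊢
        tauto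
      have h2 : (⨆ j ∈ A, C k z ((D.erase w).erase j)) ≤ ⨆ j ∈ A, C k z (D.erase j) := by
        apply iSup₂_mono
        intro j hj
        apply C_mono
        exact Finset.erase_subset_erase _ (Finset.erase_subset _ _)
      rw [← hcb]
      exact Submodule.add_mem _ (sup_le_sup h1 h2 key) (Submodule.mem_sup_right hb)
    · intro i hi
      have hX' := h i (Finset.mem_insert_of_mem hi)
      have hc' : c ∈ ⨆ a ∈ insert i A, C k z (D.erase a) := by
        rw [Finset.iSup_insert]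
        have : c = X - b := by rw [← hcb]; simp
        rw [this]
        exact Submodule.sub_mem _ hX' (Submodule.mem_sup_right hb)
      have := hreg D hD w hwD (insert i A) ?_ ⟨hc, hc'⟩
      · rw [Finset.iSup_insert] at this
        simp only [Finset.erase_right_comm (a := w)]
        exact this
      · intro a ha
        rcases Finset.mem_insert.1 ha with rfl | ha
        · exact hWD' hi
        · exact hAD' ha

theorem star {z : P} (hreg : RegProp k z) (A W : Finset ℕ) (hAI : A ⊆ II z) (hWI : W ⊆ II z)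
    (hAW : Disjoint A W) (φ : Fl z → k) (hφ : φ ∈ C k z A)
    (h : φ ∈ ⨆ a ∈ A, C k z ((A ∪ W).erase a)) : φ ∈ ⨆ a ∈ A, C k z (A.erase a) := by
  induction W using Finset.induction_on with
  | empty => simpa using h
  | insert w W' hw ih =>
    have hwA : w ∉ A := fun hh => Finset.disjoint_left.1 hAW hh (Finset.mem_insert_self _ _)
    apply ih ((Finset.subset_insert _ _).trans hWI)
      (Finset.disjoint_of_subset_right (Finset.subset_insert _ _) hAW)
    have hEr : (A ∪ insert w W').erase w = A ∪ W' := by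
      ext x
      simp only [Finset.mem_erase, Finset.mem_union, Finset.mem_insert]
      constructor
      · tauto
      · rintro (hx | hx)
        · exact ⟨fun hh => hwA (hh ▸ hx), Or.inl hx⟩
        · exact ⟨fun hh => hw (hh ▸ hx), Or.inr (Or.inr hx)⟩
    have := hreg (A ∪ insert w W') (Finset.union_subset hAI hWI) w
      (Finset.mem_union_right _ (Finset.mem_insert_self _ _)) A ?_
      ⟨?_, h⟩
    · rw [← hEr]
      simp only [Finset.erase_right_comm (a := w)]
      exact this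
    · rw [hEr]
      exact Finset.subset_union_left
    · rw [hEr]
      exact C_mono Finset.subset_union_left hφ

variable [CharP k 2]

theorem sum_eq_zero_of_mem {z : P} (h0 : rk (⊥ : P) = 0) (ht : Thin P) {j : ℕ} (hj : j ∈ II z)
    {φ : Fl z → k} (hφ : φ ∈ C k z ((II z).erase j)) : ∑ Φ, φ Φ = 0 := by
  have hfl : ∀ Φ : Fl z, ∃ Ψ : Fl z, Ψ ≠ Φ ∧ res ((II z).erase j) Ψ.1 = res ((II z).erase j) Φ.1 ∧
      ∀ Ξ : Fl z, res ((II z).erase j) Ξ.1 = res ((II z).erase j) Φ.1 → Ξ = Φ ∨ Ξ = Ψ := by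
    intro Φ
    obtain ⟨Ψ, h1, h2, h3, h4⟩ := Φ.2.flip h0 ht hj
    refine ⟨⟨Ψ, h1⟩, fun hh => h2 (congrArg Subtype.val hh), h3, ?_⟩
    intro Ξ hΞ
    rcases h4 Ξ.1 Ξ.2 hΞ with hh | hh
    · exact Or.inl (Subtype.ext hh)
    · exact Or.inr (Subtype.ext hh)
  choose σ hσ1 hσ2 hσ3 using hfl
  apply Finset.sum_involution (fun Φ _ => σ Φ)
  · intro Φ _
    rw [hφ (σ Φ) Φ (hσ2 Φ)]
    exact CharTwo.add_self_eq_zero _
  · intro Φ _ _
    exact hσ1 Φ
  · intro Φ _
    exact Finset.mem_univ _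
  · intro Φ _
    rcases hσ3 Φ (σ (σ Φ)) ((hσ2 (σ Φ)).trans (hσ2 Φ)) with hh | hh
    · exact hh
    · exact absurd hh (hσ1 (σ Φ))

theorem dual_flag {z : P} (h0 : rk (⊥ : P) = 0) (ht : Thin P) (hreg : RegProp k z)
    {A : Finset ℕ} (hA : A ⊆ II z) {φ : Fl z → k} (hφ : φ ∈ C k z A)
    (h : ∀ Ψ : Fl z, ∑ Φ ∈ Finset.univ.filter
      (fun Φ : Fl z => res (II z \ A) Φ.1 = res (II z \ A) Ψ.1), φ Φ = 0) :
    φ ∈ ⨆ a ∈ A, C k z (A.erase a) := by
  apply star hreg A (II z \ A) hA Finset.sdiff_subset Finset.disjoint_sdiff φ hφ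
  rw [Finset.union_sdiff_of_subset hA]
  rw [← Subspace.forall_mem_dualAnnihilator_apply_eq_zero_iff]
  intro ℓ hℓ
  set ψ : Fl z → k := fun Φ => ℓ (Pi.single Φ 1) with hψ
  have hℓψ : ∀ f : Fl z → k, ℓ f = ∑ Φ, ψ Φ * f Φ := by
    intro f
    conv_lhs => rw [← Finset.univ_sum_single f]
    rw [map_sum]
    apply Finset.sum_congr rfl
    intro Φ _
    have : (Pi.single Φ (f Φ) : Fl z → k) = f Φ • Pi.single Φ 1 := by
      rw [← Pi.single_smul, smul_eq_mul, mul_one]
    rw [this, map_smul, smul_eq_mul, mul_comm]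
  have hψC : ∀ a ∈ A, ψ ∈ C k z ((II z).erase a) := by
    intro a ha Φ Ψ hr
    by_cases hne : Φ = Ψ
    · rw [hne]
    · obtain ⟨Ξ, h1, h2, h3, h4⟩ := Φ.2.flip h0 ht (hA ha)
      have hΨΞ : Ψ.1 = Ξ := by
        rcases h4 Ψ.1 Ψ.2 hr.symm with hh | hh
        · exact absurd (Subtype.ext hh.symm) hne
        · exact hh
      set δ : Fl z → k := fun Θ => if res ((II z).erase a) Θ.1 = res ((II z).erase a) Φ.1
        then 1 else 0 with hδ
      have hδC : δ ∈ C k z ((II z).erase a) := by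
        intro Θ Θ' hr'
        simp only [hδ, hr']
      have hδV : δ ∈ ⨆ a ∈ A, C k z ((II z).erase a) :=
        Submodule.mem_iSup_of_mem a (Submodule.mem_iSup_of_mem ha hδC)
      have hz : ℓ δ = 0 := (Submodule.mem_dualAnnihilator ℓ).1 hℓ δ hδV
      rw [hℓψ] at hz
      have hsum : ∑ Θ, ψ Θ * δ Θ = ψ Φ + ψ Ψ := by
        have : ∀ Θ, ψ Θ * δ Θ = if Θ ∈ ({Φ, Ψ} : Finset (Fl z)) then ψ Θ else 0 := by
          intro Θ
          have hiff : (res ((II z).erase a) Θ.1 = res ((II z).erase a) Φ.1) ↔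
              Θ ∈ ({Φ, Ψ} : Finset (Fl z)) := by
            rw [Finset.mem_insert, Finset.mem_singleton]
            constructor
            · intro hh
              rcases h4 Θ.1 Θ.2 hh with hh' | hh'
              · exact Or.inl (Subtype.ext hh')
              · exact Or.inr (Subtype.ext (hh'.trans hΨΞ.symm))
            · rintro (rfl | rfl)
              · rfl
              · exact hr.symm
          simp only [hδ]
          by_cases hc : res ((II z).erase a) Θ.1 = res ((II z).erase a) Φ.1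
          · rw [if_pos hc, if_pos (hiff.1 hc), mul_one]
          · rw [if_neg hc, if_neg (fun hh => hc (hiff.2 hh)), mul_zero]
        rw [Finset.sum_congr rfl (fun Θ _ => this Θ), Finset.sum_ite_mem, Finset.univ_inter,
          Finset.sum_pair hne]
      rw [hsum] at hz
      exact CharTwo.add_eq_zero.1 hz
  have hψ' : ψ ∈ C k z (II z \ A) := by
    have := distrib hreg ∅ A (II z) subset_rfl (Finset.empty_subset _) hA
      (Finset.disjoint_empty_left _) ψ (mem_C_top ψ) (by
        intro i hi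
        exact Submodule.mem_sup_left (hψC i hi))
    simpa using this
  rw [hℓψ]
  have hcl : ∑ Φ, ψ Φ * φ Φ = ∑ G : Finset P, ∑ Φ ∈ Finset.univ.filter
      (fun Φ : Fl z => res (II z \ A) Φ.1 = G), ψ Φ * φ Φ := by
    rw [Finset.sum_fiberwise]
  rw [hcl]
  apply Finset.sum_eq_zero
  intro G _
  by_cases hG : ∃ Ψ : Fl z, res (II z \ A) Ψ.1 = G
  · obtain ⟨Ψ, rfl⟩ := hG
    have : ∀ Φ ∈ Finset.univ.filter
        (fun Φ : Fl z => res (II z \ A) Φ.1 = res (II z \ A) Ψ.1), ψ Φ * φ Φ = ψ Ψ * φ Φ := by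
      intro Φ hΦ
      rw [Finset.mem_filter] at hΦ
      rw [hψ' Φ Ψ hΦ.2]
    rw [Finset.sum_congr rfl this, ← Finset.mul_sum, h Ψ, mul_zero]
  · rw [Finset.filter_eq_empty_iff.2 (fun Φ _ hΦ => hG ⟨Φ, hΦ⟩), Finset.sum_empty]

end Pool.Agent.Lib.MP_5bb951_co
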