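import Pool.Agent.Lib.MP_5bb951_co.CoreZero

set_option autoImplicit false
set_option linter.unusedSectionVars false
set_option linter.unusedVariables false

open Classical

namespace Pool.Agent.Lib.MP_5bb951_co

universe u v

variable {P : Type u} [PartialOrder P] [Fintype P] [BoundedOrder P] [GradeOrder ℕ P]
variable {k : Type v} [Field k]

theorem dd_mem [CharP k 2] {z : P} (h0 : rk (⊥ : P) = 0) (ht : Thin P) (hreg : RegProp k z)
    (c : P → k) {f : Finset P → k} (hf : f ∈ ZZ k z) : dd c f ∈ ZZ k z := by
  obtain ⟨q, rfl⟩ := ZZ_le_range h0 ht hreg hf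
  rw [← nu_om]
  exact nu_mem h0 ht _

theorem dd_dd [CharP k 2] (c : P → k) (f : Finset P → k) : dd c (dd c f) = 0 := by
  ext F
  simp only [dd_apply, Finset.mul_sum, Pi.zero_apply]
  rw [Finset.sum_sigma']
  refine Finset.sum_involution (fun p _ => ⟨p.2, p.1⟩) ?_ ?_ ?_ ?_
  · rintro ⟨x, y⟩ hp
    simp only
    rw [Finset.insert_comm y x]
    have : c x * (c y * f (insert x (insert y F))) = c y * (c x * f (insert x (insert y F))) := by
      ring
    rw [this]
    exact CharTwo.add_self_eq_zero _
  · rintro ⟨x, y⟩ hp _ heq
    simp only [Sigma.mk.injEq, heq_eq_eq] at heq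
    simp only [Finset.mem_sigma, Finset.mem_filter, Finset.mem_univ, true_and,
      Finset.mem_insert, not_or] at hp
    exact hp.2.1 heq.1
  · rintro ⟨x, y⟩ hp
    simp only [Finset.mem_sigma, Finset.mem_filter, Finset.mem_univ, true_and,
      Finset.mem_insert, not_or] at hp ⊢
    exact ⟨hp.2.2, fun hh => hp.2.1 hh.symm, hp.1⟩
  · intro p hp
    rfl

/-- `f` vanishes on sets containing an element whose rank satisfies `T`. -/
def Av (T : ℕ → Prop) (f : Finset P → k) : Prop := ∀ F : Finset P, ∀ x ∈ F, T (rk x) → f F = 0

/-- `f` vanishes on sets with less than `N` elements. -/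
def Ge (N : ℕ) (f : Finset P → k) : Prop := ∀ F : Finset P, F.card < N → f F = 0

/-- `f` is supported on sets all of whose elements are comparable to and different from `y`. -/
def Lk (y : P) (f : Finset P → k) : Prop :=
  ∀ F : Finset P, ∀ x ∈ F, ¬ (x < y ∨ y < x) → f F = 0

theorem Av.add {T : ℕ → Prop} {f g : Finset P → k} (hf : Av T f) (hg : Av T g) :
    Av T (f + g) := by
  intro F x hx hT
  rw [Pi.add_apply, hf F x hx hT, hg F x hx hT, add_zero]

theorem Ge.add {N : ℕ} {f g : Finset P → k} (hf : Ge N f) (hg : Ge N g) : Ge N (f + g) := by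
  intro F hF
  rw [Pi.add_apply, hf F hF, hg F hF, add_zero]

theorem Lk.add {y : P} {f g : Finset P → k} (hf : Lk y f) (hg : Lk y g) : Lk y (f + g) := by
  intro F x hx hT
  rw [Pi.add_apply, hf F x hx hT, hg F x hx hT, add_zero]

theorem Av.sum {ι : Type*} {T : ℕ → Prop} {s : Finset ι} {f : ι → Finset P → k}
    (hf : ∀ i ∈ s, Av T (f i)) : Av T (∑ i ∈ s, f i) := by
  intro F x hx hT
  rw [Finset.sum_apply]
  exact Finset.sum_eq_zero (fun i hi => hf i hi F x hx hT)

theorem Ge.sum {ι : Type*} {N : ℕ} {s : Finset ι} {f : ι → Finset P → k}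
    (hf : ∀ i ∈ s, Ge N (f i)) : Ge N (∑ i ∈ s, f i) := by
  intro F hF
  rw [Finset.sum_apply]
  exact Finset.sum_eq_zero (fun i hi => hf i hi F hF)

theorem Av.dd {T : ℕ → Prop} {f : Finset P → k} (hf : Av T f) (c : P → k) : Av T (dd c f) := by
  intro F x hx hT
  rw [dd_apply]
  apply Finset.sum_eq_zero
  intro y _
  rw [hf (insert y F) x (Finset.mem_insert_of_mem hx) hT, mul_zero]

theorem Lk.dd {y : P} {f : Finset P → k} (hf : Lk y f) (c : P → k) : Lk y (dd c f) := by
  intro F x hx hT
  rw [dd_apply]
  apply Finset.sum_eq_zero
  intro w _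
  rw [hf (insert w F) x (Finset.mem_insert_of_mem hx) hT, mul_zero]

theorem Ge.dd {N : ℕ} {f : Finset P → k} (hf : Ge (N + 1) f) (c : P → k) : Ge N (dd c f) := by
  intro F hF
  rw [dd_apply]
  apply Finset.sum_eq_zero
  intro w hw
  simp only [Finset.mem_filter, Finset.mem_univ, true_and] at hw
  rw [hf (insert w F) (by rw [Finset.card_insert_of_notMem hw]; omega), mul_zero]

/-- Truncation. -/
noncomputable def tr (N : ℕ) (f : Finset P → k) : Finset P → k :=
  fun F => if N ≤ F.card then f F else 0

theorem tr_mem {z : P} {N : ℕ} {f : Finset P → k} (hf : f ∈ ZZ k z) : tr N f ∈ ZZ k z := by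
  refine ⟨?_, ?_⟩
  · intro F hF
    simp only [tr]
    rw [hf.1 F hF, ite_self]
  · intro F s hs
    simp only [tr]
    have h1 : ∀ x ∈ Finset.univ.filter (fun x : P => rk x = s),
        (if N ≤ (insert x F).card then f (insert x F) else 0) =
        if N ≤ F.card + 1 then f (insert x F) else 0 := by
      intro x hx
      simp only [Finset.mem_filter, Finset.mem_univ, true_and] at hx
      rw [Finset.card_insert_of_notMem]
      intro hxF
      exact hs (mem_ty.2 ⟨x, hxF, hx⟩)
    rw [Finset.sum_congr rfl h1]
    by_cases hN : N ≤ F.card + 1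
    · simp only [if_pos hN]
      exact hf.2 F s hs
    · simp only [if_neg hN]
      simp

theorem dd_tr (c : P → k) (N : ℕ) (f : Finset P → k) : dd c (tr (N + 1) f) = tr N (dd c f) := by
  ext F
  simp only [tr, dd_apply]
  have h1 : ∀ x ∈ Finset.univ.filter (fun x : P => x ∉ F),
      c x * (if N + 1 ≤ (insert x F).card then f (insert x F) else 0) =
      if N ≤ F.card then c x * f (insert x F) else 0 := by
    intro x hx
    simp only [Finset.mem_filter, Finset.mem_univ, true_and] at hx
    rw [Finset.card_insert_of_notMem hx]
    by_cases hN : N ≤ F.card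
    · rw [if_pos (by omega), if_pos hN]
    · rw [if_neg (by omega), if_neg hN, mul_zero]
  rw [Finset.sum_congr rfl h1]
  by_cases hN : N ≤ F.card
  · simp only [if_pos hN]
  · simp only [if_neg hN]
    simp

theorem tr_of_Ge {N : ℕ} {f : Finset P → k} (hf : Ge N f) : tr N f = f := by
  ext F
  simp only [tr]
  by_cases hN : N ≤ F.card
  · rw [if_pos hN]
  · rw [if_neg hN, hf F (by omega)]

theorem Ge_tr (N : ℕ) (f : Finset P → k) : Ge N (tr N f) := by
  intro F hF
  simp only [tr]
  rw [if_neg (by omega)]

theorem Av.tr {T : ℕ → Prop} {f : Finset P → k} (hf : Av T f) (N : ℕ) : Av T (tr N f) := by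
  intro F x hx hT
  simp only [MP_5bb951_co.tr]
  rw [hf F x hx hT, ite_self]

theorem Lk.tr {y : P} {f : Finset P → k} (hf : Lk y f) (N : ℕ) : Lk y (tr N f) := by
  intro F x hx hT
  simp only [MP_5bb951_co.tr]
  rw [hf F x hx hT, ite_self]

/-- Exactness of the complex attached to `z`. -/
def Ex (c : P → k) (z : P) : Prop := ∀ f ∈ ZZ k z, dd c f = 0 → ∃ g ∈ ZZ k z, dd c g = f

/-- Exactness of a piece of the complex attached to `z`. -/
def PP (c : P → k) (z : P) (N : ℕ) (T : ℕ → Prop) : Prop :=
  ∀ f ∈ ZZ k z, Av T f → Ge N f → dd c f = 0 → ∃ g ∈ ZZ k z, Av T g ∧ dd c g = f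

/-- The contracting homotopy of an exact complex of vector spaces. -/
theorem exists_homotopy {V : Type*} [AddCommGroup V] [Module k V] (S : Submodule k V)
    (D : V →ₗ[k] V) (hDS : ∀ f ∈ S, D f ∈ S) (hDD : ∀ f ∈ S, D (D f) = 0)
    (hex : ∀ f ∈ S, D f = 0 → ∃ g ∈ S, D g = f) :
    ∃ h : V →ₗ[k] V, (∀ f ∈ S, h f ∈ S) ∧ ∀ f ∈ S, D (h f) + h (D f) = f := by
  -- restrict the differential to the space
  set d : S →ₗ[k] S := D.restrict hDS with hd
  have hdval : ∀ f : S, ((d f : S) : V) = D f := fun f => rfl
  -- surjection onto the kernel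
  have hdd0 : ∀ f : S, d (d f) = 0 := by
    intro f
    apply Subtype.ext
    rw [hdval, hdval, hDD f.1 f.2]
    rfl
  set d' : S →ₗ[k] LinearMap.ker d :=
    LinearMap.codRestrict (LinearMap.ker d) d (fun f => LinearMap.mem_ker.2 (hdd0 f)) with hd'
  have hsurj : LinearMap.range d' = ⊤ := by
    rw [LinearMap.range_eq_top]
    rintro ⟨f, hf⟩
    obtain ⟨g, hg, hgf⟩ := hex f.1 f.2 (by
      have := congrArg Subtype.val (LinearMap.mem_ker.1 hf)
      exact this)
    refine ⟨⟨g, hg⟩, ?_⟩
    apply Subtype.ext
    apply Subtype.ext
    exact hgf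
  obtain ⟨r, hr⟩ := d'.exists_rightInverse_of_surjective hsurj
  obtain ⟨p, hp⟩ := S.subtype.exists_leftInverse_of_injective
    (LinearMap.ker_eq_bot.2 (Submodule.subtype_injective _))
  have hrd : ∀ v : LinearMap.ker d, d (r v) = v := by
    intro v
    have := LinearMap.congr_fun hr v
    have h2 := congrArg Subtype.val this
    exact h2
  -- homotopy on the space : v ↦ r (v - r (d v))
  set e : S →ₗ[k] S := LinearMap.id - r ∘ₗ d' with he
  have hker : ∀ v : S, e v ∈ LinearMap.ker d := by
    intro v
    change (v - r (d' v)) ∈ LinearMap.ker d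
    rw [LinearMap.mem_ker, map_sub, hrd]
    exact sub_self _
  set s : S →ₗ[k] S :=
    r ∘ₗ LinearMap.codRestrict (LinearMap.ker d) e hker with hs
  have hsv : ∀ v : S, d (s v) + s (d v) = v := by
    intro v
    have h1 : d (s v) = v - r (d' v) := by
      rw [hs, LinearMap.comp_apply, hrd]
      rfl
    have h2 : s (d v) = r (d' v) := by
      rw [hs, LinearMap.comp_apply]
      congr 1
      apply Subtype.ext
      have h3 : d' (d v) = 0 := by
        apply Subtype.ext
        exact hdd0 v
      change d v - r (d' (d v)) = d v
      rw [h3, map_zero, sub_zero]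
    rw [h1, h2, sub_add_cancel]
  refine ⟨S.subtype ∘ₗ s ∘ₗ p, ?_, ?_⟩
  · intro f hf
    exact (s (p f)).2
  · intro f hf
    have hpf : p f = ⟨f, hf⟩ := LinearMap.congr_fun hp ⟨f, hf⟩
    have hpd : p (D f) = d ⟨f, hf⟩ := LinearMap.congr_fun hp (d ⟨f, hf⟩)
    have := congrArg Subtype.val (hsv ⟨f, hf⟩)
    simp only [LinearMap.comp_apply, hpf, hpd]
    exact this

theorem Ex.homotopy [CharP k 2] {c : P → k} {y : P} (hy : Ex c y) (h0 : rk (⊥ : P) = 0)
    (ht : Thin P) (hreg : RegProp k y) :
    ∃ h : (Finset P → k) →ₗ[k] (Finset P → k), (∀ f ∈ ZZ k y, h f ∈ ZZ k y) ∧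
      ∀ f ∈ ZZ k y, dd c (h f) + h (dd c f) = f :=
  exists_homotopy (ZZ k y) (dd c) (fun f hf => dd_mem h0 ht hreg c hf)
    (fun f _ => dd_dd c f) hy

/-- The elements of `F` below `y`. -/
noncomputable def lo (y : P) (F : Finset P) : Finset P := F.filter (fun x => x < y)

/-- The elements of `F` above `y`. -/
noncomputable def hi (y : P) (F : Finset P) : Finset P := F.filter (fun x => y < x)

theorem mem_lo {y : P} {F : Finset P} {x : P} : x ∈ lo y F ↔ x ∈ F ∧ x < y := by simp [lo]

theorem mem_hi {y : P} {F : Finset P} {x : P} : x ∈ hi y F ↔ x ∈ F ∧ y < x := by simp [hi]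

theorem lo_union_hi {y : P} {F : Finset P} (h : ∀ x ∈ F, x < y ∨ y < x) :
    lo y F ∪ hi y F = F := by
  ext x
  simp only [Finset.mem_union, mem_lo, mem_hi]
  constructor
  · rintro (hx | hx)
    · exact hx.1
    · exact hx.1
  · intro hx
    rcases h x hx with hh | hh
    · exact Or.inl ⟨hx, hh⟩
    · exact Or.inr ⟨hx, hh⟩

theorem lo_insert_lt {y x : P} {F : Finset P} (h : x < y) :
    lo y (insert x F) = insert x (lo y F) := by
  ext w
  simp only [mem_lo, Finset.mem_insert]
  constructor
  · rintro ⟨hw | hw, hw2⟩
    · exact Or.inl hw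
    · exact Or.inr ⟨hw, hw2⟩
  · rintro (rfl | hw)
    · exact ⟨Or.inl rfl, h⟩
    · exact ⟨Or.inr hw.1, hw.2⟩

theorem hi_insert_lt {y x : P} {F : Finset P} (h : x < y) : hi y (insert x F) = hi y F := by
  ext w
  simp only [mem_hi, Finset.mem_insert]
  constructor
  · rintro ⟨rfl | hw, hw2⟩
    · exact absurd (h.trans hw2) (lt_irrefl _)
    · exact ⟨hw, hw2⟩
  · rintro ⟨hw1, hw2⟩
    exact ⟨Or.inr hw1, hw2⟩

theorem lo_insert_gt {y x : P} {F : Finset P} (h : y < x) : lo y (insert x F) = lo y F := by
  ext w
  simp only [mem_lo, Finset.mem_insert]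
  constructor
  · rintro ⟨rfl | hw, hw2⟩
    · exact absurd (h.trans hw2) (lt_irrefl _)
    · exact ⟨hw, hw2⟩
  · rintro ⟨hw1, hw2⟩
    exact ⟨Or.inr hw1, hw2⟩

theorem hi_insert_gt {y x : P} {F : Finset P} (h : y < x) :
    hi y (insert x F) = insert x (hi y F) := by
  ext w
  simp only [mem_hi, Finset.mem_insert]
  constructor
  · rintro ⟨hw | hw, hw2⟩
    · exact Or.inl hw
    · exact Or.inr ⟨hw, hw2⟩
  · rintro (rfl | hw)
    · exact ⟨Or.inl rfl, h⟩
    · exact ⟨Or.inr hw.1, hw.2⟩

/-- The section of `f` at a set of elements above `y`. -/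
noncomputable def sec (y : P) (G : Finset P) (f : Finset P → k) : Finset P → k :=
  fun F => if ∀ x ∈ F, x < y then f (F ∪ G) else 0

/-- The extension of an operator to the link. -/
noncomputable def hx (y : P) (h : (Finset P → k) →ₗ[k] (Finset P → k)) (f : Finset P → k) :
    Finset P → k :=
  fun F => if ∀ x ∈ F, x < y ∨ y < x then h (sec y (hi y F) f) (lo y F) else 0

theorem sec_mem {y z : P} {f : Finset P → k} (hf : f ∈ ZZ k z) (hL : Lk y f) {G : Finset P}
    (hG : ∀ x ∈ G, y < x) : sec y G f ∈ ZZ k y := by
  refine ⟨?_, ?_⟩
  · intro F hF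
    simp only [sec]
    by_cases hlt : ∀ x ∈ F, x < y
    · rw [if_pos hlt]
      by_contra hne
      apply hF
      have hch : IsCh z (F ∪ G) := by
        by_contra hh
        exact hne (hf.1 _ hh)
      refine ⟨fun x hx => ⟨(hch.1 x (Finset.mem_union_left _ hx)).1, hlt x hx⟩, ?_⟩
      intro x hx w hw
      exact hch.2 x (Finset.mem_union_left _ hx) w (Finset.mem_union_left _ hw)
    · rw [if_neg hlt]
  · intro F s hs
    simp only [sec]
    by_cases hlt : ∀ x ∈ F, x < y
    · by_cases hsy : s < rk y
      · have hsFG : s ∉ ty (F ∪ G) := by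
          rw [ty_union, Finset.mem_union]
          rintro (hh | hh)
          · exact hs hh
          · obtain ⟨w, hw, hwr⟩ := mem_ty.1 hh
            have := rk_lt (hG w hw)
            omega
        refine Eq.trans ?_ (hf.2 (F ∪ G) s hsFG)
        apply Finset.sum_congr rfl
        intro x hx
        simp only [Finset.mem_filter, Finset.mem_univ, true_and] at hx
        by_cases hxy : x < y
        · rw [if_pos, Finset.insert_union]
          intro w hw
          rcases Finset.mem_insert.1 hw with rfl | hw
          · exact hxy
          · exact hlt w hw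
        · rw [if_neg]
          · symm
            apply hL _ x (Finset.mem_insert_self _ _)
            rintro (hh | hh)
            · exact hxy hh
            · have := rk_lt hh
              omega
          · intro hh
            exact hxy (hh x (Finset.mem_insert_self _ _))
      · apply Finset.sum_eq_zero
        intro x hx
        simp only [Finset.mem_filter, Finset.mem_univ, true_and] at hx
        rw [if_neg]
        intro hh
        have := rk_lt (hh x (Finset.mem_insert_self _ _))
        omega
    · apply Finset.sum_eq_zero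
      intro x hx
      rw [if_neg]
      intro hh
      exact hlt (fun w hw => hh w (Finset.mem_insert_of_mem hw))

theorem Lk_hx (y : P) (h : (Finset P → k) →ₗ[k] (Finset P → k)) (f : Finset P → k) :
    Lk y (hx y h f) := by
  intro F x hxF hn
  simp only [hx]
  rw [if_neg]
  intro hh
  exact hn (hh x hxF)

theorem Av_hx {y : P} (h : (Finset P → k) →ₗ[k] (Finset P → k)) {f : Finset P → k}
    {T : ℕ → Prop} (hT : ∀ s, T s → rk y < s) (hf : Av T f) : Av T (hx y h f) := by
  intro F x hxF hTx
  simp only [hx]
  split_ifs with hh
  · have hyx : y < x := by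
      rcases hh x hxF with h1 | h1
      · have := rk_lt h1
        have := hT _ hTx
        omega
      · exact h1
    have hs : sec y (hi y F) f = 0 := by
      ext F'
      simp only [sec, Pi.zero_apply]
      split_ifs with h2
      · exact hf _ x (Finset.mem_union_right _ (mem_hi.2 ⟨hxF, hyx⟩)) hTx
      · rfl
    rw [hs, map_zero]
    rfl
  · rfl

theorem hx_mem {y z : P} (hyz : y < z) {h : (Finset P → k) →ₗ[k] (Finset P → k)}
    (hh : ∀ f ∈ ZZ k y, h f ∈ ZZ k y) {f : Finset P → k} (hf : f ∈ ZZ k z) (hL : Lk y f) :
    hx y h f ∈ ZZ k z := by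
  refine ⟨?_, ?_⟩
  · intro F hF
    simp only [hx]
    split_ifs with hlk
    · by_contra hne
      apply hF
      have hlo : IsCh y (lo y F) := by
        by_contra hc
        exact hne ((hh _ (sec_mem hf hL (fun x hx => (mem_hi.1 hx).2))).1 _ hc)
      have hhi : IsCh z (hi y F) := by
        by_contra hc
        apply hne
        have hs : sec y (hi y F) f = 0 := by
          ext F'
          simp only [sec, Pi.zero_apply]
          split_ifs with h2
          · apply hf.1
            intro hc2
            exact hc (hc2.mono Finset.subset_union_right)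
          · rfl
        rw [hs, map_zero]
        rfl
      refine ⟨?_, ?_⟩
      · intro x hxF
        rcases hlk x hxF with h1 | h1
        · exact ⟨(hlo.1 x (mem_lo.2 ⟨hxF, h1⟩)).1, h1.trans hyz⟩
        · exact hhi.1 x (mem_hi.2 ⟨hxF, h1⟩)
      · intro x hxF w hwF
        rcases hlk x hxF with h1 | h1
        · rcases hlk w hwF with h2 | h2
          · exact hlo.2 x (mem_lo.2 ⟨hxF, h1⟩) w (mem_lo.2 ⟨hwF, h2⟩)
          · exact Or.inl (h1.trans h2).le
        · rcases hlk w hwF with h2 | h2
          · exact Or.inr (h2.trans h1).le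
          · exact hhi.2 x (mem_hi.2 ⟨hxF, h1⟩) w (mem_hi.2 ⟨hwF, h2⟩)
    · rfl
  · intro F s hs
    by_cases hlk : ∀ x ∈ F, x < y ∨ y < x
    · rcases lt_trichotomy s (rk y) with hsy | hsy | hsy
      · have hslo : s ∉ ty (lo y F) := by
          intro h1
          obtain ⟨w, hw, hwr⟩ := mem_ty.1 h1
          exact hs (mem_ty.2 ⟨w, (mem_lo.1 hw).1, hwr⟩)
        have hZ := hh _ (sec_mem hf hL (G := hi y F) (fun x hx => (mem_hi.1 hx).2))
        rw [← hZ.2 (lo y F) s hslo]
        apply Finset.sum_congr rfl
        intro x hx1
        simp only [Finset.mem_filter, Finset.mem_univ, true_and] at hx1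
        simp only [hx]
        by_cases hxy : x < y
        · rw [if_pos, lo_insert_lt hxy, hi_insert_lt hxy]
          intro w hw
          rcases Finset.mem_insert.1 hw with rfl | hw
          · exact Or.inl hxy
          · exact hlk w hw
        · rw [if_neg]
          · symm
            apply hZ.1
            intro hc
            exact hxy (hc.1 x (Finset.mem_insert_self _ _)).2
          · intro hc
            rcases hc x (Finset.mem_insert_self _ _) with h1 | h1
            · exact hxy h1
            · have := rk_lt h1
              omega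
      · apply Finset.sum_eq_zero
        intro x hx1
        simp only [Finset.mem_filter, Finset.mem_univ, true_and] at hx1
        simp only [hx]
        rw [if_neg]
        intro hc
        rcases hc x (Finset.mem_insert_self _ _) with h1 | h1
        · have := rk_lt h1
          omega
        · have := rk_lt h1
          omega
      · have h1 : ∀ x ∈ Finset.univ.filter (fun x : P => rk x = s),
            hx y h f (insert x F) =
            h (if y < x then sec y (insert x (hi y F)) f else 0) (lo y F) := by
          intro x hx1
          simp only [Finset.mem_filter, Finset.mem_univ, true_and] at hx1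
          simp only [hx]
          by_cases hyx : y < x
          · rw [if_pos, if_pos hyx, lo_insert_gt hyx, hi_insert_gt hyx]
            intro w hw
            rcases Finset.mem_insert.1 hw with rfl | hw
            · exact Or.inr hyx
            · exact hlk w hw
          · rw [if_neg, if_neg hyx, map_zero]
            · rfl
            · intro hc
              rcases hc x (Finset.mem_insert_self _ _) with h2 | h2
              · have := rk_lt h2
                omega
              · exact hyx h2
        rw [Finset.sum_congr rfl h1, ← Finset.sum_apply, ← map_sum]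
        have h2 : ∑ x ∈ Finset.univ.filter (fun x : P => rk x = s),
            (if y < x then sec y (insert x (hi y F)) f else 0) = 0 := by
          ext F'
          rw [Finset.sum_apply, Pi.zero_apply]
          by_cases hF' : ∀ x ∈ F', x < y
          · have hsF' : s ∉ ty (F' ∪ hi y F) := by
              rw [ty_union, Finset.mem_union]
              rintro (h3 | h3)
              · obtain ⟨w, hw, hwr⟩ := mem_ty.1 h3
                have := rk_lt (hF' w hw)
                omega
              · obtain ⟨w, hw, hwr⟩ := mem_ty.1 h3
                exact hs (mem_ty.2 ⟨w, (mem_hi.1 hw).1, hwr⟩)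
            rw [← hf.2 (F' ∪ hi y F) s hsF']
            apply Finset.sum_congr rfl
            intro x hx1
            simp only [Finset.mem_filter, Finset.mem_univ, true_and] at hx1
            by_cases hyx : y < x
            · rw [if_pos hyx]
              simp only [sec]
              rw [if_pos hF', Finset.union_insert]
            · rw [if_neg hyx, Pi.zero_apply]
              symm
              apply hL _ x (Finset.mem_insert_self _ _)
              rintro (h4 | h4)
              · have := rk_lt h4
                omega
              · exact hyx h4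
          · apply Finset.sum_eq_zero
            intro x _
            split_ifs
            · simp only [sec]
              rw [if_neg hF']
            · rfl
        rw [h2, map_zero]
        rfl
    · apply Finset.sum_eq_zero
      intro x _
      simp only [hx]
      rw [if_neg]
      intro hc
      exact hlk (fun w hw => hc w (Finset.mem_insert_of_mem hw))

theorem dd_hx [CharP k 2] {y z : P} {c : P → k} {h : (Finset P → k) →ₗ[k] (Finset P → k)}
    (hh : ∀ f ∈ ZZ k y, h f ∈ ZZ k y) (hh2 : ∀ f ∈ ZZ k y, dd c (h f) + h (dd c f) = f)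
    {f : Finset P → k} (hf : f ∈ ZZ k z) (hL : Lk y f) (hdd : dd c f = 0) :
    dd c (hx y h f) = f := by
  ext F
  by_cases hlk : ∀ x ∈ F, x < y ∨ y < x
  · set G := hi y F with hG
    set L := lo y F with hLo
    have hGy : ∀ x ∈ G, y < x := fun x hx => (mem_hi.1 hx).2
    have hFLG : L ∪ G = F := lo_union_hi hlk
    have hsG : sec y G f ∈ ZZ k y := sec_mem hf hL hGy
    -- the differential of the section
    have hsec : dd c (sec y G f) = ∑ x ∈ Finset.univ.filter (fun x : P => x ∉ G ∧ y < x),
        c x • sec y (insert x G) f := by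
      ext F'
      rw [Finset.sum_apply]
      simp only [Pi.smul_apply, smul_eq_mul]
      by_cases hF' : ∀ x ∈ F', x < y
      · have h1 : dd c f (F' ∪ G) = 0 := by rw [hdd]; rfl
        rw [dd_apply] at h1
        have h2 : ∀ x ∈ Finset.univ.filter (fun x : P => x ∉ F' ∪ G),
            c x * f (insert x (F' ∪ G)) = (if x < y then c x * f (insert x (F' ∪ G)) else 0) +
              (if y < x then c x * f (insert x (F' ∪ G)) else 0) := by
          intro x hx1
          by_cases hxy : x < y
          · rw [if_pos hxy, if_neg (lt_asymm hxy), add_zero]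
          · rw [if_neg hxy, zero_add]
            by_cases hyx : y < x
            · rw [if_pos hyx]
            · rw [if_neg hyx]
              rw [hL _ x (Finset.mem_insert_self _ _) (by
                rintro (h3 | h3)
                · exact hxy h3
                · exact hyx h3), mul_zero]
        rw [Finset.sum_congr rfl h2, Finset.sum_add_distrib] at h1
        have h3 : dd c (sec y G f) F' = ∑ x ∈ Finset.univ.filter (fun x : P => x ∉ F' ∪ G),
            (if x < y then c x * f (insert x (F' ∪ G)) else 0) := by
          rw [dd_apply, ← Finset.sum_filter, Finset.filter_filter]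
          rw [← Finset.sum_subset (s₁ := Finset.univ.filter (fun x : P => x ∉ F' ∪ G ∧ x < y))]
          · apply Finset.sum_congr rfl
            intro x hx1
            simp only [Finset.mem_filter, Finset.mem_univ, true_and] at hx1
            simp only [sec]
            rw [if_pos, Finset.insert_union]
            intro w hw
            rcases Finset.mem_insert.1 hw with rfl | hw
            · exact hx1.2
            · exact hF' w hw
          · intro x hx1
            simp only [Finset.mem_filter, Finset.mem_univ, true_and, Finset.mem_union,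
              not_or] at hx1 ⊢
            exact hx1.1.1
          · intro x hx1 hx2
            simp only [Finset.mem_filter, Finset.mem_univ, true_and, Finset.mem_union,
              not_or] at hx1 hx2
            simp only [sec]
            rw [if_neg, mul_zero]
            intro h4
            have hxy := h4 x (Finset.mem_insert_self _ _)
            apply hx2
            refine ⟨⟨hx1, fun h5 => ?_⟩, hxy⟩
            exact lt_asymm hxy (hGy x h5)
        have h4 : ∑ x ∈ Finset.univ.filter (fun x : P => x ∉ G ∧ y < x),
            c x * sec y (insert x G) f F' =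
            ∑ x ∈ Finset.univ.filter (fun x : P => x ∉ F' ∪ G),
            (if y < x then c x * f (insert x (F' ∪ G)) else 0) := by
          rw [← Finset.sum_filter, Finset.filter_filter]
          apply Finset.sum_congr
          · ext x
            simp only [Finset.mem_filter, Finset.mem_univ, true_and, Finset.mem_union, not_or]
            constructor
            · rintro ⟨h5, h6⟩
              exact ⟨⟨fun h7 => lt_asymm h6 (hF' x h7), h5⟩, h6⟩
            · rintro ⟨⟨_, h5⟩, h6⟩
              exact ⟨h5, h6⟩
          · intro x hx1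
            simp only [sec]
            rw [if_pos hF', Finset.union_insert]
        rw [h3, h4]
        exact CharTwo.add_eq_zero.1 h1
      · rw [dd_apply]
        rw [Finset.sum_eq_zero, Finset.sum_eq_zero]
        · intro x _
          simp only [sec]
          rw [if_neg hF', mul_zero]
        · intro x _
          simp only [sec]
          rw [if_neg, mul_zero]
          intro h4
          exact hF' (fun w hw => h4 w (Finset.mem_insert_of_mem hw))
    -- the value of the left-hand side
    have hval : dd c (hx y h f) F = dd c (h (sec y G f)) L +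
        ∑ x ∈ Finset.univ.filter (fun x : P => x ∉ G ∧ y < x),
        c x * h (sec y (insert x G) f) L := by
      have h2 : ∀ x ∈ Finset.univ.filter (fun x : P => x ∉ F),
            c x * hx y h f (insert x F) = (if x < y then c x * h (sec y G f) (insert x L) else 0) +
              (if y < x then c x * h (sec y (insert x G) f) L else 0) := by
        intro x hx1
        simp only [hx]
        by_cases hxy : x < y
        · rw [if_pos hxy, if_neg (lt_asymm hxy), add_zero, if_pos, lo_insert_lt hxy,
            hi_insert_lt hxy]
          intro w hw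
          rcases Finset.mem_insert.1 hw with rfl | hw
          · exact Or.inl hxy
          · exact hlk w hw
        · rw [if_neg hxy, zero_add]
          by_cases hyx : y < x
          · rw [if_pos hyx, if_pos, lo_insert_gt hyx, hi_insert_gt hyx]
            intro w hw
            rcases Finset.mem_insert.1 hw with rfl | hw
            · exact Or.inr hyx
            · exact hlk w hw
          · rw [if_neg hyx, if_neg, mul_zero]
            intro hc
            rcases hc x (Finset.mem_insert_self _ _) with h3 | h3
            · exact hxy h3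
            · exact hyx h3
      rw [dd_apply, Finset.sum_congr rfl h2, Finset.sum_add_distrib]
      congr 1
      · rw [dd_apply, ← Finset.sum_filter, Finset.filter_filter]
        apply Finset.sum_subset
        · intro x hx1
          simp only [Finset.mem_filter, Finset.mem_univ, true_and] at hx1 ⊢
          exact fun h5 => hx1.1 (mem_lo.1 h5).1
        · intro x hx1 hx2
          simp only [Finset.mem_filter, Finset.mem_univ, true_and] at hx1 hx2
          rw [(hh _ hsG).1, mul_zero]
          intro hc
          have hxy := (hc.1 x (Finset.mem_insert_self _ _)).2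
          exact hx2 ⟨fun h5 => hx1 (mem_lo.2 ⟨h5, hxy⟩), hxy⟩
      · rw [← Finset.sum_filter, Finset.filter_filter]
        apply Finset.sum_congr
        · ext x
          simp only [Finset.mem_filter, Finset.mem_univ, true_and]
          constructor
          · rintro ⟨h5, h6⟩
            exact ⟨fun h7 => h5 (mem_hi.1 h7).1, h6⟩
          · rintro ⟨h5, h6⟩
            exact ⟨fun h7 => h5 (mem_hi.2 ⟨h7, h6⟩), h6⟩
        · intro x hx1
          rfl
    rw [hval]
    have h5 := hh2 _ hsG
    have h6 := congrFun h5 L
    rw [Pi.add_apply, hsec, map_sum, Finset.sum_apply] at h6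
    simp only [map_smul, Pi.smul_apply, smul_eq_mul] at h6
    rw [h6]
    simp only [sec]
    rw [if_pos (fun x hx => (mem_lo.1 hx).2), hFLG]
  · have h7 : ∃ x ∈ F, ¬ (x < y ∨ y < x) := by
      by_contra hc
      apply hlk
      intro x hx1
      by_contra h8
      exact hc ⟨x, hx1, h8⟩
    obtain ⟨x, hx1, hx2⟩ := h7
    rw [hL F x hx1 hx2, dd_apply]
    apply Finset.sum_eq_zero
    intro w _
    rw [Lk_hx y h f _ x (Finset.mem_insert_of_mem hx1) hx2, mul_zero]

/-- Exactness of the links. -/
theorem Ex.link [CharP k 2] {c : P → k} {y z : P} (hy : Ex c y) (hyz : y < z)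
    (h0 : rk (⊥ : P) = 0) (ht : Thin P) (hreg : RegProp k y) {T : ℕ → Prop}
    (hT : ∀ s, T s → rk y < s) {f : Finset P → k} (hf : f ∈ ZZ k z) (hL : Lk y f)
    (hA : Av T f) (hdd : dd c f = 0) : ∃ g ∈ ZZ k z, Lk y g ∧ Av T g ∧ dd c g = f := by
  obtain ⟨h, hh, hh2⟩ := hy.homotopy h0 ht hreg
  exact ⟨hx y h f, hx_mem hyz hh hf hL, Lk_hx y h f, Av_hx h hT hA, dd_hx hh hh2 hf hL hdd⟩

end Pool.Agent.Lib.MP_5bb951_co
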