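import Pool.Agent.Lib.MP_5bb951_co.Exact

set_option autoImplicit false
set_option linter.unusedSectionVars false
set_option linter.unusedVariables false

open Classical MvPolynomial

namespace Pool.Agent.Lib.MP_5bb951_co

universe u v

variable {P : Type u} [PartialOrder P] [Fintype P] [BoundedOrder P] [GradeOrder ℕ P]
variable (k : Type v) [Field k]

/-- The generators of the Stanley-Reisner ideal. -/
def SRg (P : Type u) [PartialOrder P] (k : Type v) [Field k] : Set (MvPolynomial P k) :=
  {f : MvPolynomial P k | ∃ x y : P, ¬ x ≤ y ∧ ¬ y ≤ x ∧ f = X x * X y}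

/-- The rank sums. -/
noncomputable def th (P : Type u) [PartialOrder P] [Fintype P] [GradeOrder ℕ P]
    (k : Type v) [Field k] (i : ℕ) : MvPolynomial P k :=
  ∑ x : P, if grade ℕ x = i then (X x : MvPolynomial P k) else 0

/-- The ideals generated by some of the rank sums. -/
noncomputable def JJ (P : Type u) [PartialOrder P] [Fintype P] [GradeOrder ℕ P]
    (k : Type v) [Field k] (A : Finset ℕ) : Ideal (MvPolynomial P k) :=
  Ideal.span (SRg P k ∪ th P k '' (A : Set ℕ))

variable {k}

theorem JJ_mono {A B : Finset ℕ} (h : A ⊆ B) : JJ P k A ≤ JJ P k B := by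
  apply Ideal.span_mono
  apply Set.union_subset_union_right
  apply Set.image_mono
  exact_mod_cast h

theorem SRg_mem (A : Finset ℕ) {f : MvPolynomial P k} (hf : f ∈ SRg P k) : f ∈ JJ P k A :=
  Ideal.subset_span (Or.inl hf)

theorem th_mem {A : Finset ℕ} {a : ℕ} (ha : a ∈ A) : th P k a ∈ JJ P k A :=
  Ideal.subset_span (Or.inr ⟨a, by exact_mod_cast ha, rfl⟩)

theorem mem_JJ_insert {A : Finset ℕ} {a : ℕ} {f : MvPolynomial P k} :
    f ∈ JJ P k (insert a A) ↔ ∃ g, ∃ j ∈ JJ P k A, f = th P k a * g + j := by
  have h1 : JJ P k (insert a A) = Ideal.span {th P k a} ⊔ JJ P k A := by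
    rw [JJ, JJ, ← Ideal.span_union]
    congr 1
    rw [Finset.coe_insert, Set.image_insert_eq]
    ext x
    simp only [Set.mem_union, Set.mem_insert_iff, Set.mem_singleton_iff]
    tauto
  rw [h1, Submodule.mem_sup]
  constructor
  · rintro ⟨y, hy, j, hj, rfl⟩
    obtain ⟨g, rfl⟩ := Ideal.mem_span_singleton.1 hy
    exact ⟨g, j, hj, rfl⟩
  · rintro ⟨g, j, hj, rfl⟩
    exact ⟨th P k a * g, Ideal.mem_span_singleton.2 ⟨g, rfl⟩, j, hj, rfl⟩

theorem th_homogeneous (i : ℕ) : (th P k i).IsHomogeneous 1 := by
  apply IsHomogeneous.sum
  intro x _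
  split_ifs
  · exact isHomogeneous_X k x
  · exact isHomogeneous_zero P k 1

attribute [local instance] MvPolynomial.gradedAlgebra

theorem JJ_homogeneous (A : Finset ℕ) :
    (JJ P k A).IsHomogeneous (homogeneousSubmodule P k) := by
  apply Ideal.homogeneous_span
  rintro f (⟨x, y, _, _, rfl⟩ | ⟨a, _, rfl⟩)
  · exact ⟨2, (isHomogeneous_X k x).mul (isHomogeneous_X k y)⟩
  · exact ⟨1, th_homogeneous a⟩

theorem hc_mem {A : Finset ℕ} {f : MvPolynomial P k} (hf : f ∈ JJ P k A) (n : ℕ) :
    homogeneousComponent n f ∈ JJ P k A :=
  homogeneousComponent_mem_of_mem (JJ_homogeneous A) hf n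

theorem hc_th_mul (a : ℕ) (n : ℕ) (f : MvPolynomial P k) :
    homogeneousComponent (n + 1) (th P k a * f) = th P k a * homogeneousComponent n f := by
  conv_lhs => rw [← sum_homogeneousComponent f, Finset.mul_sum, map_sum]
  have h1 : ∀ i, homogeneousComponent (n + 1) (th P k a * homogeneousComponent i f) =
      if i = n then th P k a * homogeneousComponent n f else 0 := by
    intro i
    have h2 : (th P k a * homogeneousComponent i f) ∈ homogeneousSubmodule P k (1 + i) :=
      (th_homogeneous a).mul (homogeneousComponent_isHomogeneous i f)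
    rw [homogeneousComponent_of_mem h2]
    by_cases h3 : i = n
    · rw [if_pos (by omega), if_pos h3, h3]
    · rw [if_neg (by omega), if_neg h3]
  simp only [h1]
  rw [Finset.sum_ite_eq']
  split_ifs with h4
  · rfl
  · rw [Finset.mem_range, not_lt] at h4
    rw [homogeneousComponent_eq_zero n f (by omega), mul_zero]

theorem hc_th_mul_zero (a : ℕ) (f : MvPolynomial P k) :
    homogeneousComponent 0 (th P k a * f) = 0 := by
  conv_lhs => rw [← sum_homogeneousComponent f, Finset.mul_sum, map_sum]
  apply Finset.sum_eq_zero
  intro i _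
  have h2 : (th P k a * homogeneousComponent i f) ∈ homogeneousSubmodule P k (1 + i) :=
    (th_homogeneous a).mul (homogeneousComponent_isHomogeneous i f)
  rw [homogeneousComponent_of_mem h2, if_neg (by omega)]

variable (P k) in
/-- The rank sum `t` is a nonzerodivisor modulo the ideal attached to `A`. -/
def NZ (A : Finset ℕ) (t : ℕ) : Prop := ∀ f : MvPolynomial P k, th P k t * f ∈ JJ P k A →
  f ∈ JJ P k A

theorem NZ.swap {A : Finset ℕ} {a b : ℕ} (h1 : NZ P k A a) (h2 : NZ P k (insert a A) b) :
    NZ P k (insert b A) a := by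
  intro f hf
  obtain ⟨g, j, hj, hfg⟩ := mem_JJ_insert.1 hf
  have hg : g ∈ JJ P k (insert a A) := by
    apply h2
    rw [mem_JJ_insert]
    exact ⟨f, -j, Submodule.neg_mem _ hj, by rw [hfg]; ring⟩
  obtain ⟨h, j', hj', hgh⟩ := mem_JJ_insert.1 hg
  rw [mem_JJ_insert]
  refine ⟨h, f - th P k b * h, ?_, by ring⟩
  apply h1
  have : th P k a * (f - th P k b * h) = th P k b * j' + j := by
    rw [mul_sub, hfg, hgh]
    ring
  rw [this]
  exact Submodule.add_mem _ (Ideal.mul_mem_left _ _ hj') hj

theorem NZ.remove {A : Finset ℕ} {a b : ℕ} (h1 : NZ P k A a) (h2 : NZ P k (insert a A) b) :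
    NZ P k A b := by
  have key : ∀ n : ℕ, ∀ f : MvPolynomial P k, f.IsHomogeneous n → th P k b * f ∈ JJ P k A →
      f ∈ JJ P k A := by
    intro n
    induction n with
    | zero =>
      intro f hfn hf
      obtain ⟨g, j, hj, hfg⟩ := mem_JJ_insert.1 (h2 f (JJ_mono (Finset.subset_insert _ _) hf))
      have h3 : homogeneousComponent 0 f = f := homogeneousComponent_eq_self hfn
      rw [← h3, hfg, map_add, hc_th_mul_zero, zero_add]
      exact hc_mem hj 0
    | succ n ih =>
      intro f hfn hf
      obtain ⟨g, j, hj, hfg⟩ := mem_JJ_insert.1 (h2 f (JJ_mono (Finset.subset_insert _ _) hf))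
      have h3 : homogeneousComponent (n + 1) f = f := homogeneousComponent_eq_self hfn
      have h4 : f = th P k a * homogeneousComponent n g + homogeneousComponent (n + 1) j := by
        rw [← hc_th_mul, ← map_add, ← hfg, h3]
      have h5 : homogeneousComponent n g ∈ JJ P k A := by
        apply ih _ (homogeneousComponent_isHomogeneous n g)
        apply h1
        have h6 : th P k a * (th P k b * homogeneousComponent n g) =
            th P k b * f - th P k b * homogeneousComponent (n + 1) j := by
          conv_rhs => rw [h4]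
          ring
        rw [h6]
        exact Submodule.sub_mem _ hf (Ideal.mul_mem_left _ _ (hc_mem hj _))
      rw [h4]
      exact Submodule.add_mem _ (Ideal.mul_mem_left _ _ h5) (hc_mem hj _)
  intro f hf
  rw [mem_iff_homogeneousComponent_mem (JJ_homogeneous A)]
  intro n
  apply key n _ (homogeneousComponent_isHomogeneous n f)
  rw [← hc_th_mul]
  exact hc_mem hf _

theorem NZ.all {N : ℕ} (h : ∀ t < N, NZ P k (Finset.range t) t) :
    ∀ t ≤ N, ∀ A ⊆ Finset.range t, ∀ τ ∈ Finset.range t, τ ∉ A → NZ P k A τ := by
  intro t
  induction t with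
  | zero =>
    intro _ A _ τ hτ
    simp at hτ
  | succ t ih =>
    intro htN
    have ih' := ih (by omega)
    have step1 : ∀ n, ∀ A ⊆ Finset.range t, (Finset.range t \ A).card = n → NZ P k A t := by
      intro n
      induction n with
      | zero =>
        intro A hA hcard
        rw [Finset.card_eq_zero, Finset.sdiff_eq_empty_iff_subset] at hcard
        rw [Finset.Subset.antisymm hA hcard]
        exact h t (by omega)
      | succ n ihn =>
        intro A hA hcard
        have hne : (Finset.range t \ A).Nonempty := by
          rw [← Finset.card_pos]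
          omega
        obtain ⟨a, ha⟩ := hne
        have ha' := Finset.mem_sdiff.1 ha
        have h1 : NZ P k (insert a A) t := by
          apply ihn _ (Finset.insert_subset ha'.1 hA)
          have : Finset.range t \ insert a A = (Finset.range t \ A).erase a := by
            ext x
            simp only [Finset.mem_sdiff, Finset.mem_insert, Finset.mem_erase]
            tauto
          rw [this, Finset.card_erase_of_mem ha, hcard]
          rfl
        exact NZ.remove (ih' A hA a ha'.1 ha'.2) h1
    intro A hA τ hτ hτA
    rw [Finset.mem_range] at hτ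
    by_cases hτt : τ = t
    · subst hτt
      apply step1 _ A _ rfl
      intro x hx
      have := Finset.mem_range.1 (hA hx)
      rw [Finset.mem_range]
      have : x ≠ τ := by
        rintro rfl
        exact hτA hx
      omega
    · have hτ' : τ ∈ Finset.range t := by
        rw [Finset.mem_range]
        omega
      by_cases htA : t ∈ A
      · have hA' : A.erase t ⊆ Finset.range t := by
          intro x hx
          rw [Finset.mem_erase] at hx
          have := Finset.mem_range.1 (hA hx.2)
          rw [Finset.mem_range]
          omega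
        have hτA' : τ ∉ A.erase t := fun hh => hτA (Finset.mem_of_mem_erase hh)
        have h1 := ih' _ hA' τ hτ' hτA'
        have h2 : NZ P k (insert τ (A.erase t)) t :=
          step1 _ _ (Finset.insert_subset hτ' hA') rfl
        have h3 := NZ.swap h1 h2
        rwa [Finset.insert_erase htA] at h3
      · apply ih' A _ τ hτ' hτA
        intro x hx
        have := Finset.mem_range.1 (hA hx)
        rw [Finset.mem_range]
        have : x ≠ t := by
          rintro rfl
          exact htA hx
        omega

end Pool.Agent.Lib.MP_5bb951_co
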