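import Pool.Agent.Lib.MP_5bb951_co.Reg

set_option autoImplicit false
set_option linter.unusedSectionVars false
set_option linter.unusedVariables false

open Classical MvPolynomial

namespace Pool.Agent.Lib.MP_5bb951_co

universe u v

variable {P : Type u} [PartialOrder P] [Fintype P] [BoundedOrder P] [GradeOrder ℕ P]
variable {k : Type v} [Field k]

theorem exists_ext (z : P) (h0 : rk (⊥ : P) = 0) :
    ∃ ext : Finset P → Fl z, ∀ F, IsCh z F → F ⊆ (ext F).1 := by
  obtain ⟨Φ₀, hΦ₀, _⟩ := (isCh_empty z).exists_flag h0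
  have hext : ∀ F : Finset P, ∃ Φ : Fl z, IsCh z F → F ⊆ Φ.1 := by
    intro F
    by_cases hF : IsCh z F
    · obtain ⟨Φ, hΦ, hsub⟩ := hF.exists_flag h0
      exact ⟨⟨Φ, hΦ⟩, fun _ => hsub⟩
    · exact ⟨⟨Φ₀, hΦ₀⟩, fun hh => absurd hh hF⟩
  choose ext hext using hext
  exact ⟨ext, hext⟩

/-- The exponent of the monomial attached to `z` and a chain. -/
noncomputable def mz (z : P) (G : Finset P) : P →₀ ℕ := Finsupp.single z 1 + mon G

theorem mz_eq (z : P) (G : Finset P) :
    (X z * ∏ x ∈ G, X x : MvPolynomial P k) = monomial (mz z G) 1 := by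
  rw [prod_X_eq, mz, X, monomial_mul, one_mul]

theorem mz_inj {z : P} {G G' : Finset P} (h : mz z G = mz z G') : G = G' := by
  rw [mz, mz, add_right_inj] at h
  ext x
  have h1 := DFunLike.congr_fun h x
  rw [mon_apply, mon_apply] at h1
  by_cases h2 : x ∈ G
  · by_cases h3 : x ∈ G'
    · exact ⟨fun _ => h3, fun _ => h2⟩
    · rw [if_pos h2, if_neg h3] at h1
      omega
  · by_cases h3 : x ∈ G'
    · rw [if_neg h2, if_pos h3] at h1
      omega
    · exact ⟨fun h => absurd h h2, fun h => absurd h h3⟩

/-- The chains of type `S`. -/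
noncomputable def Ch (z : P) (S : Finset ℕ) : Finset (Finset P) :=
  Finset.univ.filter (fun G : Finset P => IsCh z G ∧ ty G = S)

theorem mem_Ch {z : P} {S : Finset ℕ} {G : Finset P} : G ∈ Ch z S ↔ IsCh z G ∧ ty G = S := by
  simp [Ch]

/-- The polynomial attached to a function on flags. -/
noncomputable def UU (z : P) (ext : Finset P → Fl z) (S : Finset ℕ) :
    (Fl z → k) →ₗ[k] MvPolynomial P k where
  toFun φ := ∑ G ∈ Ch z S, φ (ext G) • (X z * ∏ x ∈ G, X x)
  map_add' := by
    intro a b
    simp only [Pi.add_apply, add_smul, Finset.sum_add_distrib]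
  map_smul' := by
    intro a b
    simp only [Pi.smul_apply, smul_eq_mul, RingHom.id_apply, Finset.smul_sum, mul_smul]

theorem UU_apply (z : P) (ext : Finset P → Fl z) (S : Finset ℕ) (φ : Fl z → k) :
    UU z ext S φ = ∑ G ∈ Ch z S, φ (ext G) • (X z * ∏ x ∈ G, X x) := rfl

theorem prod_mem_of_not_ch {z x : P} {G : Finset P} (hG : IsCh z G) (h0 : rk (⊥ : P) = 0)
    (hx : rk x ∈ II z) (hn : ¬ IsCh z (insert x G)) (A : Finset ℕ) :
    (X x * (X z * ∏ y ∈ G, X y) : MvPolynomial P k) ∈ JJ P k A := by
  simp only [II, Finset.mem_Ioo] at hx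
  by_cases hxz : x < z
  · have hex : ∃ y ∈ G, ¬ x ≤ y ∧ ¬ y ≤ x := by
      by_contra hc
      push Not at hc
      apply hn
      have hc' : ∀ y ∈ G, x ≤ y ∨ y ≤ x := by
        intro y hy
        by_cases h1 : x ≤ y
        · exact Or.inl h1
        · exact Or.inr (hc y hy h1)
      refine ⟨?_, ?_⟩
      · intro y hy
        rcases Finset.mem_insert.1 hy with rfl | hy
        · refine ⟨?_, hxz⟩
          rw [bot_lt_iff_ne_bot]
          rintro rfl
          omega
        · exact hG.1 y hy
      · intro y hy w hw
        rcases Finset.mem_insert.1 hy with hy | hy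
        · rcases Finset.mem_insert.1 hw with hw | hw
          · left; rw [hy, hw]
          · rw [hy]; exact hc' w hw
        · rcases Finset.mem_insert.1 hw with hw | hw
          · rw [hw]; exact (hc' y hy).symm
          · exact hG.2 y hy w hw
    obtain ⟨y, hy, h1, h2⟩ := hex
    rw [← Finset.mul_prod_erase G _ hy]
    have : (X x * (X z * (X y * ∏ w ∈ G.erase y, X w)) : MvPolynomial P k) =
        (X z * ∏ w ∈ G.erase y, X w) * (X x * X y) := by ring
    rw [this]
    exact Ideal.mul_mem_left _ _ (SRg_mem A ⟨x, y, h1, h2, rfl⟩)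
  · have h1 : ¬ x ≤ z := by
      intro hh
      rcases hh.lt_or_eq with h2 | h2
      · exact hxz h2
      · subst h2
        omega
    have h2 : ¬ z ≤ x := by
      intro hh
      rcases hh.lt_or_eq with h3 | h3
      · have := rk_lt h3
        omega
      · subst h3
        omega
    have : (X x * (X z * ∏ y ∈ G, X y) : MvPolynomial P k) =
        (∏ y ∈ G, X y) * (X x * X z) := by ring
    rw [this]
    exact Ideal.mul_mem_left _ _ (SRg_mem A ⟨x, z, h1, h2, rfl⟩)

theorem th_eq (a : ℕ) : th P k a = ∑ x ∈ Finset.univ.filter (fun x : P => rk x = a), X x := by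
  rw [th, Finset.sum_filter]

theorem th_mul_UU {z : P} (h0 : rk (⊥ : P) = 0) {ext : Finset P → Fl z}
    (hext : ∀ F, IsCh z F → F ⊆ (ext F).1) {D : Finset ℕ} (hD : D ⊆ II z) {a : ℕ} (ha : a ∈ D)
    {φ : Fl z → k} (hφ : φ ∈ C k z (D.erase a)) (A : Finset ℕ) :
    th P k a * UU z ext (D.erase a) φ - UU z ext D φ ∈ JJ P k A := by
  have hext' : ∀ F : Finset P, IsCh z F → res (ty F) (ext F).1 = F := by
    intro F hF
    exact ((ext F).2.1.eq_res (hext F hF)).symm
  set S1 : Finset (Σ _ : Finset P, P) := (Ch z (D.erase a)).sigma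
    (fun _ => Finset.univ.filter (fun x : P => rk x = a)) with hS1
  set t : (Σ _ : Finset P, P) → MvPolynomial P k := fun p =>
    φ (ext p.1) • (X p.2 * (X z * ∏ y ∈ p.1, X y)) with ht
  have e1 : th P k a * UU z ext (D.erase a) φ = ∑ p ∈ S1, t p := by
    rw [th_eq, UU_apply, hS1, Finset.sum_sigma, Finset.mul_sum]
    apply Finset.sum_congr rfl
    intro G _
    rw [Finset.sum_mul]
    apply Finset.sum_congr rfl
    intro x _
    simp only [ht]
    rw [mul_smul_comm]
  have e2 : UU z ext D φ = ∑ p ∈ S1.filter (fun p => IsCh z (insert p.2 p.1)), t p := by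
    rw [UU_apply]
    symm
    refine Finset.sum_bij (fun p _ => insert p.2 p.1) ?_ ?_ ?_ ?_
    · rintro ⟨G, x⟩ hp
      simp only [hS1, Finset.mem_filter, Finset.mem_sigma, mem_Ch, Finset.mem_univ,
        true_and] at hp
      rw [mem_Ch]
      refine ⟨hp.2, ?_⟩
      rw [ty_insert, hp.1.2, hp.1.1.2, Finset.insert_erase ha]
    · rintro ⟨G, x⟩ hp ⟨G', x'⟩ hp' heq
      simp only [hS1, Finset.mem_filter, Finset.mem_sigma, mem_Ch, Finset.mem_univ,
        true_and] at hp hp'
      simp only at heq
      have hxx : x = x' := by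
        apply hp.2.eq_of_rk (Finset.mem_insert_self _ _)
        · rw [heq]
          exact Finset.mem_insert_self _ _
        · rw [hp.1.2, hp'.1.2]
      subst hxx
      have hxG : x ∉ G := by
        intro hh
        have : rk x ∈ ty G := mem_ty.2 ⟨x, hh, rfl⟩
        rw [hp.1.1.2, hp.1.2] at this
        exact Finset.notMem_erase _ _ this
      have hxG' : x ∉ G' := by
        intro hh
        have : rk x ∈ ty G' := mem_ty.2 ⟨x, hh, rfl⟩
        rw [hp'.1.1.2, hp.1.2] at this
        exact Finset.notMem_erase _ _ this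
      have hGG : G = G' := by
        rw [← Finset.erase_insert hxG, heq, Finset.erase_insert hxG']
      subst hGG
      rfl
    · intro G' hG'
      rw [mem_Ch] at hG'
      have haG : a ∈ ty G' := by
        rw [hG'.2]
        exact ha
      obtain ⟨x, hx, hxa⟩ := mem_ty.1 haG
      have hins : insert x (G'.erase x) = G' := Finset.insert_erase hx
      have hty : ty (G'.erase x) = D.erase a := by
        ext s
        rw [mem_ty, Finset.mem_erase, ← hG'.2, mem_ty]
        constructor
        · rintro ⟨y, hy, rfl⟩
          rw [Finset.mem_erase] at hy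
          refine ⟨?_, y, hy.2, rfl⟩
          intro hh
          exact hy.1 (hG'.1.eq_of_rk hy.2 hx (by rw [hh, hxa]))
        · rintro ⟨hs, y, hy, rfl⟩
          refine ⟨y, Finset.mem_erase.2 ⟨?_, hy⟩, rfl⟩
          rintro rfl
          exact hs hxa
      refine ⟨⟨G'.erase x, x⟩, ?_, hins⟩
      simp only [hS1, Finset.mem_filter, Finset.mem_sigma, mem_Ch, Finset.mem_univ, true_and]
      refine ⟨⟨⟨hG'.1.mono (Finset.erase_subset _ _), hty⟩, hxa⟩, ?_⟩
      rw [hins]
      exact hG'.1
    · rintro ⟨G, x⟩ hp
      simp only [hS1, Finset.mem_filter, Finset.mem_sigma, mem_Ch, Finset.mem_univ,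
        true_and] at hp
      simp only [ht]
      have hxG : x ∉ G := by
        intro hh
        have : rk x ∈ ty G := mem_ty.2 ⟨x, hh, rfl⟩
        rw [hp.1.1.2, hp.1.2] at this
        exact Finset.notMem_erase _ _ this
      have hval : φ (ext G) = φ (ext (insert x G)) := by
        apply hφ
        have f1 := hext' G hp.1.1.1
        have f2 := hext' (insert x G) hp.2
        rw [hp.1.1.2] at f1
        rw [ty_insert, hp.1.2, hp.1.1.2, Finset.insert_erase ha] at f2
        rw [f1, ← res_res_of_subset (Finset.erase_subset a D), f2]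
        ext y
        simp only [mem_res, Finset.mem_insert]
        constructor
        · intro hy
          refine ⟨Or.inr hy, ?_⟩
          rw [← hp.1.1.2]
          exact mem_ty.2 ⟨y, hy, rfl⟩
        · rintro ⟨rfl | hy, hy2⟩
          · rw [hp.1.2] at hy2
            exact absurd hy2 (Finset.notMem_erase _ _)
          · exact hy
      rw [hval, Finset.prod_insert hxG]
      congr 1
      ring
  rw [e1, e2, ← Finset.sum_filter_add_sum_filter_not S1 (fun p => IsCh z (insert p.2 p.1)),
    add_sub_cancel_left]
  apply Submodule.sum_mem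
  rintro ⟨G, x⟩ hp
  simp only [hS1, Finset.mem_filter, Finset.mem_sigma, mem_Ch, Finset.mem_univ, true_and] at hp
  simp only [ht]
  rw [smul_eq_C_mul]
  apply Ideal.mul_mem_left
  apply prod_mem_of_not_ch hp.1.1.1 h0 _ hp.2
  rw [hp.1.2]
  exact hD ha

/-- Extracting coefficients. -/
noncomputable def KK (z : P) (S : Finset ℕ) : MvPolynomial P k →ₗ[k] (Fl z → k) where
  toFun p := fun Φ => coeff (mz z (res S Φ.1)) p
  map_add' := by
    intro a b
    ext Φ
    simp
  map_smul' := by
    intro a b
    ext Φ
    simp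

theorem KK_apply (z : P) (S : Finset ℕ) (p : MvPolynomial P k) (Φ : Fl z) :
    KK z S p Φ = coeff (mz z (res S Φ.1)) p := rfl

theorem KK_UU {z : P} {ext : Finset P → Fl z}
    (hext : ∀ F, IsCh z F → F ⊆ (ext F).1) {S : Finset ℕ} (hS : S ⊆ II z)
    {φ : Fl z → k} (hφ : φ ∈ C k z S) : KK z S (UU z ext S φ) = φ := by
  have hext' : ∀ F : Finset P, IsCh z F → res (ty F) (ext F).1 = F := by
    intro F hF
    exact ((ext F).2.1.eq_res (hext F hF)).symm
  ext Φ
  rw [KK_apply, UU_apply, coeff_sum]
  have hch : IsCh z (res S Φ.1) := Φ.2.1.mono (res_subset _ _)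
  have hty : ty (res S Φ.1) = S := Φ.2.ty_res hS
  rw [Finset.sum_eq_single (res S Φ.1)]
  · rw [coeff_smul, mz_eq, coeff_monomial, if_pos rfl, smul_eq_mul, mul_one]
    apply hφ
    have h1 := hext' _ hch
    rw [hty] at h1
    exact h1
  · intro G _ hG
    rw [coeff_smul, mz_eq, coeff_monomial, if_neg, smul_zero]
    intro hh
    exact hG (mz_inj hh)
  · intro hh
    exact absurd (mem_Ch.2 ⟨hch, hty⟩) hh

theorem mz_support {z : P} {G : Finset P} {x : P} : x ∈ (mz z G).support ↔ x = z ∨ x ∈ G := by
  rw [Finsupp.mem_support_iff, mz, Finsupp.add_apply, mon_apply, Finsupp.single_apply]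
  by_cases h1 : z = x
  · rw [if_pos h1]
    simp [h1]
  · rw [if_neg h1]
    by_cases h2 : x ∈ G
    · rw [if_pos h2]
      simp [h2]
    · rw [if_neg h2]
      simp only [add_zero, ne_eq, not_true_eq_false, h2, or_false, false_iff]
      exact fun h => h1 h.symm

theorem mz_sub {z : P} {G : Finset P} {x : P} (hx : x ∈ G) :
    mz z G - Finsupp.single x 1 = mz z (G.erase x) := by
  have : mon G = Finsupp.single x 1 + mon (G.erase x) := by
    rw [mon, mon]
    exact (Finset.add_sum_erase G (fun x => Finsupp.single x 1) hx).symm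
  rw [mz, mz, this]
  ext w
  simp only [Finsupp.coe_tsub, Finsupp.coe_add, Pi.sub_apply, Pi.add_apply]
  omega

theorem KK_mem {z : P} {S : Finset ℕ} (hS : S ⊆ II z) {A : Finset ℕ} (hA : A ⊆ S)
    {p : MvPolynomial P k} (hp : p ∈ JJ P k A) : KK z S p ∈ ⨆ a ∈ A, C k z (S.erase a) := by
  have key : ∀ r : MvPolynomial P k, KK z S (r * p) ∈ ⨆ a ∈ A, C k z (S.erase a) := by
    refine Submodule.span_induction (p := fun x _ => ∀ r : MvPolynomial P k,
      KK z S (r * x) ∈ ⨆ a ∈ A, C k z (S.erase a)) ?_ ?_ ?_ ?_ hp
    · rintro x (⟨i, j, hij, hji, rfl⟩ | ⟨a, ha, rfl⟩) r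
      · have : KK z S (r * (X i * X j)) = 0 := by
          ext Φ
          rw [KK_apply, Pi.zero_apply]
          have h1 : (X i * X j : MvPolynomial P k) =
              monomial (Finsupp.single i 1 + Finsupp.single j 1) 1 := by
            rw [X, X, monomial_mul, one_mul]
          rw [h1, coeff_mul_monomial', if_neg]
          intro hle
          have hi : i ∈ (mz z (res S Φ.1)).support := by
            rw [Finsupp.mem_support_iff]
            have := hle i
            simp only [Finsupp.coe_add, Pi.add_apply, Finsupp.single_eq_same] at this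
            omega
          have hj : j ∈ (mz z (res S Φ.1)).support := by
            rw [Finsupp.mem_support_iff]
            have := hle j
            simp only [Finsupp.coe_add, Pi.add_apply, Finsupp.single_eq_same] at this
            omega
          rw [mz_support] at hi hj
          rcases hi with rfl | hi
          · rcases hj with rfl | hj
            · exact hij le_rfl
            · exact hji (Φ.2.1.1 j (mem_res.1 hj).1).2.le
          · rcases hj with rfl | hj
            · exact hij (Φ.2.1.1 i (mem_res.1 hi).1).2.le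
            · rcases Φ.2.1.2 i (mem_res.1 hi).1 j (mem_res.1 hj).1 with h2 | h2
              · exact hij h2
              · exact hji h2
        rw [this]
        exact Submodule.zero_mem _
      · have haA : a ∈ A := by exact_mod_cast ha
        apply Submodule.mem_iSup_of_mem a
        apply Submodule.mem_iSup_of_mem haA
        have hval : ∀ Φ : Fl z, KK z S (r * th P k a) Φ =
            coeff (mz z (res (S.erase a) Φ.1)) r := by
          intro Φ
          rw [KK_apply, th_eq, Finset.mul_sum, coeff_sum]
          obtain ⟨x, hx, hxa, huniq⟩ := Φ.2.filter_rk (hS (hA haA))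
          have hxS : x ∈ res S Φ.1 := mem_res.2 ⟨hx, by rw [hxa]; exact hA haA⟩
          rw [Finset.sum_eq_single x]
          · rw [coeff_mul_X', if_pos (mz_support.2 (Or.inr hxS)), mz_sub hxS]
            congr 2
            ext y
            simp only [Finset.mem_erase, mem_res]
            constructor
            · rintro ⟨h1, h2, h3⟩
              exact ⟨h2, fun h4 => h1 (huniq y h2 h4), h3⟩
            · rintro ⟨h1, h2, h3⟩
              refine ⟨?_, h1, h3⟩
              rintro rfl
              exact h2 hxa
          · intro y hy hyx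
            simp only [Finset.mem_filter, Finset.mem_univ, true_and] at hy
            rw [coeff_mul_X', if_neg]
            intro hh
            rw [mz_support] at hh
            rcases hh with rfl | hh
            · have := hS (hA haA)
              simp only [II, Finset.mem_Ioo] at this
              omega
            · exact hyx (huniq y (mem_res.1 hh).1 hy)
          · intro hh
            exfalso
            apply hh
            simp only [Finset.mem_filter, Finset.mem_univ, true_and]
            exact hxa
        intro Φ Ψ hr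
        rw [hval, hval, hr]
    · intro r
      rw [mul_zero, map_zero]
      exact Submodule.zero_mem _
    · intro x y _ _ hx hy r
      rw [mul_add, map_add]
      exact Submodule.add_mem _ (hx r) (hy r)
    · intro s x _ hx r
      rw [smul_eq_mul, ← mul_assoc]
      exact hx (r * s)
  have := key 1
  rwa [one_mul] at this

theorem regProp_of_NZ {N : ℕ} (h0 : rk (⊥ : P) = 0)
    (hNZ : ∀ A ⊆ Finset.range N, ∀ τ ∈ Finset.range N, τ ∉ A → NZ P k A τ) {z : P}
    (hz : rk z ≤ N) : RegProp k z := by
  obtain ⟨ext, hext⟩ := exists_ext z h0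
  intro D hD t ht A hA φ hφ
  obtain ⟨hφ1, hφ2⟩ := hφ
  have hAD : A ⊆ D := hA.trans (Finset.erase_subset _ _)
  have hIN : II z ⊆ Finset.range N := by
    intro s hs
    simp only [II, Finset.mem_Ioo] at hs
    rw [Finset.mem_range]
    omega
  have h1 : UU z ext D φ ∈ JJ P k A := by
    have h2 : (⨆ a ∈ A, C k z (D.erase a)) ≤
        ((JJ P k A).restrictScalars k).comap (UU z ext D) := by
      apply iSup₂_le
      intro a ha ψ hψ
      rw [Submodule.mem_comap, Submodule.restrictScalars_mem]
      have h3 := th_mul_UU h0 hext hD (hAD ha) hψ A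
      have h4 : th P k a * UU z ext (D.erase a) ψ ∈ JJ P k A :=
        Ideal.mul_mem_right _ _ (th_mem ha)
      have h5 := Submodule.sub_mem _ h4 h3
      rwa [sub_sub_cancel] at h5
    exact h2 hφ2
  have h2 : th P k t * UU z ext (D.erase t) φ ∈ JJ P k A := by
    have h3 := th_mul_UU h0 hext hD ht hφ1 A
    have h4 := Submodule.add_mem _ h3 h1
    rwa [sub_add_cancel] at h4
  have h3 : UU z ext (D.erase t) φ ∈ JJ P k A := by
    apply hNZ A ((hAD.trans hD).trans hIN) t (hIN (hD ht)) _ _ h2
    intro hh
    exact Finset.notMem_erase _ _ (hA hh)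
  have h4 := KK_mem ((Finset.erase_subset _ _).trans hD) hA h3
  rw [KK_UU hext ((Finset.erase_subset _ _).trans hD) hφ1] at h4
  simp only [Finset.erase_right_comm (a := t)] at h4
  exact h4

end Pool.Agent.Lib.MP_5bb951_co
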